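import Pool.Agent.Lib.MP_08f962_ag.HF3

open MvPolynomial Filter Module
open scoped Polynomial

set_option linter.unusedSectionVars false
set_option linter.style.haveILetI false
set_option linter.unusedVariables false

noncomputable section

namespace Pool.Agent.Lib.MP_08f962_ag

variable {n m s t : ℕ} {A : Type*} [CommRing A] [Algebra ℂ A]

lemma ev_scale {f : S n m} (hf : f ∈ Forms n m (s, t)) (z : Fin (n + 1) ⊕ Fin (m + 1) → A)
    (u w : A) : aeval (fun v => Sum.elim (fun _ => u) (fun _ => w) v * z v) f =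
      u ^ s * w ^ t * aeval z f := by
  have := @forms_ind n m (s, t) f fun f => aeval
    (fun v => Sum.elim (fun _ => u) (fun _ => w) v * z v) f = u ^ s * w ^ t * aeval z f
  refine this (by simp) (fun f g h h' => by rw [map_add, map_add, h, h', mul_add])
    (fun α c hα => ?_) hf
  rw [weight_wt, Prod.mk.injEq] at hα
  rw [aeval_monomial, aeval_monomial, Finsupp.prod_fintype _ _ (by simp),
    Finsupp.prod_fintype _ _ (by simp), ← hα.1, ← hα.2]
  simp only [mul_pow, Finset.prod_mul_distrib, Fintype.prod_sum_type, Sum.elim_inl, Sum.elim_inr,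
    Finset.prod_pow_eq_pow_sum]
  ring

lemma weight_elim (β : Fin (n + 1) →₀ ℕ) (μ : Fin (m + 1) →₀ ℕ) :
    Finsupp.weight (wt n m) (β.sumElim μ) = (∑ i, β i, ∑ j, μ j) := weight_wt _

lemma finrank_forms : finrank ℂ (Forms n m (s, t)) = (s + n).choose n * (t + m).choose m := by
  classical
  have h1 : Forms n m (s, t) = restrictSupport ℂ (((Finset.univ.finsuppAntidiag s ×ˢ
      Finset.univ.finsuppAntidiag t).map Finsupp.sumFinsuppEquivProdFinsupp.symm.toEmbedding :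
        Finset (Fin (n + 1) ⊕ Fin (m + 1) →₀ ℕ)) : Set (Fin (n + 1) ⊕ Fin (m + 1) →₀ ℕ)) := by
    ext f
    refine forall_congr' fun α => imp_congr Finsupp.mem_support_iff.symm ?_
    obtain ⟨⟨β, μ⟩, rfl⟩ := Finsupp.sumFinsuppEquivProdFinsupp.symm.surjective α
    rw [Finset.mem_coe, Finset.mem_map_equiv, Equiv.symm_symm, Equiv.apply_symm_apply,
      Finsupp.sumFinsuppEquivProdFinsupp_symm_apply, weight_elim]
    simp [Finset.mem_finsuppAntidiag]
  rw [h1, finrank_eq_card_basis (basisRestrictSupport ℂ _), ← Nat.card_eq_fintype_card,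
    Nat.card_coe_set_eq, Set.ncard_coe_finset, Finset.card_map, ← Nat.choose_symm_add,
    ← Nat.choose_symm_add (a := t)]
  simp [Finset.card_finsuppAntidiag_nat_eq_choose, add_comm, add_left_comm]

lemma h_bot : H m (⊥ : Ideal (S 1 m)) (m.factorial : ℝ)⁻¹ 0 := by
  refine ⟨Ideal.isPrime_bot, fun f hf p => by rw [Ideal.mem_bot.1 hf, map_zero]; rfl,
    ⟨Polynomial.preHilbertPoly ℝ m 0, Polynomial.preHilbertPoly ℝ m 0, ⟨0, fun s t _ _ => ?_⟩,
      (Polynomial.natDegree_preHilbertPoly _ _ _).le,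
      (Polynomial.natDegree_preHilbertPoly _ _ _).le.trans m.le_succ,
      (Polynomial.coeff_preHilbertPoly_self _ _ _).symm, (Polynomial.coeff_eq_zero_of_natDegree_lt
        ((Polynomial.natDegree_preHilbertPoly _ _ _).trans_lt m.lt_succ_self)).symm⟩,
    by positivity⟩
  have h1 := hf_add_gd (⊥ : Ideal (S 1 m)) (s, t)
  rw [gd, Submodule.restrictScalars_bot, inf_bot_eq, finrank_bot, add_zero, finrank_forms] at h1
  rw [h1, Polynomial.preHilbertPoly_eq_choose_sub_add _ _ t.zero_le]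
  simp
  ring

lemma e_bot : E m (⊥ : Ideal (S 1 m)) 0 := ⟨m, ⊥, _, 0, le_rfl, le_rfl, h_bot, by simp⟩

/-- Evaluation on the chart where the second variable is one. -/
def evp (x : A) (y : Fin (m + 1) → A) : S 1 m →ₐ[ℂ] A := aeval (Sum.elim ![x, 1] y)

/-- Dehomogenisation. -/
def deh : S 1 m →ₐ[ℂ] MvPolynomial (Fin (m + 1)) ℂ[X] := evp (C Polynomial.X) X

lemma map_evp {B : Type*} [CommRing B] [Algebra ℂ B] (φ : A →ₐ[ℂ] B) (x : A)
    (y : Fin (m + 1) → A) (f : S 1 m) : φ (evp x y f) = evp (φ x) (fun j => φ (y j)) f := by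
  refine AlgHom.congr_fun (φ₁ := φ.comp (evp x y)) (algHom_ext ?_) f
  rintro (i | j)
  · fin_cases i <;> simp [evp]
  · simp [evp]

lemma evp_deh (x : A) (y : Fin (m + 1) → A) (f : S 1 m) :
    evp x y f = aevalTower (Polynomial.aeval x) y (deh f) := by
  rw [deh, map_evp]; simp

lemma deh_monomial (β : Fin 2 →₀ ℕ) (μ : Fin (m + 1) →₀ ℕ) (c : ℂ) :
    deh (monomial (β.sumElim μ) c) = monomial μ (Polynomial.monomial (β 0) c) := by
  rw [deh, evp, aeval_monomial, Finsupp.prod_fintype _ _ (by simp), monomial_eq,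
    Finsupp.prod_fintype _ _ (by simp), ← Polynomial.C_mul_X_pow_eq_monomial]
  simp [mul_assoc]

lemma exists_lift {G : MvPolynomial (Fin (m + 1)) ℂ[X]} (h : G.IsHomogeneous t)
    (h' : ∀ μ, (G.coeff μ).natDegree ≤ s) : ∃ F ∈ Forms 1 m (s, t), deh F = G := by
  change G ∈ (Forms 1 m (s, t)).map deh.toLinearMap
  rw [G.as_sum]
  refine sum_mem fun μ hμ => ?_
  rw [(G.coeff μ).as_sum_range' _ (Nat.lt_succ_of_le (h' μ)), map_sum]
  refine sum_mem fun a ha => ⟨monomial (Finsupp.sumElim (Finsupp.single 0 a + Finsupp.single 1 (s - a)) μ)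
    ((G.coeff μ).coeff a), isWeightedHomogeneous_monomial _ _ _ ?_, ?_⟩
  · have : μ.degree = t := by
      rw [Finsupp.degree_eq_weight_one]; exact h (mem_support_iff.1 hμ)
    rw [Finsupp.degree_eq_sum] at this
    rw [weight_elim, this]
    simp [Nat.add_sub_cancel' (Nat.le_of_lt_succ (Finset.mem_range.1 ha))]
  · exact (deh_monomial _ μ _).trans (by simp)

lemma exists_vec {F : S 1 m} (hF : F ∈ Forms 1 m (s, 1)) : ∃ u : Fin (m + 1) → ℂ[X],
    (∀ j, (u j).natDegree ≤ s) ∧ deh F = ∑ j, C (u j) * X j := by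
  classical
  have := @forms_ind 1 m (s, 1) F fun F => ∃ u : Fin (m + 1) → ℂ[X],
    (∀ j, (u j).natDegree ≤ s) ∧ deh F = ∑ j, C (u j) * X j
  refine this ⟨0, by simp, by simp⟩ ?_ (fun α c hα => ?_) hF
  · rintro f g ⟨u, hu, h⟩ ⟨v, hv, h'⟩
    exact ⟨u + v, fun j => (Polynomial.natDegree_add_le _ _).trans (max_le (hu j) (hv j)), by
      simp [h, h', add_mul, Finset.sum_add_distrib]⟩
  obtain ⟨⟨β, μ⟩, rfl⟩ := Finsupp.sumFinsuppEquivProdFinsupp.symm.surjective α
  rw [Finsupp.sumFinsuppEquivProdFinsupp_symm_apply] at hα ⊢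
  rw [weight_elim, Prod.mk.injEq, ← Finsupp.degree_eq_sum, ← Finsupp.degree_eq_sum] at hα
  obtain ⟨j, rfl⟩ := (Finsupp.sum_eq_one_iff μ).1 hα.2
  refine ⟨Pi.single j (Polynomial.monomial (β 0) c), fun i => ?_, ?_⟩
  · rw [Pi.single_apply]
    split_ifs
    · exact (Polynomial.natDegree_monomial_le _).trans (hα.1 ▸ Finsupp.le_degree _ _)
    · simp
  · rw [deh_monomial, Finset.sum_eq_single j (fun i _ hi => by simp [hi]) (by simp),
      Pi.single_eq_same, C_mul_X_eq_monomial]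

lemma exists_lin (u : Fin (m + 1) → ℂ[X]) (hu : ∀ j, (u j).natDegree ≤ s) :
    ∃ F ∈ Forms 1 m (s, 1), deh F = ∑ j, C (u j) * X j := by
  classical
  refine exists_lift (IsHomogeneous.sum _ _ _ fun j _ => isHomogeneous_C_mul_X _ _) fun μ => ?_
  rw [coeff_sum]
  refine Polynomial.natDegree_sum_le_of_forall_le _ _ fun j _ => ?_
  rw [C_mul_X_eq_monomial, coeff_monomial]
  split_ifs
  exacts [hu j, by simp]

theorem H.field {k : ℕ} {P : Ideal (S 1 m)} {α β : ℝ} (h : H k P α β) :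
    ∃ (L : Type) (_ : Field L) (_ : Algebra ℂ L) (x : L) (y : Fin (m + 1) → L),
      Transcendental ℂ x ∧ (∃ j, y j = 1) ∧ (∀ p, ∀ f ∈ Forms 1 m p, f ∈ P ↔ evp x y f = 0) ∧
      ∀ z : L, ∃ p, ∃ a ∈ Forms 1 m p, ∃ b ∈ Forms 1 m p, evp x y b ≠ 0 ∧
        z * evp x y b = evp x y a := by
  haveI := h.prime
  obtain ⟨j, hj⟩ := h.exists_y
  let K := FractionRing (S 1 m ⧸ P)
  let φ : S 1 m →ₐ[ℂ] K := (IsScalarTower.toAlgHom ℂ (S 1 m ⧸ P) K).comp (Ideal.Quotient.mkₐ ℂ P)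
  have h1 : ∀ f, φ f = 0 ↔ f ∈ P := fun f =>
    (map_eq_zero_iff _ (IsFractionRing.injective (S 1 m ⧸ P) K)).trans
      Ideal.Quotient.eq_zero_iff_mem
  have hx := mt (h1 _).1 (h.not_x 1)
  have hy := mt (h1 _).1 hj
  let x := φ (X (.inl 0)) / φ (X (.inl 1))
  let y := fun i => φ (X (.inr i)) / φ (X (.inr j))
  have h2 : ∀ p, ∀ f ∈ Forms 1 m p, f ∈ P ↔ evp x y f = 0 := fun p f hf => by
    have := ev_scale (s := p.1) (t := p.2) hf (Sum.elim ![x, 1] y) (φ (X (.inl 1))) (φ (X (.inr j)))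
    rw [← h1, show φ f = aeval _ f from AlgHom.congr_fun (algHom_ext ?_) f, this]
    · simp [hx, hy, evp]
    rintro (i | i)
    · fin_cases i <;> simp [x, mul_div_cancel₀ _ hx]
    · simp [y, mul_div_cancel₀ _ hy]
  let L : IntermediateField ℂ K :=
    { carrier := {z | ∃ p, ∃ a ∈ Forms 1 m p, ∃ b ∈ Forms 1 m p, evp x y b ≠ 0 ∧
        z * evp x y b = evp x y a}
      mul_mem' := by
        rintro z w ⟨p, a, ha, b, hb, h0, h⟩ ⟨q, c, hc, d, hd, h0', h'⟩
        exact ⟨_, _, mul_mem_forms ha hc, _, mul_mem_forms hb hd, by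
          simp [h0, h0'], by rw [map_mul, map_mul, ← h, ← h']; ring⟩
      add_mem' := by
        rintro z w ⟨p, a, ha, b, hb, h0, h⟩ ⟨q, c, hc, d, hd, h0', h'⟩
        exact ⟨_, _, add_mem (mul_mem_forms ha hd) (mul_mem_forms hb hc), _, mul_mem_forms hb hd, by
          simp [h0, h0'], by rw [map_add, map_mul, map_mul, map_mul, ← h, ← h']; ring⟩
      algebraMap_mem' := fun c => ⟨0, C c, isWeightedHomogeneous_C _ _, 1,
        isWeightedHomogeneous_one _ _, by simp, by simp⟩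
      inv_mem' := by
        rintro z ⟨p, a, ha, b, hb, h0, h⟩
        by_cases hz : z = 0
        · exact ⟨p, 0, zero_mem _, b, hb, h0, by simp [hz]⟩
        · exact ⟨p, b, hb, a, ha, h ▸ mul_ne_zero hz h0, by rw [← h, inv_mul_cancel_left₀ hz]⟩ }
  have h3 : x ∈ L := ⟨_, _, x_mem 0, _, x_mem 1, by simp [evp], by simp [evp]⟩
  have h4 : ∀ i, y i ∈ L := fun i => ⟨_, _, y_mem i, _, y_mem j, by simp [evp, y, hy], by
    simp [evp, y, hy]⟩
  have h5 : ∀ f, (evp (⟨x, h3⟩ : L) (fun i => ⟨y i, h4 i⟩) f : L) = evp x y f := map_evp L.val _ _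
  refine ⟨L, _, _, ⟨x, h3⟩, fun i => ⟨y i, h4 i⟩, fun ha => ?_, ⟨j, Subtype.ext (div_self hy)⟩,
    fun p f hf => by rw [h2 p f hf, ← h5, ZeroMemClass.coe_eq_zero], fun z => ?_⟩
  · obtain ⟨c, hc⟩ := minpoly.mem_range_of_degree_eq_one ℂ _
      (IsAlgClosed.degree_eq_one_of_irreducible ℂ (minpoly.irreducible ha.isIntegral))
    refine h.not_lin c ((h2 _ _ (sub_mem (x_mem 0) ((x_mem 1).C_mul c))).2 ?_)
    simpa [evp, sub_eq_zero] using (congrArg Subtype.val hc).symm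
  · obtain ⟨p, a, ha, b, hb, h0, h⟩ := z.2
    exact ⟨p, a, ha, b, hb, by rwa [← h5, Ne, ZeroMemClass.coe_eq_zero] at h0,
      Subtype.ext (by simpa [h5] using h)⟩

end Pool.Agent.Lib.MP_08f962_ag
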