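import Pool.Agent.Lib.MP_08f962_ag.HF3

open MvPolynomial Filter Module

set_option linter.unusedSectionVars false
set_option linter.style.haveILetI false
set_option linter.unusedVariables false

noncomputable section

namespace Pool.Agent.Lib.MP_08f962_ag

variable {m e : ℕ} {I J P : Ideal (S 1 m)} {k : ℕ} {α β ρ : ℝ} {a : ℕ → ℕ}

/-- A monomial. -/
def mon (e u v : ℕ) (j : Fin (m + 1)) : S 1 m := X (.inl 0) ^ u * X (.inl 1) ^ v * X (.inr j) ^ e

lemma mon_forms {u v s : ℕ} (h : u + v = s) (j : Fin (m + 1)) : mon e u v j ∈ Forms 1 m (s, e) := by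
  have := mul_mem_forms (mul_mem_forms (xpow_mem (n := 1) 0 u) (xpow_mem 1 v)) (ypow_mem j e)
  rwa [Prod.mk_add_mk, Prod.mk_add_mk, h, add_zero, add_zero, zero_add] at this

lemma H.mon_mem (h : H k P α β) (he : 0 < e) {u v : ℕ} {j : Fin (m + 1)} :
    mon e u v j ∈ P ↔ X (.inr j) ∈ P := by
  haveI := h.prime
  refine ⟨fun h' => ?_, fun h' => P.mul_mem_left _ (P.pow_mem_of_mem h' e he)⟩
  rcases h.prime.mem_or_mem h' with h' | h'
  · exact ((h.prime.mem_or_mem h').elim (fun h' => h.not_x 0 (h.prime.mem_of_pow_mem _ h'))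
      fun h' => h.not_x 1 (h.prime.mem_of_pow_mem _ h')).elim
  · exact h.prime.mem_of_pow_mem _ h'

variable (m e a) in
/-- The special hypersurface. -/
def F0 : S 1 m := ∑ j : Fin (m + 1), mon e (a j) (a m - a j) j

lemma F0_mem (ha : Monotone a) : F0 m e a ∈ Forms 1 m (a m, e) :=
  sum_mem fun j _ => mon_forms (Nat.add_sub_cancel' (ha j.is_le)) j

lemma mem_of_sum {ι : Type*} [Fintype ι] {f : ι → S 1 m} (h : ∑ j, f j ∈ P) (i : ι)
    (h' : ∀ j, j ≠ i → f j ∈ P) : f i ∈ P := by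
  classical
  rw [← Finset.add_sum_erase _ _ (Finset.mem_univ i)] at h
  exact (P.add_mem_iff_left (sum_mem fun j hj => h' j (Finset.ne_of_mem_erase hj))).1 h

lemma H.dim (h : H k P α β) (he : 0 < e) (hk : k ≤ m) (hF : F0 m e a ∈ P) :
    ∃ j : Fin (m + 1), k < j ∧ X (.inr j) ∉ P := by
  by_contra! hc
  induction k generalizing P α β with
  | zero =>
    obtain ⟨j, hj⟩ := h.exists_y
    have h1 : ∀ j : Fin (m + 1), j ≠ 0 → X (.inr j) ∈ P := fun j hj => hc j (Fin.pos_iff_ne_zero.2 hj)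
    by_cases h0 : j = 0
    · exact hj (h0 ▸ (h.mon_mem he).1 (mem_of_sum hF 0 fun j hj => (h.mon_mem he).2 (h1 j hj)))
    · exact hj (h1 j h0)
  | succ k ih =>
    obtain ⟨P', α', β', h1, h2, -⟩ := (E.cut (ρ := (k + 1 + 1 : ℕ) * β / α) ⟨_, P, α, β, le_rfl,
      le_rfl, h, by rw [div_mul_cancel₀ _ h.pos.ne']; simp⟩ (y_mem ⟨k + 1, by omega⟩) one_pos).exact
    refine ih h2 (by omega) (h1 (Ideal.mem_sup_left hF)) fun j hj => h1 ?_
    rcases (Nat.succ_le_of_lt hj).eq_or_lt with h3 | h3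
    · exact Ideal.mem_sup_right (by
        rw [show j = ⟨k + 1, by omega⟩ from Fin.ext h3.symm]; exact Ideal.mem_span_singleton_self _)
    · exact Ideal.mem_sup_left (hc j h3)

lemma H.exists_rel (h : H k P α β) (he : 0 < e) (hk : k ≤ m) (ha : Monotone a)
    (hF : F0 m e a ∈ P) : ∃ J n, IsBihom J ∧ P ≤ J ∧ k ≤ n ∧ n < m ∧
      Rel J P P (a m - a (n + 1) + a n) e (a m) := by
  classical
  haveI := h.prime
  obtain ⟨i, hi, h1⟩ := (Finset.univ.filter fun j : Fin (m + 1) => X (.inr j) ∉ P).exists_max_image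
    id (by obtain ⟨j, hj⟩ := h.exists_y; exact ⟨j, by simpa⟩)
  simp only [Finset.mem_filter, Finset.mem_univ, true_and, id] at hi h1
  obtain ⟨j, h2, h3⟩ := h.dim he hk hF
  obtain ⟨n, hn⟩ : ∃ n, i.1 = n + 1 := Nat.exists_eq_succ_of_ne_zero (by have := h1 j h3; omega)
  have hm : n < m := by omega
  have h4 : a (n + 1) ≤ a m := ha hm
  let f : S 1 m := ∑ j : Fin (m + 1),
    if j.1 ≤ n then mon e (a m - a (n + 1) + a j) (a n - a j) j else 0
  let g : S 1 m := ∑ j : Fin (m + 1),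
    if j.1 ≤ n then 0 else mon e (a j - a (n + 1)) (a m - a j + a n) j
  have hf : f ∈ Forms 1 m (a m - a (n + 1) + a n, e) := sum_mem fun j _ => by
    split_ifs with h5
    · exact mon_forms (by have := ha h5; omega) j
    · exact zero_mem _
  have hg : g ∈ Forms 1 m (a m - a (n + 1) + a n, e) := sum_mem fun j _ => by
    split_ifs with h5
    · exact zero_mem _
    · exact mon_forms (by have : a (n + 1) ≤ a j := ha (not_le.1 h5); have := ha j.is_le; omega) j
  have h5 : f * X (.inl 1) ^ a m - -g * X (.inl 0) ^ a m ∈ P := by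
    convert P.mul_mem_left (X (.inl 0) ^ (a m - a (n + 1)) * X (.inl 1) ^ a n) hF using 1
    rw [neg_mul, sub_neg_eq_add, F0, Finset.mul_sum, Finset.sum_mul, Finset.sum_mul,
      ← Finset.sum_add_distrib]
    refine Finset.sum_congr rfl fun j _ => ?_
    have h6 : ∀ u v u' v' s t s' t' : ℕ, u + s = u' + s' → v + t = v' + t' →
        mon e u v j * (X (.inl 0) ^ s * X (.inl 1) ^ t) =
          X (.inl 0) ^ s' * X (.inl 1) ^ t' * mon e u' v' j := fun u v u' v' s t s' t' h h' => by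
      have h6 : (X (.inl 0) ^ (u + s) * X (.inl 1) ^ (v + t) : S 1 m) =
        X (.inl 0) ^ (u' + s') * X (.inl 1) ^ (v' + t') := by rw [h, h']
      simp only [mon, pow_add] at h6 ⊢
      linear_combination X (.inr j) ^ e * h6
    have := ha j.is_le
    split_ifs with h5
    · simpa using h6 _ _ _ _ 0 (a m) _ _ (by omega) (by have := ha h5; omega)
    · simpa using h6 _ _ _ _ (a m) 0 _ _ (by have : a (n + 1) ≤ a j := ha (not_le.1 h5); omega)
        (by omega)
  have h6 : f ∉ P := fun h6 => by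
    have h7 := (P.sub_mem_iff_right (P.mul_mem_right _ h6)).1 h5
    have h8 := mem_of_sum (P.neg_mem_iff.1 ((h.prime.mem_or_mem h7).resolve_right fun h' =>
      h.not_x 0 (h.prime.mem_of_pow_mem _ h'))) i fun j hj => by
        split_ifs with h8
        · exact zero_mem _
        · exact (h.mon_mem he).2 (of_not_not fun h9 => hj (le_antisymm (h1 j h9) (by
            rw [Fin.le_def]; omega)))
    rw [if_neg (by omega)] at h8
    exact hi ((h.mon_mem he).1 h8)
  exact ⟨_, n, (h.bihom.sup_span hf).sup_span (neg_mem hg), le_sup_left.trans le_sup_left,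
    by have := h1 j h3; omega, hm, rel_frac h.bihom (h.not_x 0) hf (neg_mem hg) h6 h5⟩

theorem mono_bound (he : 0 < e) (ha : Monotone a) (h0 : a 0 = 0)
    (hc : ∀ i j, i ≤ j → a (i + 1) + a j ≤ a (j + 1) + a i) (hk : k ≤ m) (hP : P.IsPrime)
    (hb : IsBihom P) (hF : F0 m e a ∈ P) (h : D k P α β) : a (k + 1) * α ≤ e * ((k + 1) * β) := by
  induction k generalizing P α β with
  | zero =>
    rcases h.nonneg.1.eq_or_lt with rfl | h1
    · have := h.nonneg.2
      rw [mul_zero]; positivity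
    obtain ⟨J, n, h2, -, -, h3, h4⟩ := H.exists_rel ⟨hP, hb, h, h1⟩ he hk ha hF
    have h5 := h.cut_nonneg h2 h4
    have h6 : (a 1 + a n : ℝ) ≤ a (n + 1) := by exact_mod_cast h0 ▸ hc 0 n n.zero_le
    rw [Nat.cast_add, Nat.cast_sub (ha (Nat.succ_le_of_lt h3))] at h5
    push_cast at h5 ⊢
    nlinarith
  | succ k ih =>
    rcases h.nonneg.1.eq_or_lt with rfl | h1
    · have := h.nonneg.2
      rw [mul_zero]; positivity
    obtain ⟨J, n, h2, h7, h8, h3, h4⟩ := H.exists_rel ⟨hP, hb, h, h1⟩ he hk ha hF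
    let T : AddSubmonoid (ℝ × ℝ) :=
      { carrier := {p | a (k + 1) * p.1 ≤ e * ((k + 1) * p.2)}
        zero_mem' := by simp
        add_mem' := fun {p q} hp hq => by
          simp only [Set.mem_ofPred_eq, Prod.fst_add, Prod.snd_add] at hp hq ⊢
          linarith }
    have h5 : (a (k + 1) : ℝ) * _ ≤ (e : ℝ) * (((k : ℝ) + 1) * _) := (h.cut h2 h4).decomp T h2
      fun P' α' β' h5 h6 h9 h10 => ih (by omega) h5 h6 (h9 (h7 hF)) h10
    have h6 : (a (k + 1 + 1) + a n : ℝ) ≤ a (n + 1) + a (k + 1) := by exact_mod_cast hc _ n h8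
    rw [Nat.cast_add, Nat.cast_sub (ha (Nat.succ_le_of_lt h3))] at h5
    have h9 : (0 : ℝ) < e * (k + 1) := by positivity
    refine le_of_mul_le_mul_left ?_ h9
    have := mul_le_mul_of_nonneg_left h6 (mul_pos h9 h1).le
    push_cast
    nlinarith

end Pool.Agent.Lib.MP_08f962_ag
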