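import Pool.Agent.Lib.MP_08f962_ag.HF1

open MvPolynomial Module Cardinal

set_option linter.unusedSectionVars false
set_option linter.style.haveILetI false
set_option linter.unusedVariables false

noncomputable section

namespace Pool.Agent.Lib.MP_08f962_ag

lemma exists_emb (R L : Type) [CommRing R] [IsDomain R] [Countable R] [Algebra R ℂ]
    [FaithfulSMul R ℂ] [Field L] [Algebra R L] [FaithfulSMul R L] (hL : #L ≤ #ℂ) :
    Nonempty (L →ₐ[R] ℂ) := by
  obtain ⟨s, hs⟩ := exists_isTranscendenceBasis R L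
  obtain ⟨t, ht⟩ := exists_isTranscendenceBasis R ℂ
  obtain ⟨ι⟩ : Nonempty (s ↪ t) := (Cardinal.le_def _ _).1 ((mk_set_le s).trans (hL.trans_eq
    (IsAlgClosed.cardinal_eq_cardinal_transcendence_basis_of_aleph0_lt' _ ht mk_le_aleph0
      (mk_complex ▸ aleph0_lt_continuum))))
  let g := (aeval (R := R) fun i => (ι i : ℂ)).comp hs.1.aevalEquiv.symm.toAlgHom
  letI := g.toRingHom.toAlgebra
  haveI := hs.isAlgebraic
  haveI := (faithfulSMul_iff_algebraMap_injective _ ℂ).2
    (show Function.Injective g from Function.Injective.comp (g := aeval fun i => (ι i : ℂ))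
      (ht.1.comp ι ι.injective) hs.1.aevalEquiv.symm.injective)
  haveI := IsScalarTower.of_algebraMap_eq (R := R) (A := ℂ) fun c => (g.commutes c).symm
  exact ⟨(IsAlgClosed.lift (R := Algebra.adjoin R (Set.range ((↑) : s → L)))).restrictScalars R⟩

lemma exists_place {ι : Type} [Countable ι] {a : ι → ℂ} (ha : AlgebraicIndependent ℚ a)
    (b : ι → ℂ) : ∃ (O : ValuationSubring ℂ) (ψ : O →+* ℂ),
      ∀ i, ∃ h : a i ∈ O, ψ ⟨a i, h⟩ = b i := by
  let β := (aeval (R := ℚ) b).toRingHom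
  haveI := RingHom.ker_isPrime β
  let f : Localization.AtPrime (RingHom.ker β) →+* ℂ := IsLocalization.lift
    (M := (RingHom.ker β).primeCompl) (g := (aeval (R := ℚ) a).toRingHom) fun y =>
      Ne.isUnit fun h => y.2 (by rw [ha (h.trans (map_zero _).symm)]; exact zero_mem _)
  obtain ⟨O, h, hl⟩ := IsLocalRing.exists_factor_valuationRing f
  let g := (IsLocalRing.residue O).comp ((f.codRestrict O.toSubring h).comp
    (algebraMap (MvPolynomial ι ℚ) _))
  have hg : ∀ x, g x = 0 ↔ x ∈ RingHom.ker β := fun x => by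
    rw [← IsLocalization.AtPrime.to_map_mem_maximal_iff (Localization.AtPrime (RingHom.ker β))
      (RingHom.ker β)]
    exact (IsLocalRing.residue_eq_zero_iff _).trans (not_congr (isUnit_map_iff
      (f.codRestrict O.toSubring h) _))
  letI := (Ideal.Quotient.lift _ g fun x => (hg x).2).toAlgebra
  letI := β.kerLift.toAlgebra
  haveI := (faithfulSMul_iff_algebraMap_injective _ ℂ).2 β.kerLift_injective
  haveI := (faithfulSMul_iff_algebraMap_injective _ (IsLocalRing.ResidueField O)).2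
    (RingHom.lift_injective_of_ker_le_ideal _ (fun x => (hg x).2) fun x => (hg x).1)
  haveI : Countable (MvPolynomial ι ℚ) := AddMonoidAlgebra.coeffEquiv.countable_iff.2 inferInstance
  haveI := (Ideal.Quotient.mk_surjective (I := RingHom.ker β)).countable
  obtain ⟨θ⟩ := exists_emb (MvPolynomial ι ℚ ⧸ RingHom.ker β) (IsLocalRing.ResidueField O)
    ((mk_le_of_surjective IsLocalRing.residue_surjective).trans (mk_set_le (O : Set ℂ)))
  have h1 : ∀ i, f (algebraMap (MvPolynomial ι ℚ) _ (X i)) = a i := fun i => by simp [f]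
  refine ⟨O, θ.toRingHom.comp (IsLocalRing.residue O), fun i => ⟨h1 i ▸ h _, ?_⟩⟩
  have := θ.commutes (Ideal.Quotient.mk _ (X i))
  exact (congrArg (θ <| IsLocalRing.residue O ·) (Subtype.ext (h1 i).symm)).trans
    (this.trans (aeval_X b i))

variable {σ : Type} {O : ValuationSubring ℂ} (ψ : O →+* ℂ)

/-- Reduction of a space of polynomials along a place. -/
def red (U : Submodule ℂ (MvPolynomial σ ℂ)) : Submodule ℂ (MvPolynomial σ ℂ) :=
  Submodule.span ℂ (map ψ '' {f | map O.subtype f ∈ U})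

lemma finrank_add_one {V : Type*} [AddCommGroup V] [Module ℂ V] {U : Submodule ℂ V}
    (φ : V →ₗ[ℂ] ℂ) [FiniteDimensional ℂ (U ⊓ LinearMap.ker φ : Submodule ℂ V)] {u : V}
    (hu : u ∈ U) (h : φ u = 1) : FiniteDimensional ℂ U ∧
      finrank ℂ U = finrank ℂ (U ⊓ LinearMap.ker φ : Submodule ℂ V) + 1 := by
  have h1 : U = (U ⊓ LinearMap.ker φ) ⊔ ℂ ∙ u := le_antisymm (fun v hv => by
    rw [← sub_add_cancel v (φ v • u)]
    exact Submodule.add_mem_sup ⟨sub_mem hv (U.smul_mem _ hu), by simp [h]⟩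
      (Submodule.smul_mem _ _ (Submodule.mem_span_singleton_self u)))
    (sup_le inf_le_left ((Submodule.span_singleton_le_iff_mem _ _).2 hu))
  haveI : FiniteDimensional ℂ U := by rw [h1]; infer_instance
  refine ⟨this, ?_⟩
  rw [← finrank_map_add U φ, add_comm, eq_top_iff.2 (show ⊤ ≤ U.map φ from fun c _ =>
    ⟨c • u, U.smul_mem _ hu, by simp [h]⟩)]
  simp

lemma finrank_red (U : Submodule ℂ (MvPolynomial σ ℂ)) [FiniteDimensional ℂ U] :
    FiniteDimensional ℂ (red ψ U) ∧ finrank ℂ (red ψ U) = finrank ℂ U := by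
  induction h : finrank ℂ U generalizing U with
  | zero =>
    obtain rfl := Submodule.finrank_eq_zero.1 h
    have : red ψ (⊥ : Submodule ℂ (MvPolynomial σ ℂ)) = ⊥ := Submodule.span_eq_bot.2 (by
      rintro _ ⟨f, hf, rfl⟩
      rw [map_injective _ O.subtype_injective (hf.trans (map_zero _).symm), map_zero])
    rw [this]
    exact ⟨inferInstance, finrank_bot _ _⟩
  | succ r ih =>
    obtain ⟨w, hw, h0⟩ := U.exists_mem_ne_zero_of_ne_bot fun h0 => by
      rw [h0, finrank_bot] at h; omega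
    obtain ⟨μ, hμ, h1⟩ := w.support.exists_max_image (fun μ => O.valuation (w.coeff μ))
      (support_nonempty.2 h0)
    rw [MvPolynomial.mem_support_iff] at hμ
    obtain ⟨u, hu⟩ : (w.coeff μ)⁻¹ • w ∈ Set.range (map O.subtype) :=
      mem_range_map_iff_coeffs_subset.2 fun c hc => by
        obtain ⟨ν, -, rfl⟩ := mem_coeffs_iff.1 hc
        refine ⟨⟨coeff ν ((w.coeff μ)⁻¹ • w), (O.valuation_le_one_iff _).1 ?_⟩, rfl⟩
        rw [coeff_smul, smul_eq_mul, map_mul, map_inv₀, inv_mul_le_one₀ (by simpa [pos_iff_ne_zero])]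
        by_cases h2 : ν ∈ w.support
        · exact h1 ν h2
        · simp [MvPolynomial.notMem_support_iff.1 h2]
    have h2 : map O.subtype u ∈ U := hu ▸ U.smul_mem _ hw
    have h3 : u.coeff μ = 1 := Subtype.ext (by
      simpa [coeff_map, hμ] using congrArg (coeff μ) hu)
    have h4 := (finrank_add_one (lcoeff ℂ μ) h2 (by simp [coeff_map, h3])).2
    obtain ⟨h5, h6⟩ := ih (U ⊓ LinearMap.ker (lcoeff ℂ μ)) (by omega)
    have h7 : map ψ u ∈ red ψ U := Submodule.subset_span ⟨u, h2, rfl⟩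
    have h8 : red ψ (U ⊓ LinearMap.ker (lcoeff ℂ μ)) ≤ LinearMap.ker (lcoeff ℂ μ) :=
      Submodule.span_le.2 (by
        rintro _ ⟨f, hf, rfl⟩
        have : f.coeff μ = 0 := Subtype.ext (by simpa [coeff_map] using hf.2)
        simp [coeff_map, this])
    have h9 : red ψ U ⊓ LinearMap.ker (lcoeff ℂ μ) = red ψ (U ⊓ LinearMap.ker (lcoeff ℂ μ)) := by
      refine le_antisymm (fun v hv => ?_) (le_inf (Submodule.span_mono
        (Set.image_mono fun f hf => hf.1)) h8)
      have : red ψ U ≤ (red ψ (U ⊓ LinearMap.ker (lcoeff ℂ μ))).comap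
          (LinearMap.id - (lcoeff ℂ μ).smulRight (map ψ u)) := Submodule.span_le.2 (by
        rintro _ ⟨f, hf, rfl⟩
        refine Submodule.subset_span ⟨f - C (f.coeff μ) * u, ⟨?_, ?_⟩, ?_⟩
        · rw [map_sub, map_mul, map_C, ← smul_eq_C_mul]
          exact sub_mem hf (U.smul_mem _ h2)
        · simp [coeff_map, h3]
        · simp [coeff_map, smul_eq_C_mul])
      simpa [show coeff μ v = 0 from hv.2] using this hv.1
    rw [← h9] at h5 h6
    exact h6 ▸ finrank_add_one (lcoeff ℂ μ) h7 (by simp [coeff_map, h3])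

lemma map_cp {R T M : Type*} [CommRing R] [CommRing T] [AddCommMonoid M] (w : σ → M) (p : M)
    (φ : R →+* T) (f : MvPolynomial σ R) : map φ (weightedHomogeneousComponent w p f) =
      weightedHomogeneousComponent w p (map φ f) := by
  classical
  ext μ
  simp only [coeff_map, coeff_weightedHomogeneousComponent]
  split_ifs <;> simp

variable {n m : ℕ} {P : Ideal (S n m)}

/-- Reduction of an ideal along a place. -/
def redI (P : Ideal (S n m)) : Ideal (S n m) where
  __ := (red ψ (P.restrictScalars ℂ)).toAddSubmonoid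
  smul_mem' := fun c f hf => by
    change c * f ∈ red ψ _
    induction c using MvPolynomial.induction_on generalizing f with
    | C c => exact smul_eq_C_mul f c ▸ Submodule.smul_mem _ c hf
    | add p q hp hq => exact add_mul p q f ▸ add_mem (hp f hf) (hq f hf)
    | mul_X p i hp =>
      rw [mul_assoc]
      refine hp _ ((Submodule.span_le (p := (red ψ _).comap (LinearMap.mulLeft ℂ (X i)))).2 ?_ hf)
      rintro _ ⟨g, hg, rfl⟩
      exact Submodule.subset_span ⟨X i * g, by simpa using P.mul_mem_left _ hg, by simp⟩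

lemma cp_red (hP : IsBihom P) (p : ℕ × ℕ) {f : S n m} (hf : f ∈ redI ψ P) :
    cp p f ∈ red ψ (Forms n m p ⊓ P.restrictScalars ℂ) := by
  refine (Submodule.span_le (p := (red ψ _).comap (cp p))).2 ?_ hf
  rintro _ ⟨g, hg, rfl⟩
  exact Submodule.subset_span ⟨_, by
    rw [Set.mem_ofPred_eq, map_cp]; exact ⟨cp_mem _ _, hP _ hg p⟩, map_cp _ _ _ _⟩

lemma red_le (p : ℕ × ℕ) : red ψ (Forms n m p ⊓ P.restrictScalars ℂ) ≤
    Forms n m p ⊓ (redI ψ P).restrictScalars ℂ := by
  refine Submodule.span_le.2 ?_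
  rintro _ ⟨g, hg, rfl⟩
  refine ⟨fun μ h => hg.1 fun h' => h ?_, Submodule.subset_span ⟨g, hg.2, rfl⟩⟩
  rw [coeff_map] at h' ⊢
  rw [show g.coeff μ = 0 from Subtype.ext h', map_zero]

theorem exists_spec (hP : IsBihom P) {p : ℕ × ℕ} {F F₀ : S n m} (hF : F ∈ Forms n m p)
    (hF₀ : F₀ ∈ Forms n m p) (h : F ∈ P) (ha : AlgebraicIndependent ℚ
      fun α : {α // Finsupp.weight (wt n m) α = p} => F.coeff α.1) :
    ∃ I : Ideal (S n m), IsBihom I ∧ F₀ ∈ I ∧ ∀ q, hf I q = hf P q := by
  obtain ⟨O, ψ, h1⟩ := exists_place ha fun α => F₀.coeff α.1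
  refine ⟨redI ψ P, fun f hf q => (red_le ψ q (cp_red ψ hP q hf)).2, ?_, fun q => ?_⟩
  · obtain ⟨u, rfl⟩ : F ∈ Set.range (map O.subtype) :=
      mem_range_map_iff_coeffs_subset.2 fun c hc => by
        obtain ⟨ν, h2, rfl⟩ := mem_coeffs_iff.1 hc
        exact ⟨⟨_, (h1 ⟨ν, hF (MvPolynomial.mem_support_iff.1 h2)⟩).1⟩, rfl⟩
    refine Submodule.subset_span ⟨u, h, MvPolynomial.ext _ _ fun μ => ?_⟩
    rw [coeff_map]
    by_cases h2 : Finsupp.weight (wt n m) μ = p
    · exact (congrArg ψ (Subtype.ext (coeff_map O.subtype u μ).symm)).trans (h1 ⟨μ, h2⟩).2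
    · rw [IsWeightedHomogeneous.coeff_eq_zero hF₀ _ h2, show u.coeff μ = 0 from Subtype.ext
        ((coeff_map O.subtype _ _).symm.trans (IsWeightedHomogeneous.coeff_eq_zero hF _ h2)),
        map_zero]
  · have h2 := hf_add_gd (redI ψ P) q
    have h3 := hf_add_gd P q
    rw [gd, le_antisymm (fun f hf => cp_same hf.1 ▸ cp_red ψ hP q hf.2) (red_le ψ q),
      (finrank_red ψ _).2] at h2
    exact Nat.add_right_cancel (h2.trans h3.symm)

end Pool.Agent.Lib.MP_08f962_ag
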