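import Pool.Agent.Lib.MP_08f962_ag.Ell
import Pool.Agent.Lib.MP_08f962_ag.Mono
import Pool.Agent.Lib.MP_08f962_ag.Spec

open MvPolynomial Filter Topology
open scoped Polynomial NNReal Nat

set_option linter.unusedSectionVars false
set_option linter.style.haveILetI false
set_option linter.unusedVariables false

noncomputable section

namespace Pool.Agent.Lib.MP_08f962_ag

variable {m d e k : ℕ} {P : Ideal (S 1 m)} {F : S 1 m} {α β : ℝ} {A B : ℝ[X]}

lemma exists_special (hm : m ≠ 0) (he : 0 < e) : ∃ F ∈ Forms 1 m (d, e), ∀ k P α β, k < m →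
    P.IsPrime → IsBihom P → F ∈ P → D k P α β → slope m d e (k + 1) * α ≤ (k + 1) * β := by
  have key : ∀ q r, r ≤ m → q * m + r = d → ∃ F ∈ Forms 1 m (d, e), ∀ k P α β, k < m →
      P.IsPrime → IsBihom P → F ∈ P → D k P α β →
        (q * (k + 1) + (k + 1 + r - m) : ℕ) / e * α ≤ (k + 1) * β := fun q r hr h => by
    have ha : Monotone fun i => q * i + (i + r - m) := fun i j hij =>
      add_le_add (Nat.mul_le_mul_left q hij) (by omega)
    refine ⟨_, by simpa [h] using F0_mem (m := m) (e := e) ha, fun k P α β hk h1 h2 h3 h4 => ?_⟩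
    rw [div_mul_eq_mul_div, div_le_iff₀' (by exact_mod_cast he)]
    exact mono_bound he ha (by omega) (fun i j hij => by simp only [mul_add]; omega) hk.le h1 h2 h3 h4
  unfold slope
  split_ifs with h1 h2
  · simpa [h1, mul_comm (d / m)] using key (d / m) (d % m) (Nat.mod_lt _ hm.bot_lt).le
      (Nat.div_add_mod' d m)
  · simpa using key 0 d h2 (by simp)
  · obtain ⟨F, hF, h⟩ := ell_bound hm (not_le.1 h2) (show 2 ≤ e by omega)
    refine ⟨F, hF, fun k P α β _ h1 h2 h3 h4 => ?_⟩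
    rw [Nat.cast_succ, mul_div_assoc, mul_assoc]
    exact mul_le_mul_of_nonneg_left (h k P α β h1 h2 h3 h4) (by positivity)

lemma veryGeneral {n : ℕ} (p : ℕ × ℕ) : VeryGeneral (n := n) (m := m) p fun F =>
    AlgebraicIndependent ℚ fun α : {α // Finsupp.weight (wt n m) α = p} => F.coeff α.1 := by
  classical
  let ι := {α : _ →₀ ℕ // Finsupp.weight (wt n m) α = p}
  haveI : Countable (MvPolynomial ι ℚ) := AddMonoidAlgebra.coeffEquiv.countable_iff.2 inferInstance
  have h1 : ∀ (q : MvPolynomial ι ℚ) (F : S n m), eval (fun α => F.coeff α)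
      (map (algebraMap ℚ ℂ) (rename Subtype.val q)) = aeval (fun α : ι => F.coeff α.1) q :=
    fun q F => by rw [eval_map, ← aeval_def, aeval_rename]; rfl
  refine ⟨(fun q : MvPolynomial ι ℚ => map (algebraMap ℚ ℂ) (rename Subtype.val q)) '' {q | q ≠ 0},
    (Set.to_countable _).image _, ?_, fun F _ h => algebraicIndependent_iff.2 fun q hq =>
      by_contra fun h0 => h _ ⟨q, h0, rfl⟩ ((h1 q F).trans hq)⟩
  rintro _ ⟨q, hq, rfl⟩
  obtain ⟨z, hz⟩ : ∃ z, eval z (map (algebraMap ℚ ℂ) q) ≠ 0 := not_forall.1 fun h =>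
    hq (map_injective _ (algebraMap ℚ ℂ).injective (MvPolynomial.funext fun z => by simp [h]))
  haveI : Fintype ι := (finite_wt (n := n) (m := m) p).fintype
  refine ⟨∑ α : ι, monomial α.1 (z α), sum_mem fun α _ =>
    isWeightedHomogeneous_monomial _ _ _ α.2, ?_⟩
  rw [h1, aeval_def, ← eval_map]
  convert hz with α
  rw [coeff_sum, Finset.sum_eq_single α (fun β _ h => by
    rw [coeff_monomial, if_neg (Subtype.val_injective.ne h)]) (by simp), coeff_monomial, if_pos rfl]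

/-- The Hilbert polynomial in two variables. -/
def qq (A B : ℝ[X]) : MvPolynomial (Fin 2) ℝ :=
  X 0 * Polynomial.aeval (X 1) A + Polynomial.aeval (X 1) B

lemma coeff_qq (a b : ℕ) : (qq A B).coeff (Finsupp.single 0 a + Finsupp.single 1 b) =
    if a = 1 then A.coeff b else if a = 0 then B.coeff b else 0 := by
  have h : ∀ (a : ℕ) (B : ℝ[X]), (Polynomial.aeval (X 1) B : MvPolynomial (Fin 2) ℝ).coeff
      (Finsupp.single 0 a + Finsupp.single 1 b) = if a = 0 then B.coeff b else 0 := fun a B => by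
    induction B using Polynomial.induction_on' with
    | add p q hp hq => rw [map_add, coeff_add, hp, hq, Polynomial.coeff_add]; split_ifs <;> simp
    | monomial n c =>
      rw [Polynomial.aeval_monomial, algebraMap_eq, X_pow_eq_monomial, C_mul_monomial,
        coeff_monomial, Polynomial.coeff_monomial, ← ite_and, mul_one]
      simp [Finsupp.ext_iff, eq_comm]
  rw [qq, coeff_add, h]
  rcases a with _ | a
  · simp [coeff_X_mul']
  · rw [add_comm a, Finsupp.single_add, add_assoc, coeff_X_mul, h]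
    simp

lemma eval_qq (s t : ℝ) : eval ![s, t] (qq A B) = s * A.eval t + B.eval t := by
  have h : ∀ B : ℝ[X], eval ![s, t] (Polynomial.aeval (X 1) B) = B.eval t := fun B =>
    (Polynomial.aeval_algHom_apply (aeval ![s, t]) _ B).symm.trans (by simp)
  simp [qq, h]

lemma hp_iff : HP P A B ↔
    ∀ᶠ p : ℕ × ℕ in atTop, (hf P p : ℝ) = eval ![(p.1 : ℝ), (p.2 : ℝ)] (qq A B) := by
  simp only [eval_qq, eventually_atTop]
  exact ⟨fun ⟨N, h⟩ => ⟨(N, N), fun p hp => h _ _ hp.1 hp.2⟩, fun ⟨N, h⟩ =>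
    ⟨N.1 + N.2, fun s t hs ht => h (s, t) ⟨by omega, by omega⟩⟩⟩

lemma deg_qq : (qq A B).totalDegree ≤ k + 1 ↔ A.natDegree ≤ k ∧ B.natDegree ≤ k + 1 := by
  have h : ∀ a b, a + b ≤ (qq A B).totalDegree ∨
      (qq A B).coeff (Finsupp.single 0 a + Finsupp.single 1 b) = 0 := fun a b =>
    or_iff_not_imp_right.2 fun h => by
      simpa [Finsupp.sum_fintype] using le_totalDegree (mem_support_iff.2 h)
  simp only [Polynomial.natDegree_le_iff_coeff_eq_zero]
  refine ⟨fun h' => ⟨fun b hb => by simpa [coeff_qq] using (h 1 b).resolve_left (by omega),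
    fun b hb => (coeff_qq (A := A) 0 b).symm.trans ((h 0 b).resolve_left (by omega))⟩,
    fun ⟨h1, h2⟩ => Finset.sup_le fun μ hμ => not_lt.1 fun h3 => mem_support_iff.1 hμ ?_⟩
  rw [Finsupp.sum_fintype _ _ (by simp), Fin.sum_univ_two] at h3
  rw [show μ = Finsupp.single 0 (μ 0) + Finsupp.single 1 (μ 1) by simp [Finsupp.ext_iff], coeff_qq]
  split_ifs
  exacts [h1 _ (by omega), h2 _ (by omega), rfl]

/-- The class with the given coordinates. -/
def cl (k : ℕ) (a b : ℝ) : ℕ × ℕ → ℝ := a • Pi.single (1, k) 1 + b • Pi.single (0, k + 1) 1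

lemma cl_iff {c : ℕ × ℕ → ℝ} : (∀ a b, c (a, b) = if a + b = k + 1 then (a ! * b ! : ℕ) *
    (qq A B).coeff (Finsupp.single 0 a + Finsupp.single 1 b) else 0) ↔
      c = cl k (k ! * A.coeff k) ((k + 1)! * B.coeff (k + 1)) := by
  rw [funext_iff, Prod.forall]
  refine forall₂_congr fun a b => Eq.congr_right ?_
  rw [coeff_qq]
  rcases a with _ | _ | a
  · by_cases h : b = k + 1 <;> simp [cl, h]
  · by_cases h : b = k <;> simp [cl, h, add_comm]
  · simp [cl]

lemma IsClass.ex {c : ℕ × ℕ → ℝ} (h : IsClass P (k + 1) c) (hP : IsBihom P) :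
    ∃ α β, D k P α β ∧ c = cl k (k ! * α) ((k + 1)! * β) := by
  obtain ⟨q, h1, h2, h3⟩ := h
  obtain ⟨A, B, h⟩ := exists_hp hP
  obtain ⟨N, hN⟩ := eventually_atTop.1 (h2.and (hp_iff.1 h))
  obtain rfl : q = qq A B := funext_set (fun _ => Nat.cast '' Set.Ici (N.1 + N.2))
    (fun _ => (Set.Ici_infinite _).image Nat.cast_injective.injOn) fun x hx => by
      obtain ⟨s, hs, h4⟩ := hx 0 trivial
      obtain ⟨t, ht, h5⟩ := hx 1 trivial
      obtain rfl : x = ![(s : ℝ), t] := by simp [funext_iff, h4, h5]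
      have := hN (s, t) ⟨le_self_add.trans hs, le_add_self.trans ht⟩
      exact this.1.symm.trans this.2
  exact ⟨_, _, ⟨A, B, h, (deg_qq.1 h1.le).1, (deg_qq.1 h1.le).2, rfl, rfl⟩, cl_iff.1 h3⟩

lemma D.isClass (h : D k P α β) (h0 : α ≠ 0 ∨ β ≠ 0) :
    IsClass P (k + 1) (cl k (k ! * α) ((k + 1)! * β)) := by
  obtain ⟨A, B, h, h1, h2, rfl, rfl⟩ := h
  refine ⟨qq A B, (deg_qq.2 ⟨h1, h2⟩).antisymm ?_, hp_iff.1 h, cl_iff.2 rfl⟩
  rcases h0 with h0 | h0
  · simpa [Finsupp.sum_fintype, add_comm] using le_totalDegree (mem_support_iff.2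
      ((coeff_qq (B := B) 1 k).trans_ne h0))
  · simpa [Finsupp.sum_fintype] using le_totalDegree (mem_support_iff.2
      ((coeff_qq (A := A) 0 (k + 1)).trans_ne h0))

lemma ex_point {I : Ideal (S 1 m)} (hI : IsBihom I) : HP I 0 0 ∨
    ∃ P c, I ≤ P ∧ P.IsPrime ∧ IsBihom P ∧ HP P 0 (.C c) ∧ 0 < c := by
  refine bihom_ind (Q := fun I => HP I 0 0 ∨ ∃ P c, I ≤ P ∧ P.IsPrime ∧ IsBihom P ∧
    HP P 0 (.C c) ∧ 0 < c) (.inl hp_top) (fun P hP hb ih => or_iff_not_imp_right.2 fun hc => ?_)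
    (fun I J K a q hJ hK _ _ hr h1 h2 => ?_) hI
  · obtain ⟨A, B, h⟩ := exists_hp hb
    have key : ∀ {a q f}, f ∈ Forms 1 m (a, q) → f ∉ P → Polynomial.C (a : ℝ) *
        Polynomial.taylor (-q : ℝ) A + (B - Polynomial.taylor (-q : ℝ) B) = 0 := fun hf h0 => by
      rcases ih _ (lt_sup_span h0) (hb.sup_span hf) with h1 | ⟨P', c, h1, h2⟩
      · simpa using ((h.cut (hb.sup_span hf) (rel_cut hb hf h0)).unique h1).2
      · exact (hc ⟨P', c, le_sup_left.trans h1, h2⟩).elim
    obtain rfl : A = 0 := by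
      by_cases h0 : X (.inl 0) ∈ P
      · exact h.eq_zero' h0
      · simpa using key (x_mem 0) h0
    by_cases hy : ∀ j, X (.inr j) ∈ P
    · exact hp_of_y hy
    obtain ⟨j, hj⟩ := not_forall.1 hy
    obtain ⟨c, rfl⟩ : ∃ c, Polynomial.C c = B := Polynomial.natDegree_eq_zero.1 (by_contra fun h0 => by
      obtain ⟨k, hk⟩ := Nat.exists_eq_succ_of_ne_zero h0
      have h1 := coeff_diff hk.le 1
      rw [show B - _ = 0 by simpa using key (y_mem j) hj, ← Nat.succ_eq_add_one, ← hk] at h1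
      exact absurd h1.symm (mul_ne_zero (by positivity)
        (Polynomial.leadingCoeff_ne_zero.2 fun h => h0 (by simp [h]))))
    obtain ⟨N, hN⟩ := id h
    obtain rfl : c = 0 := (not_lt.1 fun h0 => hc ⟨P, c, le_rfl, hP, hb, h, h0⟩).antisymm
      (by simpa using (Nat.cast_nonneg _).trans_eq (hN N N le_rfl le_rfl))
    simpa using h
  · rcases h1 with h1 | ⟨P, c, h1, h3⟩
    · rcases h2 with h2 | ⟨P, c, h2, h3⟩
      · exact .inl (by simpa using h1.add h2 hr)
      · exact .inr ⟨P, c, hK.trans h2, h3⟩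
    · exact .inr ⟨P, c, hJ.trans h1, h3⟩

/-- The cone cut out by the inequalities. -/
def cone (k : ℕ) (σ : ℝ) : Submodule ℝ≥0 (ℕ × ℕ → ℝ) where
  carrier := {c | (∀ a b, c (a, b) ≠ 0 → a + b = k ∧ a ≤ 1) ∧ 0 ≤ c (1, k - 1) ∧
    σ * c (1, k - 1) ≤ c (0, k)}
  add_mem' := fun {c c'} h h' => ⟨fun a b h0 => (ne_or_eq (c (a, b)) 0).elim (h.1 a b) fun h1 =>
    h'.1 a b (by simpa [h1] using h0), add_nonneg h.2.1 h'.2.1, by
      simpa [mul_add] using add_le_add h.2.2 h'.2.2⟩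
  zero_mem' := by simp
  smul_mem' := fun r c h => ⟨fun a b h0 => h.1 a b (right_ne_zero_of_mul h0), mul_nonneg r.2 h.2.1, by
    simpa [NNReal.smul_def, mul_left_comm σ] using mul_le_mul_of_nonneg_left h.2.2 r.2⟩

lemma effCone_le {σ : ℝ} (h : ∀ P c, P.IsPrime → IsBihom P → F ∈ P → IsClass P k c →
    c ∈ cone k σ) : effCone F k ⊆ cone k σ := by
  refine closure_minimal (Submodule.span_le.2 fun c ⟨P, h1, h2, h3, h4⟩ => h P c h1 h2 h3 h4) ?_
  refine IsClosed.and ?_ ((isClosed_le (by fun_prop) (by fun_prop)).and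
    (isClosed_le (by fun_prop) (by fun_prop)))
  simp only [Set.ofPred_forall (ι := ℕ)]
  exact isClosed_iInter fun a => isClosed_iInter fun b =>
    isClosed_imp (isOpen_ne_fun (by fun_prop) (by fun_prop)) isClosed_const

theorem effCone_zero (hF : F ∈ Forms 1 m (d, e)) (he : 0 < e) (hm : 0 < m) (σ : ℝ) :
    effCone F 0 = cone 0 σ := by
  refine (effCone_le fun P c _ _ _ h => ?_).antisymm fun c hc => subset_closure ?_
  · obtain ⟨q, h1, h2, h3⟩ := h
    obtain ⟨p, hp⟩ := h2.exists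
    rw [totalDegree_eq_zero_iff_eq_C.1 h1, eval_C] at hp
    refine ⟨fun a b h => ?_, by simp [h3], by simp [h3, ← hp]⟩
    rw [h3] at h
    have := (ite_ne_right_iff.1 h).1
    omega
  · obtain ⟨P, α, β, h1, h2, -⟩ := ex_slope (k := 0) hF he hm one_pos
    rcases ex_point h2.bihom with h3 | ⟨P, r, h3, h4, h5, h6, h7⟩
    · exact absurd (h2.d.unique ⟨0, 0, h3, by simp, by simp, rfl, rfl⟩).1 h2.pos.ne'
    have h8 : c (1, 0) = 0 := by_contra fun h => by simpa using hc.1 1 0 h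
    have h9 : IsClass P 0 (Pi.single (0, 0) r) := ⟨C r, totalDegree_C r,
      by simpa [qq] using hp_iff.1 h6, fun a b => by
        rw [Pi.single_apply]
        exact if_ctx_congr (by simp) (fun h => by simp [Nat.add_eq_zero_iff.1 h]) fun _ => rfl⟩
    rw [show c = (⟨c (0, 0) / r, div_nonneg (by simpa [h8] using hc.2.2) h7.le⟩ : ℝ≥0) •
      Pi.single (0, 0) r from ?_]
    · exact Submodule.smul_mem _ _ (Submodule.subset_span ⟨P, h4, h5, h3 h1, h9⟩)
    ext ⟨a, b⟩
    change _ = c (0, 0) / r * _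
    rw [Pi.single_apply]
    split_ifs with h
    · rw [h, div_mul_cancel₀ _ h7.ne']
    · rw [mul_zero]
      exact by_contra fun h' => h (by simpa using (hc.1 a b h').1)

theorem effCone_eq (hF : F ∈ Forms 1 m (d, e)) (he : 0 < e) (hk : k + 1 < m) {σ : ℝ}
    (hσ : σ = slope m d e (k + 1))
    (h : ∀ P α β, P.IsPrime → IsBihom P → F ∈ P → D k P α β → σ * α ≤ (k + 1) * β) :
    effCone F (k + 1) = cone (k + 1) σ := by
  have hk' : (0 : ℝ) < k ! := by positivity
  refine (effCone_le fun P c h1 h2 h3 h4 => ?_).antisymm fun c hc => ?_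
  · obtain ⟨α, β, h5, rfl⟩ := h4.ex h2
    refine ⟨fun a b h => by_contra fun h' => h ?_, ?_, ?_⟩
    · simp only [cl, Pi.add_apply, Pi.smul_apply, Pi.single_apply, Prod.mk.injEq]
      rw [if_neg (by omega), if_neg (by omega), smul_zero, smul_zero, add_zero]
    · simpa [cl] using mul_nonneg hk'.le h5.nonneg.1
    · simpa [cl, Nat.factorial_succ, mul_left_comm, mul_assoc] using
        mul_le_mul_of_nonneg_left (h P α β h1 h2 h3 h5) hk'.le
  · let T := Submodule.span ℝ≥0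
      {c | ∃ P : Ideal (S 1 m), P.IsPrime ∧ IsBihom P ∧ F ∈ P ∧ IsClass P (k + 1) c}
    have h0 : ∀ r : ℝ, 0 ≤ r → ∀ c ∈ T, r • c ∈ T := fun r hr c => T.smul_mem ⟨r, hr⟩
    have h1 : ∀ r : ℝ, 0 ≤ r → r • Pi.single (0, k + 1) 1 ∈ T := fun r hr => by
      obtain ⟨P, β, h1, h2, h3, h4, h5⟩ := ex_vert hF he hk
      convert h0 (r / ((k + 1)! * β)) (by positivity) _
        (Submodule.subset_span ⟨P, h2, h3, h1, h4.isClass (.inr h5.ne')⟩) using 1
      simp [cl, smul_smul, div_mul_cancel₀ r (show (k + 1)! * β ≠ 0 by positivity)]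
    refine mem_closure_of_tendsto (b := 𝓝[>] 0) (f := fun ε : ℝ => c (1, k) • (Pi.single (1, k) 1 +
      (σ + ε) • Pi.single (0, k + 1) 1) + (c (0, k + 1) - σ * c (1, k)) • Pi.single (0, k + 1) 1)
      (tendsto_nhdsWithin_of_tendsto_nhds (Continuous.tendsto' (by fun_prop) _ _ ?_))
      (eventually_mem_nhdsWithin.mono fun ε hε => T.add_mem (h0 _ hc.2.1 _ ?_)
        (h1 _ (sub_nonneg.2 hc.2.2)))
    · ext ⟨a, b⟩
      by_cases h2 : (a, b) = (1, k)
      · simp [h2]
      by_cases h3 : (a, b) = (0, k + 1)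
      · simp [h3, mul_comm]
      simpa [h2, h3] using (by_contra fun h => by
        have := hc.1 a b (Ne.symm h)
        simp only [Prod.mk.injEq] at h2 h3
        omega : 0 = c (a, b))
    obtain ⟨P, α, β, h2, h3, h4⟩ := ex_slope hF he hk.le hε
    have h5 := h3.pos
    convert T.add_mem (h0 (k ! * α)⁻¹ (by positivity) _ (Submodule.subset_span
      ⟨P, h3.prime, h3.bihom, h2, h3.d.isClass (.inl h5.ne')⟩)) (h1 (σ + ε - (k + 1) * β / α)
        (by rwa [sub_nonneg, div_le_iff₀ h5, hσ])) using 1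
    simp only [cl, smul_add, smul_smul, add_assoc, ← add_smul]
    rw [inv_mul_cancel₀ (by positivity), one_smul, Nat.factorial_succ]
    congr 2
    push_cast
    field_simp
    ring

theorem main (m d e : ℕ) (he : 1 ≤ e) : VeryGeneral (n := 1) (m := m) (d, e) fun F =>
    ∀ k < m, effCone F k = cone k (slope m d e k) := by
  obtain ⟨T, h1, h2, h3⟩ := veryGeneral (n := 1) (m := m) (d, e)
  refine ⟨T, h1, h2, fun F hF h k hm => ?_⟩
  rcases k with _ | k
  · exact effCone_zero hF he hm _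
  obtain ⟨F₀, h4, h5⟩ := exists_special (d := d) (by omega : m ≠ 0) he
  refine effCone_eq hF he hm rfl fun P α β _ hP h6 ⟨A, B, ⟨N, h7⟩, h8⟩ => ?_
  obtain ⟨I, hI, h9, h10⟩ := exists_spec hP hF h4 h6 (h3 F hF h)
  exact D.decomp
    { carrier := {p | slope m d e (k + 1) * p.1 ≤ (k + 1) * p.2}
      add_mem' := fun h h' => by simpa [mul_add] using add_le_add h h'
      zero_mem' := by simp } hI ⟨A, B, ⟨N, by simpa only [h10] using h7⟩, h8⟩
    fun P α β h1 h2 h3 => h5 k P α β (by omega) h1 h2 (h3 h9)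

end Pool.Agent.Lib.MP_08f962_ag
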