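import Pool.Agent.Lib.MP_08f962_ag.HF1

open Polynomial Filter Module

set_option linter.unusedSectionVars false
set_option linter.style.haveILetI false
set_option linter.unusedVariables false

noncomputable section

namespace Pool.Agent.Lib.MP_08f962_ag

section poly

variable {p q : ℝ[X]} {k : ℕ}

lemma ev_pos (hk : p.natDegree ≤ k) (h : 0 < p.coeff k) : ∀ᶠ t : ℕ in atTop, 0 < p.eval (t : ℝ) := by
  obtain rfl : p.natDegree = k := hk.antisymm (le_natDegree_of_ne_zero h.ne')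
  rcases Nat.eq_zero_or_pos p.natDegree with h0 | h0
  · rw [h0] at h
    rw [eq_C_of_natDegree_eq_zero h0]
    simp [h]
  · exact ((tendsto_atTop_of_leadingCoeff_nonneg p (natDegree_pos_iff_degree_pos.1 h0) h.le).comp
      tendsto_natCast_atTop_atTop).eventually_gt_atTop 0

lemma coeff_nonneg (hk : p.natDegree ≤ k) (h : ∀ᶠ t : ℕ in atTop, 0 ≤ p.eval (t : ℝ)) :
    0 ≤ p.coeff k := not_lt.1 fun h' => by
  obtain ⟨t, h1, h2⟩ := (h.and (ev_pos (p := -p) (k := k) (by simpa) (by simpa))).exists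
  rw [eval_neg] at h2
  linarith

lemma natDegree_le_of_ev (hk : q.natDegree ≤ k) (h : ∀ᶠ t : ℕ in atTop, 0 ≤ p.eval (t : ℝ))
    (h' : ∀ᶠ t : ℕ in atTop, p.eval (t : ℝ) ≤ q.eval (t : ℝ)) : p.natDegree ≤ k := not_lt.1 fun h1 => by
  have h2 := coeff_nonneg le_rfl h
  have h3 := coeff_nonneg (p := q - p) (k := p.natDegree)
    ((natDegree_sub_le _ _).trans (max_le (by omega) le_rfl)) (h'.mono fun t ht => by simpa)
  rw [coeff_sub, coeff_eq_zero_of_natDegree_lt (hk.trans_lt h1)] at h3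
  have h4 : p = 0 := leadingCoeff_eq_zero.1 (le_antisymm (by simpa using h3) h2)
  simp [h4] at h1

lemma eq_of_ev (h : ∀ᶠ t : ℕ in atTop, p.eval (t : ℝ) = q.eval (t : ℝ)) : p = q := by
  refine eq_of_infinite_eval_eq p q (Set.Infinite.mono ?_
    ((Nat.frequently_atTop_iff_infinite.1 h.frequently).image Nat.cast_injective.injOn))
  rintro _ ⟨t, ht, rfl⟩
  exact ht

lemma coeff_taylor_top (hk : p.natDegree ≤ k) (c : ℝ) : (taylor c p).coeff k = p.coeff k := by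
  rw [taylor_coeff, eval_eq_sum_range' (n := 1) ((natDegree_hasseDeriv_le _ _).trans_lt (by omega))]
  simp [hasseDeriv_coeff]

lemma natDegree_diff (hk : p.natDegree ≤ k + 1) (c : ℝ) : (p - taylor c p).natDegree ≤ k :=
  natDegree_le_iff_coeff_eq_zero.2 fun j hj => by
    rw [coeff_sub, coeff_taylor_top (hk.trans hj), sub_self]

lemma coeff_diff (hk : p.natDegree ≤ k + 1) (c : ℝ) :
    (p - taylor (-c) p).coeff k = (k + 1) * c * p.coeff (k + 1) := by
  rw [coeff_sub, taylor_coeff, eval_eq_sum_range' (n := 2)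
    ((natDegree_hasseDeriv_le _ _).trans_lt (by omega))]
  simp [hasseDeriv_coeff, Finset.sum_range_succ, add_comm 1 k]
  ring

lemma exists_sum (p : ℝ[X]) : ∃ q : ℝ[X], q - taylor (-1) q = p := by
  suffices ∀ k : ℕ, ∀ p : ℝ[X], p.degree < k → ∃ q : ℝ[X], q - taylor (-1) q = p from
    this (p.natDegree + 1) p (degree_le_natDegree.trans_lt (by exact_mod_cast Nat.lt_succ_self _))
  intro k
  induction k with
  | zero => exact fun p hp => ⟨0, by rw [show p = 0 by simpa using hp]; simp⟩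
  | succ k ih =>
    intro p hp
    let r : ℝ[X] := monomial (k + 1) (p.coeff k / (k + 1))
    have hr : r.natDegree ≤ k + 1 := natDegree_monomial_le _
    obtain ⟨q, hq⟩ := ih (p - (r - taylor (-1) r)) ((degree_lt_iff_coeff_zero _ _).2 fun j hj => by
      rcases hj.eq_or_lt with rfl | hj
      · rw [coeff_sub, coeff_diff hr, coeff_monomial_same]
        field_simp
        ring
      · rw [coeff_sub, (degree_lt_iff_coeff_zero _ _).1 hp j hj,
          coeff_eq_zero_of_natDegree_lt ((natDegree_diff hr _).trans_lt hj), sub_self])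
    exact ⟨q + r, by rw [map_add]; linear_combination hq⟩

lemma lin_nonneg {a b : ℝ} {N : ℕ} (h : ∀ s : ℕ, N ≤ s → 0 ≤ s * a + b) : 0 ≤ a := by
  have := coeff_nonneg (p := C a * X + C b) (k := 1) natDegree_linear_le
    (eventually_atTop.2 ⟨N, fun s hs => by simpa [mul_comm a] using h s hs⟩)
  simpa using this

end poly

variable {m : ℕ} {I J K P : Ideal (S 1 m)} {A B A' B' : ℝ[X]} {k : ℕ} {α β : ℝ}

/-- The Hilbert polynomial is `s A(t) + B(t)`. -/
def HP (I : Ideal (S 1 m)) (A B : ℝ[X]) : Prop :=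
  ∃ N : ℕ, ∀ s t : ℕ, N ≤ s → N ≤ t → (hf I (s, t) : ℝ) = s * A.eval (t : ℝ) + B.eval (t : ℝ)

lemma HP.unique (h : HP I A B) (h' : HP I A' B') : A = A' ∧ B = B' := by
  obtain ⟨N, h⟩ := h
  obtain ⟨N', h'⟩ := h'
  have h1 : ∀ s t : ℕ, N + N' ≤ s → N + N' ≤ t → s * A.eval (t : ℝ) + B.eval (t : ℝ) =
      s * A'.eval (t : ℝ) + B'.eval (t : ℝ) := fun s t hs ht => by
    rw [← h s t (by omega) (by omega), h' s t (by omega) (by omega)]
  obtain rfl : A = A' := eq_of_ev (eventually_atTop.2 ⟨N + N', fun t ht => by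
    have h2 := h1 (N + N') t le_rfl ht
    have h3 := h1 (N + N' + 1) t (by omega) ht
    push_cast at h2 h3
    linarith⟩)
  exact ⟨rfl, eq_of_ev (eventually_atTop.2 ⟨N + N', fun t ht => by
    linarith [h1 (N + N') t le_rfl ht]⟩)⟩

lemma HP.nonneg (h : HP I A B) : ∀ᶠ t : ℕ in atTop, 0 ≤ A.eval (t : ℝ) := by
  obtain ⟨N, h⟩ := h
  exact eventually_atTop.2 ⟨N, fun t ht => lin_nonneg fun s hs => h s t hs ht ▸ Nat.cast_nonneg _⟩

lemma HP.nonneg' (h : HP I A B) : ∀ᶠ s : ℕ in atTop, ∀ᶠ t : ℕ in atTop,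
    0 ≤ (C (s : ℝ) * A + B).eval (t : ℝ) := by
  obtain ⟨N, h⟩ := h
  exact eventually_atTop.2 ⟨N, fun s hs => eventually_atTop.2 ⟨N, fun t ht => by
    simp [← h s t hs ht]⟩⟩

lemma HP.eq_zero (h : HP I A B) {a b : ℂ} (h0 : a ≠ 0 ∨ b ≠ 0)
    (h' : MvPolynomial.C a * .X (.inl 0) + .C b * .X (.inl 1) ∈ I) : A = 0 := by
  have h1 := h.nonneg
  obtain ⟨N, h⟩ := h
  refine eq_of_ev ((h1.and (eventually_ge_atTop N)).mono fun t ht => ?_)
  have h2 : (hf I (N + 1, t) : ℝ) ≤ hf I (N, t) := Nat.cast_le.2 (hf_succ_le h0 h' N t)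
  rw [h _ _ (by omega) ht.2, h _ _ le_rfl ht.2] at h2
  push_cast at h2
  rw [eval_zero]
  linarith [ht.1]

lemma HP.eq_zero' (h : HP I A B) {i} (h' : .X (.inl i) ∈ I) : A = 0 := by
  fin_cases i
  · exact h.eq_zero (a := 1) (b := 0) (by simp) (by simpa using h')
  · exact h.eq_zero (a := 0) (b := 1) (by simp) (by simpa using h')

/-- Additivity relation between Hilbert functions. -/
def Rel (J K I : Ideal (S 1 m)) (a q b : ℕ) : Prop :=
  ∃ N, ∀ s t, N ≤ s → hf J (s + a, t + q) + hf K (s + b, t) = hf I (s + a, t + q)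

lemma HP.add {a q b : ℕ} (h : HP J A B) (h' : HP K A' B') (hr : Rel J K I a q b) :
    HP I (A + taylor (-q : ℝ) A') (B + taylor (-q : ℝ) B' + C (b - a : ℝ) * taylor (-q : ℝ) A') := by
  obtain ⟨N, h⟩ := h
  obtain ⟨N', h'⟩ := h'
  obtain ⟨N'', hr⟩ := hr
  refine ⟨N + N' + N'' + a + q, fun s t hs ht => ?_⟩
  obtain ⟨s, rfl⟩ := Nat.exists_eq_add_of_le' (show a ≤ s by omega)
  obtain ⟨t, rfl⟩ := Nat.exists_eq_add_of_le' (show q ≤ t by omega)
  rw [← hr s t (by omega), Nat.cast_add, h _ _ (by omega) (by omega), h' _ _ (by omega) (by omega)]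
  simp only [eval_add, eval_mul, eval_C, taylor_eval, Nat.cast_add, add_neg_cancel_right]
  ring

lemma rel_colon (hI : IsBihom I) {p f} (hf' : f ∈ Forms 1 m p) (h0 : f ∉ I) :
    Rel (I ⊔ Ideal.span {f}) (I.colon {f}) I p.1 p.2 0 :=
  ⟨0, fun s t _ => hf_colon hI hf' (fun h => h0 (h ▸ I.zero_mem)) (s, t)⟩

lemma rel_cut [P.IsPrime] (hP : IsBihom P) {p f} (hf' : f ∈ Forms 1 m p) (h0 : f ∉ P) :
    Rel (P ⊔ Ideal.span {f}) P P p.1 p.2 0 :=
  ⟨0, fun s t _ => hf_cut hP hf' h0 (s, t)⟩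

lemma lt_sup_span {f} (h0 : f ∉ I) : I < I ⊔ Ideal.span {f} :=
  left_lt_sup.2 fun h => h0 (h (Ideal.mem_span_singleton_self f))

lemma bihom_ind {Q : Ideal (S 1 m) → Prop} (h1 : Q ⊤) (h2 : ∀ P : Ideal (S 1 m), P.IsPrime →
    IsBihom P → (∀ J, P < J → IsBihom J → Q J) → Q P) (h3 : ∀ I J K a q, I ≤ J → I ≤ K →
      IsBihom J → IsBihom K → Rel J K I a q 0 → Q J → Q K → Q I) (hI : IsBihom I) : Q I := by
  induction I using WellFoundedGT.induction with
  | ind I ih =>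
    by_cases ht : I = ⊤
    · exact ht ▸ h1
    by_cases hp : I.IsPrime
    · exact h2 I hp hI ih
    have := mt (hI.isPrime ht) hp
    push Not at this
    obtain ⟨p, q, f, g, hf, hg, h4, h5, h6⟩ := this
    have h7 : I < I.colon {f} := SetLike.lt_iff_le_and_exists.2 ⟨fun a ha =>
      Submodule.mem_colon_singleton.2 (I.mul_mem_right _ ha), g,
      Submodule.mem_colon_singleton.2 (by rwa [smul_eq_mul, mul_comm]), h6⟩
    exact h3 I _ _ _ _ le_sup_left h7.le (hI.sup_span hf) (hI.colon hf) (rel_colon hI hf h5)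
      (ih _ (lt_sup_span h5) (hI.sup_span hf)) (ih _ h7 (hI.colon hf))

lemma hp_top : HP (⊤ : Ideal (S 1 m)) 0 0 :=
  ⟨0, fun s t _ _ => by simp [hf_eq_zero (I := (⊤ : Ideal (S 1 m))) fun _ _ => trivial]⟩

lemma hp_of_y (h : ∀ j, .X (.inr j) ∈ I) : HP I 0 0 := ⟨1, fun s t _ ht => by
  obtain ⟨t, rfl⟩ := Nat.exists_eq_add_of_le' ht
  simp [hf_eq_zero fun _ => mem_of_y h]⟩

theorem exists_hp (hI : IsBihom I) : ∃ A B, HP I A B := by
  refine bihom_ind (Q := fun I => ∃ A B, HP I A B) ⟨0, 0, hp_top⟩ (fun P hP hb ih => ?_)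
    (fun I J K a q _ _ _ _ hr ⟨_, _, h⟩ ⟨_, _, h'⟩ => ⟨_, _, h.add h' hr⟩) hI
  by_cases hy : ∀ j, .X (.inr j) ∈ P
  · exact ⟨0, 0, hp_of_y hy⟩
  by_cases hx : ∀ i, .X (.inl i) ∈ P
  · refine ⟨0, 0, 1, fun s t hs _ => ?_⟩
    obtain ⟨s, rfl⟩ := Nat.exists_eq_add_of_le' hs
    rw [hf_eq_zero fun f hf => ?_]
    · simp
    obtain ⟨u, -, v, -, rfl⟩ := gen_x (by omega) hf
    exact add_mem (P.mul_mem_left _ (by simpa using hx 0)) (P.mul_mem_left _ (by simpa using hx 1))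
  push Not at hx hy
  obtain ⟨i, hi⟩ := hx
  obtain ⟨j, hj⟩ := hy
  obtain ⟨A, B, h1⟩ := ih _ (lt_sup_span hi) (hb.sup_span (x_mem i))
  obtain ⟨A', B', N', h2⟩ := ih _ (lt_sup_span hj) (hb.sup_span (y_mem j))
  obtain rfl := h1.eq_zero' (Ideal.mem_sup_right (Ideal.mem_span_singleton_self _))
  obtain ⟨N, h1⟩ := h1
  obtain ⟨q, hq⟩ := exists_sum (C ((N + N' : ℕ) : ℝ) * A' + B')
  refine ⟨B, q + C (hf P (N + N', N + N') - q.eval ((N + N' : ℕ) : ℝ)) - C ((N + N' : ℕ) : ℝ) * B,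
    N + N', fun s t hs ht => ?_⟩
  simp only [eval_add, eval_sub, eval_mul, eval_C]
  induction s, hs using Nat.le_induction with
  | base =>
    suffices (hf P (N + N', t) : ℝ) = q.eval (t : ℝ) +
      (hf P (N + N', N + N') - q.eval ((N + N' : ℕ) : ℝ)) by linarith
    induction t, ht using Nat.le_induction with
    | base => ring
    | succ t ht ih =>
      have h3 : hf _ (N + N', t + 1) + hf P (N + N', t) = hf P (N + N', t + 1) :=
        hf_cut hb (y_mem j) hj (N + N', t)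
      have h4 := congrArg (eval ((t + 1 : ℕ) : ℝ)) hq
      rw [← h3, Nat.cast_add, h2 _ _ (by omega) (by omega), ih]
      simp only [eval_add, eval_sub, eval_mul, eval_C, taylor_eval, Nat.cast_add, Nat.cast_one,
        add_neg_cancel_right] at h4 ⊢
      linarith
  | succ s hs ih =>
    have h3 : hf _ (s + 1, t) + hf P (s, t) = hf P (s + 1, t) := hf_cut hb (x_mem i) hi (s, t)
    rw [← h3, Nat.cast_add, h1 _ _ (by omega) (by omega), ih]
    simp only [eval_zero, Nat.cast_add, Nat.cast_one]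
    ring

/-- Dimension at most `k + 1`, with leading coefficients `α`, `β`. -/
def D (k : ℕ) (I : Ideal (S 1 m)) (α β : ℝ) : Prop :=
  ∃ A B, HP I A B ∧ A.natDegree ≤ k ∧ B.natDegree ≤ k + 1 ∧ α = A.coeff k ∧ β = B.coeff (k + 1)

lemma natDegree_comb (hA : A.natDegree ≤ k) (hB : B.natDegree ≤ k) (c : ℝ) :
    (C c * A + B).natDegree ≤ k :=
  (natDegree_add_le _ _).trans (max_le ((natDegree_C_mul_le _ _).trans hA) hB)

lemma D.nonneg (h : D k I α β) : 0 ≤ α ∧ 0 ≤ β := by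
  obtain ⟨A, B, h, h1, h2, rfl, rfl⟩ := h
  obtain ⟨s, hs⟩ := h.nonneg'.exists
  have := coeff_nonneg (natDegree_comb (h1.trans k.le_succ) h2 _) hs
  rw [coeff_add, coeff_C_mul, coeff_eq_zero_of_natDegree_lt (h1.trans_lt k.lt_succ_self)] at this
  exact ⟨coeff_nonneg h1 h.nonneg, by simpa using this⟩

lemma D.unique {α' β' : ℝ} (h : D k I α β) (h' : D k I α' β') : α = α' ∧ β = β' := by
  obtain ⟨A, B, h, -, -, rfl, rfl⟩ := h
  obtain ⟨A', B', h', -, -, rfl, rfl⟩ := h'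
  obtain ⟨rfl, rfl⟩ := h.unique h'
  exact ⟨rfl, rfl⟩

lemma ev_taylor {p : ℝ[X]} (q : ℕ) (h : ∀ᶠ t : ℕ in atTop, 0 ≤ p.eval (t : ℝ)) :
    ∀ᶠ t : ℕ in atTop, 0 ≤ (taylor (-q : ℝ) p).eval (t : ℝ) := by
  obtain ⟨N, h⟩ := eventually_atTop.1 h
  refine eventually_atTop.2 ⟨N + q, fun t ht => ?_⟩
  obtain ⟨t, rfl⟩ := Nat.exists_eq_add_of_le' (show q ≤ t by omega)
  simpa [taylor_eval] using h t (by omega)

lemma D.split {a q : ℕ} (h : D k I α β) (hJ : IsBihom J) (hK : IsBihom K) (hr : Rel J K I a q 0) :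
    ∃ α₁ β₁ α₂ β₂, D k J α₁ β₁ ∧ D k K α₂ β₂ ∧ α = α₁ + α₂ ∧ β = β₁ + β₂ := by
  obtain ⟨A₁, B₁, h1⟩ := exists_hp hJ
  obtain ⟨A₂, B₂, h2⟩ := exists_hp hK
  obtain ⟨A, B, h, hA, hB, rfl, rfl⟩ := h
  obtain ⟨rfl, rfl⟩ := h.unique (h1.add h2 hr)
  have h3 := ev_taylor q h2.nonneg
  have h4 : A₁.natDegree ≤ k := natDegree_le_of_ev hA h1.nonneg (by simpa using h3)
  have h5 : A₂.natDegree ≤ k := natDegree_taylor A₂ (-q : ℝ) ▸ natDegree_le_of_ev hA h3
    (by simpa using h1.nonneg)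
  obtain ⟨s, h6, h7⟩ := (((tendsto_add_atTop_nat a).eventually h1.nonneg').and h2.nonneg').exists
  have h8 := natDegree_le_of_ev (natDegree_comb (hA.trans k.le_succ) hB ((s + a : ℕ) : ℝ)) h6
    ((ev_taylor q h7).mono fun t ht => by
      simp only [eval_add, eval_mul, eval_C, taylor_eval, Nat.cast_add, Nat.cast_zero] at ht ⊢
      linarith)
  have h9 : B₁.natDegree ≤ k + 1 := by
    have := natDegree_comb (h4.trans k.le_succ) h8 (-((s + a : ℕ) : ℝ))
    rwa [← add_assoc, ← add_mul, ← C_add, neg_add_cancel, C_0, zero_mul, zero_add] at this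
  have h10 : B₂.natDegree ≤ k + 1 := by
    have := natDegree_comb h9 (natDegree_comb ((natDegree_taylor A₂ (-q : ℝ) ▸ h5).trans k.le_succ)
      hB (-(((0 : ℕ) : ℝ) - a))) (-1)
    rw [← natDegree_taylor B₂ (-q : ℝ)]
    convert this using 2
    simp only [map_neg, map_one]
    ring
  refine ⟨_, _, _, _, ⟨A₁, B₁, h1, h4, h9, rfl, rfl⟩, ⟨A₂, B₂, h2, h5, h10, rfl, rfl⟩, ?_, ?_⟩
  · rw [coeff_add, coeff_taylor_top h5]
  · rw [coeff_add, coeff_add, coeff_taylor_top h10, coeff_C_mul,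
      coeff_taylor_top (h5.trans k.le_succ),
      coeff_eq_zero_of_natDegree_lt (h5.trans_lt k.lt_succ_self), mul_zero, add_zero]

theorem D.decomp (T : AddSubmonoid (ℝ × ℝ)) (hI : IsBihom I) (h : D k I α β)
    (hT : ∀ (P : Ideal (S 1 m)) α β, P.IsPrime → IsBihom P → I ≤ P → D k P α β → (α, β) ∈ T) :
    (α, β) ∈ T := by
  refine bihom_ind (Q := fun I => ∀ α β, D k I α β → (∀ (P : Ideal (S 1 m)) α β, P.IsPrime →
    IsBihom P → I ≤ P → D k P α β → (α, β) ∈ T) → (α, β) ∈ T) (fun α β h _ => ?_)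
    (fun P hP hb _ α β h hT => hT P α β hP hb le_rfl h)
    (fun I J K a q hJ hK hJ' hK' hr h1 h2 α β h hT => ?_) hI α β h hT
  · obtain ⟨rfl, rfl⟩ := h.unique ⟨0, 0, hp_top, by simp, by simp, rfl, rfl⟩
    exact T.zero_mem
  · obtain ⟨α₁, β₁, α₂, β₂, h3, h4, rfl, rfl⟩ := h.split hJ' hK' hr
    exact T.add_mem (h1 _ _ h3 fun P α β hP hb h => hT P α β hP hb (hJ.trans h))
      (h2 _ _ h4 fun P α β hP hb h => hT P α β hP hb (hK.trans h))

lemma HP.cut {a q b : ℕ} (h : HP P A B) (hJ : IsBihom J) (hr : Rel J P P a q b) :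
    HP J (A - taylor (-q : ℝ) A) (C (a - b : ℝ) * taylor (-q : ℝ) A + (B - taylor (-q : ℝ) B)) := by
  obtain ⟨A₁, B₁, h1⟩ := exists_hp hJ
  obtain ⟨h2, h3⟩ := h.unique (h1.add h hr)
  convert h1
  · linear_combination h2
  · rw [map_sub] at h3 ⊢
    linear_combination h3

lemma D.cut {a q b : ℕ} (h : D (k + 1) P α β) (hJ : IsBihom J) (hr : Rel J P P a q b) :
    D k J ((k + 1) * q * α) ((k + 2) * q * β + (a - b) * α) := by
  obtain ⟨A, B, h, hA, hB, rfl, rfl⟩ := h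
  refine ⟨_, _, h.cut hJ hr, natDegree_diff hA _, natDegree_comb
    ((natDegree_taylor _ _).trans_le hA) (natDegree_diff hB _) _, (coeff_diff hA _).symm, ?_⟩
  rw [coeff_add, coeff_C_mul, coeff_diff hB, coeff_taylor_top hA]
  push_cast
  ring

lemma D.cut_nonneg {a q b : ℕ} (h : D k P α β) (hJ : IsBihom J) (hr : Rel J P P a q b) :
    0 ≤ (k + 1) * q * β + (a - b) * α := by
  obtain ⟨A, B, h, hA, hB, rfl, rfl⟩ := h
  obtain ⟨s, hs⟩ := (h.cut hJ hr).nonneg'.exists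
  have := coeff_nonneg (natDegree_comb (natDegree_diff (hA.trans k.le_succ) _) (natDegree_comb
    ((natDegree_taylor _ _).trans_le hA) (natDegree_diff hB _) _) _) hs
  rw [coeff_add, coeff_C_mul, coeff_add, coeff_C_mul, coeff_diff hB, coeff_taylor_top hA, coeff_sub,
    coeff_taylor_top hA] at this
  linarith

end Pool.Agent.Lib.MP_08f962_ag
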