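import Pool.Agent.Lib.MP_08f962_ag.Ev

open MvPolynomial Module

set_option linter.unusedSectionVars false
set_option linter.style.haveILetI false
set_option linter.unusedVariables false

noncomputable section

namespace Pool.Agent.Lib.MP_08f962_ag

variable {m k q b : ℕ} {F : S 1 m} {P : Ideal (S 1 m)} {α β : ℝ}

/-- A valuative certificate of positivity. -/
def Cert (F : S 1 m) (q b : ℕ) : Prop :=
  ∀ (Ω : Type) [Field Ω] [Algebra ℂ Ω] [IsAlgClosed Ω] (x : Ω) (y : Fin (m + 1) → Ω),
    Transcendental ℂ x → evp x y F = 0 → y ≠ 0 → ∃ z : Ω, z ≠ 0 ∧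
      ∀ (L : Type) [Field L] (ι : Ω →+* L) (V : ValuationSubring L) (t : L),
        (∀ c : ℂ, ι (algebraMap ℂ Ω c) ∈ V) → (∀ j, ι (y j) * t ∈ V) →
          ι z * t ^ q ∈ V ∧ ι (z * x ^ b) * t ^ q ∈ V

section
variable {K : Type} [Field K] [Algebra ℂ K] (x : K) (y : Fin (m + 1) → K)

/-- Graded evaluation. -/
def grv : S 1 m →ₐ[ℂ] MvPolynomial (Fin 2) K :=
  aeval fun v => Sum.elim (fun _ => X 0) (fun _ => X 1) v * Sum.elim ![C x, 1] (fun j => C (y j)) v

lemma grv_forms {s t : ℕ} {f : S 1 m} (hf : f ∈ Forms 1 m (s, t)) :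
    grv x y f = monomial (Finsupp.single 0 s + Finsupp.single 1 t) (evp x y f) := by
  have := map_evp (IsScalarTower.toAlgHom ℂ K (MvPolynomial (Fin 2) K)) x y f
  rw [grv, ev_scale hf, X_pow_eq_monomial, X_pow_eq_monomial, monomial_mul]
  exact (congrArg _ this.symm).trans ((mul_comm _ _).trans (by simp [C_mul_monomial]))

lemma coeff_grv (μ : Fin 2 →₀ ℕ) (f : S 1 m) :
    (grv x y f).coeff μ = evp x y (cp (μ 0, μ 1) f) := by
  classical
  induction f using MvPolynomial.induction_on' with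
  | add f g h h' => simp only [map_add, coeff_add, h, h']
  | monomial ν c =>
    obtain ⟨⟨s, t⟩, h⟩ : ∃ p, monomial ν c ∈ Forms 1 m p :=
      ⟨_, isWeightedHomogeneous_monomial (wt 1 m) ν c rfl⟩
    rw [grv_forms x y h, coeff_monomial, weightedHomogeneousComponent_of_mem h, apply_ite (evp x y),
      map_zero (evp x y)]
    refine if_congr ⟨?_, fun h => ?_⟩ rfl rfl
    · rintro rfl; simp
    · obtain ⟨rfl, rfl⟩ := Prod.mk.inj h
      ext i; fin_cases i <;> simp

lemma almost {L : Type} [Field L] (j : MvPolynomial (Fin 2) K →+* L) (hj : Function.Injective j)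
    {i} (hi : y i = 1) {w : K} (hw : ∃ p, ∃ a ∈ Forms 1 m p, ∃ b ∈ Forms 1 m p, evp x y b ≠ 0 ∧
      w * evp x y b = evp x y a) (h : ∀ V : ValuationSubring L, (∀ f, j (grv x y f) ∈ V) →
        j (C w) * j (X 1) ^ q ∈ V) :
    ∃ c, grv x y c ≠ 0 ∧ ∀ n, ∃ f, grv x y f =
      grv x y c * monomial (Finsupp.single 1 (n * q)) (w ^ n) := by
  let A := (j.comp (grv x y).toRingHom).range
  have h1 : j (C w) * j (X 1) ^ q ∈ (integralClosure (Subring.closure (A : Set L)) L).toSubring :=
    (iInf_valuationSubring_superset (K := L)).le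
      (Subring.mem_iInf.2 fun V => h V.1 fun f => V.2 ⟨f, rfl⟩)
  rw [Subring.closure_eq] at h1
  obtain ⟨⟨s, t⟩, a, ha, b, hb, h2, h3⟩ := hw
  obtain ⟨⟨_, c, rfl⟩, h4, h5⟩ := IsIntegral.isAlmostIntegral_of_exists_smul_mem_range h1
    ⟨⟨_, b, rfl⟩, mem_nonZeroDivisors_of_ne_zero fun h => h2 (by
      simpa [grv_forms x y hb] using hj ((congrArg Subtype.val h).trans (map_zero j).symm)),
      ⟨_, a * X (.inr i) ^ q, rfl⟩, by
        change j _ = j _ * _
        rw [← map_pow, ← map_mul, ← map_mul, map_mul (grv x y).toRingHom, map_pow]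
        congr 1
        change grv x y a * grv x y _ ^ q = grv x y b * _
        rw [grv_forms x y ha, grv_forms x y hb, ← h3, ← mul_assoc, mul_comm _ (C w),
          C_mul_monomial]
        simp [grv, hi]⟩
  refine ⟨c, fun h => nonZeroDivisors.ne_zero h4 (Subtype.ext (by simp [h])), fun n => ?_⟩
  obtain ⟨⟨_, f, rfl⟩, hf⟩ := h5 n
  refine ⟨f, hj (hf.trans ?_)⟩
  change j _ * _ = _
  rw [← map_pow, ← map_mul, ← map_pow, ← map_mul, X_pow_eq_monomial, C_mul_monomial, monomial_pow]
  simp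

end

theorem Cert.le (h : Cert F q b) {p} (hF : F ∈ Forms 1 m p) (hP : H k P α β) (h' : F ∈ P) :
    b * α ≤ q * ((k + 1) * β) := by
  haveI := hP.prime
  obtain ⟨K, _, _, x, y, hx, ⟨i, hi⟩, h1, h2⟩ := hP.field
  let Ω := AlgebraicClosure K
  obtain ⟨z, hz, h3⟩ := h Ω (algebraMap K Ω x) (fun j => algebraMap K Ω (y j))
    ((transcendental_algebraMap_iff (algebraMap K Ω).injective).2 hx)
    ((map_evp (IsScalarTower.toAlgHom ℂ K Ω) x y F).symm.trans (by simp [(h1 _ _ hF).1 h']))
    fun h => by simpa [hi] using congrFun h i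
  let L := FractionRing (MvPolynomial (Fin 2) Ω)
  let ι : Ω →+* L := (algebraMap (MvPolynomial (Fin 2) Ω) L).comp C
  let j := (algebraMap (MvPolynomial (Fin 2) Ω) L).comp (map (algebraMap K Ω))
  have hj : Function.Injective j := (IsFractionRing.injective _ L).comp
    (map_injective _ (algebraMap K Ω).injective)
  have h4 : ∀ a, j (C a) = ι (algebraMap K Ω a) := fun a => by simp [j, ι]
  have hz' := Algebra.IsIntegral.isIntegral (R := K) z
  let r := ((minpoly K z).map (algebraMap K Ω)).roots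
  obtain ⟨w, hw⟩ : ∃ w, algebraMap K Ω w = r.prod := ⟨(-1) ^ (minpoly K z).natDegree *
    (minpoly K z).coeff 0, by
      rw [map_mul, ← Polynomial.coeff_map, (IsAlgClosed.splits _).coeff_zero_eq_prod_roots_of_monic
        ((minpoly.monic hz').map _), Polynomial.natDegree_map, ← mul_assoc, map_pow, map_neg,
        map_one, ← mul_pow, neg_mul_neg, one_mul, one_pow, one_mul]⟩
  have h5 : ∀ u ∈ r, ∃ g : Ω ≃ₐ[K] Ω, g z = u := fun u hu =>
    minpoly.exists_algEquiv_of_root' hz'.isAlgebraic (Polynomial.mem_aroots.1 hu).2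
  have h0 : w ≠ 0 := fun h => by
    obtain ⟨g, hg⟩ := h5 0 (Multiset.prod_eq_zero_iff.1 (by rw [← hw, h, map_zero]))
    exact hz (by simpa using hg)
  have hr : 0 < r.card := Multiset.card_pos_iff_exists_mem.2 ⟨z, Polynomial.mem_aroots.2
    ⟨minpoly.ne_zero hz', minpoly.aeval K z⟩⟩
  have h6 : ∀ V : ValuationSubring L, (∀ f, j (grv x y f) ∈ V) → ∀ u ∈ r,
      ι u * j (X 1) ^ q ∈ V ∧ ι (u * algebraMap K Ω x ^ b) * j (X 1) ^ q ∈ V := fun V hV u hu => by
    obtain ⟨g, rfl⟩ := h5 u hu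
    simpa using h3 L (ι.comp g) V (j (X 1)) (fun c => by
      simpa [IsScalarTower.algebraMap_apply ℂ K Ω, ← h4] using hV (C c)) fun l => by
        simpa [grv, ← h4, mul_comm] using hV (X (.inr l))
  obtain ⟨c, hc, h7⟩ := almost x y j hj hi (h2 w) (q := r.card * q) fun V hV => by
    have := multiset_prod_mem (S := V) (r.map fun u => ι u * j (X 1) ^ q) fun a ha => by
      obtain ⟨u, hu, rfl⟩ := Multiset.mem_map.1 ha
      exact (h6 V hV u hu).1
    simpa [h4, hw, map_multiset_prod, ← pow_mul, mul_comm q] using this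
  obtain ⟨c', hc', h8⟩ := almost x y j hj hi (h2 (w * x ^ (r.card * b))) (q := r.card * q)
    fun V hV => by
      have := multiset_prod_mem (S := V)
        (r.map fun u => ι (u * algebraMap K Ω x ^ b) * j (X 1) ^ q) fun a ha => by
          obtain ⟨u, hu, rfl⟩ := Multiset.mem_map.1 ha
          exact (h6 V hV u hu).2
      simpa [h4, hw, map_multiset_prod, ← pow_mul, mul_comm q, mul_comm b] using this
  obtain ⟨μ, hμ⟩ := exists_coeff_ne_zero (mul_ne_zero hc hc')
  have h9 : ∀ n : ℕ, 0 ≤ n * (r.card * (q * ((k + 1) * β) - b * α)) +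
      ((k + 1) * μ 1 * β + μ 0 * α) := fun n => by
    obtain ⟨f, hf⟩ := h7 n
    obtain ⟨g, hg⟩ := h8 n
    have h9 := coeff_grv x y (μ + Finsupp.single 1 (n * (r.card * q))) (f * c')
    have h10 := coeff_grv x y (μ + Finsupp.single 1 (n * (r.card * q))) (c * g)
    rw [map_mul, hf, mul_right_comm, coeff_mul_monomial] at h9
    rw [map_mul, hg, ← mul_assoc (grv x y c), coeff_mul_monomial] at h10
    rw [Finsupp.add_apply, Finsupp.add_apply, Finsupp.single_eq_same,
      Finsupp.single_eq_of_ne zero_ne_one, add_zero] at h9 h10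
    have hu := cp_mem (μ 0, μ 1 + n * (r.card * q)) (c * g)
    have hv := cp_mem (μ 0, μ 1 + n * (r.card * q)) (f * c')
    have h11 := hP.d.cut_nonneg ((hP.bihom.sup_span hu).sup_span hv)
      (rel_frac hP.bihom (hP.not_x 0) hu hv (b := n * (r.card * b))
        (fun h => by simpa [← h10, hμ, h0, show x ≠ 0 from fun h => hx (h ▸ isAlgebraic_zero)]
          using (h1 _ _ hu).1 h)
        ((h1 _ _ (sub_mem (mul_mem_forms hu (xpow_mem _ _))
          (mul_mem_forms hv (xpow_mem _ _)))).2 (by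
            rw [map_sub, map_mul (evp x y), map_mul (evp x y), ← h9, ← h10]
            simp [evp]
            ring)))
    push_cast at h11
    linarith
  have := lin_nonneg (N := 0) fun n _ => h9 n
  exact sub_nonneg.1 (nonneg_of_mul_nonneg_right this (by exact_mod_cast hr))

end Pool.Agent.Lib.MP_08f962_ag
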