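import Mathlib

open MvPolynomial Filter
open scoped NNReal Nat

noncomputable section

namespace Pool.Agent.Lib.MP_08f962_ag

/-- The bihomogeneous coordinate ring of the product of projective spaces. -/
abbrev S (n m : ℕ) : Type := MvPolynomial (Fin (n + 1) ⊕ Fin (m + 1)) ℂ

/-- Bidegrees of the variables. -/
def wt (n m : ℕ) : Fin (n + 1) ⊕ Fin (m + 1) → ℕ × ℕ := Sum.elim (fun _ => (1, 0)) fun _ => (0, 1)

/-- Bihomogeneous forms of bidegree `p`. -/
abbrev Forms (n m : ℕ) (p : ℕ × ℕ) : Submodule ℂ (S n m) :=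
  weightedHomogeneousSubmodule ℂ (wt n m) p

variable {n m : ℕ}

/-- Bihomogeneous ideals. -/
def IsBihom (I : Ideal (S n m)) : Prop :=
  ∀ f ∈ I, ∀ p, weightedHomogeneousComponent (wt n m) p f ∈ I

/-- The bigraded Hilbert function of the quotient by `I`. -/
def hf (I : Ideal (S n m)) (p : ℕ × ℕ) : ℕ :=
  Module.finrank ℂ ((Forms n m p).map (Ideal.Quotient.mkₐ ℂ I).toLinearMap)

/-- The subvariety defined by `P` has dimension `k` and its class has coefficient `c (a, b)` at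
the product of an `a`-plane and a `b`-plane, read off from the Hilbert polynomial. -/
def IsClass (P : Ideal (S n m)) (k : ℕ) (c : ℕ × ℕ → ℝ) : Prop :=
  ∃ q : MvPolynomial (Fin 2) ℝ, q.totalDegree = k ∧
    (∀ᶠ p : ℕ × ℕ in atTop, (hf P p : ℝ) = eval ![(p.1 : ℝ), (p.2 : ℝ)] q) ∧
    ∀ a b, c (a, b) = if a + b = k then
      (a ! * b ! : ℕ) * q.coeff (Finsupp.single 0 a + Finsupp.single 1 b) else 0

/-- The closed cone spanned by the classes of `k`-dimensional subvarieties of `F = 0`. -/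
def effCone (F : S n m) (k : ℕ) : Set (ℕ × ℕ → ℝ) :=
  closure (Submodule.span ℝ≥0
    {c | ∃ P : Ideal (S n m), P.IsPrime ∧ IsBihom P ∧ F ∈ P ∧ IsClass P k c})

/-- `Q` holds for the forms of bidegree `p` outside countably many proper hypersurfaces. -/
def VeryGeneral (p : ℕ × ℕ) (Q : S n m → Prop) : Prop :=
  ∃ T : Set (MvPolynomial (Fin (n + 1) ⊕ Fin (m + 1) →₀ ℕ) ℂ), T.Countable ∧
    (∀ q ∈ T, ∃ F ∈ Forms n m p, eval (fun α => F.coeff α) q ≠ 0) ∧
    ∀ F ∈ Forms n m p, (∀ q ∈ T, eval (fun α => F.coeff α) q ≠ 0) → Q F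

/-- The slope of the second extremal ray. -/
def slope (m d e k : ℕ) : ℝ :=
  if e = 1 then (k * (d / m) + (k + d % m - m) : ℕ)
  else if d ≤ m then (k + d - m : ℕ) / e else k * d / (m * e)

end Pool.Agent.Lib.MP_08f962_ag
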