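import Pool.Agent.Lib.MP_08f962_ag.Ex
import Pool.Agent.Lib.MP_eeb174_ag.Hyper

open MvPolynomial Module
open scoped Polynomial

set_option linter.unusedSectionVars false
set_option linter.style.haveILetI false
set_option linter.unusedVariables false

noncomputable section

namespace Pool.Agent.Lib.MP_08f962_ag

open MP_eeb174_ag Classical

variable {σ : Type}

/-- Exchange of variables. -/
def swp : MvPolynomial σ ℂ[X] →+* (MvPolynomial σ ℂ)[X] :=
  eval₂Hom (Polynomial.mapRingHom C) fun j => Polynomial.C (X j)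

lemma coeff_swp (G : MvPolynomial σ ℂ[X]) (a : ℕ) (μ : σ →₀ ℕ) :
    ((swp G).coeff a).coeff μ = (G.coeff μ).coeff a := by
  induction G using MvPolynomial.induction_on' with
  | add p q hp hq => simp [hp, hq]
  | monomial ν p =>
    have : (ν.prod fun j k => Polynomial.C (X j) ^ k : (MvPolynomial σ ℂ)[X]) =
        Polynomial.C (monomial ν 1) := by
      rw [monomial_eq, C_1, one_mul, Finsupp.prod, Finsupp.prod, map_prod]
      simp only [map_pow]
    rw [swp, eval₂Hom_monomial, this, Polynomial.coeff_mul_C, Polynomial.coe_mapRingHom,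
      Polynomial.coeff_map, C_mul_monomial, mul_one, coeff_monomial, coeff_monomial]
    split_ifs <;> rfl

lemma swp_ne_zero {G : MvPolynomial σ ℂ[X]} (h : G ≠ 0) : swp G ≠ 0 := fun h' =>
  h (MvPolynomial.ext _ _ fun μ => Polynomial.ext fun a => by simp [← coeff_swp, h'])

lemma swp_le {G : MvPolynomial σ ℂ[X]} {s : ℕ} :
    (swp G).natDegree ≤ s ↔ ∀ μ, (G.coeff μ).natDegree ≤ s := by
  simp only [Polynomial.natDegree_le_iff_coeff_eq_zero, MvPolynomial.ext_iff, coeff_swp, coeff_zero]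
  exact ⟨fun h μ a ha => h a ha μ, fun h a ha μ => h μ a ha⟩

lemma exists_prim {N : MvPolynomial σ (RatFunc ℂ)} {N' : MvPolynomial σ ℂ[X]} {c : RatFunc ℂ}
    {m d : ℕ} (hm : 0 < m) (h : map (algebraMap _ _) N' = C c * N ^ m) (h0 : N' ≠ 0)
    (hd : ∀ μ, (N'.coeff μ).natDegree ≤ m * d) : ∃ (G : MvPolynomial σ ℂ[X]) (r : RatFunc ℂ),
      r ≠ 0 ∧ map (algebraMap _ _) G = C r * N ∧ ∀ μ, (G.coeff μ).natDegree ≤ d := by
  have hi := map_injective (σ := σ) _ (RatFunc.algebraMap_injective ℂ)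
  obtain ⟨G, ⟨r, hr, h1⟩, h2⟩ := (measure fun G => (swp G).natDegree).wf.has_min
    {G : MvPolynomial σ ℂ[X] | ∃ r : RatFunc ℂ, r ≠ 0 ∧ map (algebraMap _ _) G = C r * N} (by
      obtain ⟨⟨b, hb⟩, h1⟩ := IsLocalization.exist_integer_multiples_of_finset
        (nonZeroDivisors ℂ[X]) N.coeffs
      obtain ⟨G, hG⟩ : C (algebraMap ℂ[X] _ b) * N ∈ Set.range (map (algebraMap ℂ[X] _)) :=
        mem_range_map_iff_coeffs_subset.2 fun a ha => by
          obtain ⟨μ, h2, rfl⟩ := mem_coeffs_iff.1 ha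
          rw [coeff_C_mul, ← Algebra.smul_def]
          exact h1 _ (coeff_mem_coeffs _ (right_ne_zero_of_mul
            (coeff_C_mul _ _ N ▸ MvPolynomial.mem_support_iff.1 h2)))
      exact ⟨G, _, RatFunc.algebraMap_ne_zero (nonZeroDivisors.ne_zero hb), hG⟩)
  have h3 : C c * N ^ m ≠ 0 := h ▸ (map_ne_zero_iff _ hi).2 h0
  have h4 : G ≠ 0 := by
    rintro rfl
    rw [map_zero, eq_comm, mul_eq_zero, C_eq_zero, or_iff_right hr] at h1
    simp [h1, hm.ne'] at h3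
  have h5 : ∀ u : ℂ[X], u ≠ 0 → ∀ v, C u * N' = C v * G ^ m → G ^ m ∣ N' := fun u => by
    induction u using UniqueFactorizationMonoid.induction_on_prime with
    | h₁ => simp
    | h₂ u hu => exact fun _ v h => (hu.map C).dvd_mul_left.1 ⟨C v, h.trans (mul_comm _ _)⟩
    | h₃ u p hu hp ih =>
      intro _ v h
      have hp' := (prime_C_iff σ).2 hp
      rw [map_mul, mul_assoc] at h
      rcases hp'.dvd_or_dvd (⟨_, h.symm⟩ : C p ∣ C v * G ^ m) with h5 | h5
      · obtain ⟨v, rfl⟩ := (C_dvd_iff_dvd_coeff _ _).1 h5 0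
          |>.trans (by simp : coeff 0 (C v : MvPolynomial σ ℂ[X]) ∣ v)
        rw [map_mul, mul_assoc] at h
        exact ih hu v (mul_left_cancel₀ hp'.ne_zero h)
      · obtain ⟨G, rfl⟩ := hp'.dvd_of_dvd_pow h5
        refine (h2 G ⟨(algebraMap _ _ p)⁻¹ * r, by simp [hr, hp.ne_zero], ?_⟩ ?_).elim
        · rw [map_mul, mul_assoc, ← h1, map_mul, map_C, ← mul_assoc, ← map_mul,
            inv_mul_cancel₀ (RatFunc.algebraMap_ne_zero hp.ne_zero), map_one, one_mul]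
        · change (swp G).natDegree < (swp _).natDegree
          rw [map_mul, Polynomial.natDegree_mul (swp_ne_zero hp'.ne_zero)
            (swp_ne_zero (right_ne_zero_of_mul h4)), swp, eval₂Hom_C, Polynomial.coe_mapRingHom,
            Polynomial.natDegree_map_eq_of_injective (C_injective _ _)]
          exact lt_add_of_pos_left _ hp.irreducible.natDegree_pos
  obtain ⟨q, rfl⟩ := h5 (c / r ^ m).denom (RatFunc.denom_ne_zero _) (c / r ^ m).num (hi (by
    rw [map_mul, map_mul, map_pow, h, h1, map_C, map_C, mul_pow, ← map_pow, ← mul_assoc,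
      ← mul_assoc, ← map_mul, ← map_mul, (div_eq_div_iff (RatFunc.algebraMap_ne_zero
        (RatFunc.denom_ne_zero _)) (pow_ne_zero m hr)).1 (RatFunc.num_div_denom _), mul_comm c]))
  refine ⟨G, r, hr, h1, swp_le.1 (Nat.le_of_mul_le_mul_left ?_ hm)⟩
  have h6 := swp_le.2 hd
  rw [map_mul, map_pow, Polynomial.natDegree_mul (pow_ne_zero _ (swp_ne_zero h4))
    (swp_ne_zero (right_ne_zero_of_mul h0)), Polynomial.natDegree_pow] at h6
  omega

/-- An algebraic closure of the field of rational functions. -/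
abbrev Rb : Type := AlgebraicClosure (RatFunc ℂ)

lemma exists_descent (E : Type) [Field E] [Algebra (RatFunc ℂ) E] [FiniteDimensional (RatFunc ℂ) E]
    (L : MvPolynomial σ E) : ∃ N : MvPolynomial σ (RatFunc ℂ),
      map (algebraMap _ Rb) N = ∏ ρ : E →ₐ[RatFunc ℂ] Rb, map (ρ : E →+* Rb) L :=
  mem_range_map_iff_coeffs_subset.2 fun c hc => by
    obtain ⟨μ, -, rfl⟩ := mem_coeffs_iff.1 hc
    refine (InfiniteGalois.mem_range_algebraMap_iff_fixed _).2 fun g => ?_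
    refine (coeff_map (g : Rb →+* Rb) _ μ).symm.trans (congrArg _ ?_)
    rw [map_prod]
    exact Fintype.prod_equiv (AlgEquiv.arrowCongr AlgEquiv.refl g) _ _ fun ρ => map_map _ _ _

lemma mem_Pk_of {r : RatFunc ℂ} {n : ℕ} (h : ∀ V : ValuationSubring Rb,
    (∀ c : ℂ, algebraMap _ Rb c ∈ V) → (uu Rb ∈ V → algebraMap _ Rb r ∈ V) ∧
      (uu Rb ∉ V → algebraMap _ Rb (RatFunc.X ^ (-n : ℤ) * r) ∈ V)) : r ∈ Pk n := by
  have h1 : ∀ x : Place (RatFunc ℂ), ∃ V : ValuationSubring Rb,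
      ∀ r, algebraMap _ Rb r ∈ V ↔ r ∈ x.O := fun x => by
    obtain ⟨V, h1, h2⟩ := IsLocalRing.exists_factor_valuationRing
      ((algebraMap _ Rb).comp x.O.subtype)
    refine ⟨V, fun r => ⟨fun hr => by_contra fun h3 => ?_, fun hr => h1 ⟨r, hr⟩⟩⟩
    have h4 := (x.O.mem_or_inv_mem r).resolve_left h3
    have h5 : r ≠ 0 := fun h => h3 (h ▸ zero_mem _)
    obtain ⟨s, hs⟩ := (h2.1 ⟨_, h4⟩ (IsUnit.of_mul_eq_one ⟨_, hr⟩ (Subtype.ext (by
      simp [h5])))).exists_right_inv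
    exact h3 (((inv_mul_eq_one₀ h5).1 (congrArg Subtype.val hs)).symm ▸ s.2)
  obtain ⟨y, hy⟩ := (good_Ui (K := RatFunc ℂ)).ne
  obtain ⟨V, hV⟩ := h1 y
  refine ⟨mem_A0_of_mem (K := RatFunc ℂ) fun x hx => ?_, by
    simpa using vI_mul_zpow_le.1 (vI_le_of_mem hy ((hV _).1 ((h V fun c => (hV _).2 (y.const c)).2
      (mt (hV _).1 hy))))⟩
  obtain ⟨V, hV⟩ := h1 x
  exact (hV _).1 ((h V fun c => (hV _).2 (x.const c)).1 ((hV _).2 hx))

theorem exists_norm {K : Type} [Field K] [Algebra ℂ K] [Algebra (RatFunc ℂ) K]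
    [IsScalarTower ℂ (RatFunc ℂ) K] [FiniteDimensional (RatFunc ℂ) K] {m d e n : ℕ} (hm : 0 < m)
    (he : 0 < e) (τ : K ≃ₐ[RatFunc ℂ] K) (hτ : orderOf τ = m) (hK : finrank (RatFunc ℂ) K = e * m)
    {w : Fin (n + 1) → K} {j₀} (h0 : w j₀ ≠ 0) (h1 : ∀ j, τ (w j / w j₀) = w j / w j₀)
    (h2 : ∀ j (P : Place K), (uu K ∈ P.O → w j ∈ P.O) ∧ (uu K ∉ P.O → w j ^ e / uu K ^ d ∈ P.O)) :
    ∃ F ∈ Forms 1 n (d, e), ∀ (Ω : Type) [Field Ω] [Algebra ℂ Ω] [IsAlgClosed Ω] (x : Ω)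
      (y : Fin (n + 1) → Ω), Transcendental ℂ x → evp x y F = 0 → ∃ ρ : K →+* Ω,
        (∀ c, ρ (algebraMap ℂ K c) = algebraMap ℂ Ω c) ∧ ρ (uu K) = x ∧
          ∑ j, ρ (w j) * y j = 0 := by
  let E := IntermediateField.fixedField (Subgroup.zpowers τ)
  have h3 : finrank E K = m := by
    rw [IntermediateField.finrank_fixedField_eq_card, Nat.card_zpowers, hτ]
  have h4 : finrank (RatFunc ℂ) E = e :=
    Nat.eq_of_mul_eq_mul_right hm (by rw [← hK, ← finrank_mul_finrank _ E K, h3])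
  let w' : Fin (n + 1) → E := fun j => ⟨w j / w j₀, (IntermediateField.mem_fixedField_iff _ _).2
    fun g hg => (Subgroup.zpowers_le (H := MulAction.stabilizer _ (w j / w j₀))).2 (h1 j) hg⟩
  obtain ⟨N, hN⟩ := exists_descent E (∑ j, C (w' j) * X j)
  obtain ⟨N', hN'⟩ := exists_descent K (∑ j, C (w j) * X j)
  have hi := map_injective (σ := Fin (n + 1)) _ (algebraMap (RatFunc ℂ) Rb).injective
  have h5 : N' = C (Algebra.norm _ (w j₀)) * N ^ m := hi (by
    rw [map_mul, map_pow, map_C, hN, hN', Algebra.norm_eq_prod_embeddings, map_prod,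
      ← Finset.prod_pow, show ∏ ρ : E →ₐ[RatFunc ℂ] Rb, map (ρ : E →+* Rb) _ ^ m =
        ∏ ρ : K →ₐ[RatFunc ℂ] Rb, map (ρ.comp E.val : E →+* Rb) (∑ j, C (w' j) * X j) from ?_,
      ← Finset.prod_mul_distrib]
    · refine Finset.prod_congr rfl fun ρ _ => ?_
      rw [map_sum, map_sum, Finset.mul_sum]
      refine Finset.sum_congr rfl fun j _ => ?_
      rw [map_mul, map_mul, map_C, map_C, map_X, map_X, ← mul_assoc, ← map_mul]
      congr 2
      change ρ (w j) = ρ (w j₀) * ρ (w j / w j₀)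
      rw [← map_mul, mul_div_cancel₀ _ h0]
    · rw [Fintype.prod_equiv (algHomEquivSigma (B := E)) (fun ρ : K →ₐ[RatFunc ℂ] Rb =>
        map (ρ.comp E.val : E →+* Rb) (∑ j, C (w' j) * X j))
        (fun ρ => map (ρ.1 : E →+* Rb) (∑ j, C (w' j) * X j)) fun _ => rfl,
        ← Finset.univ_sigma_univ, Finset.prod_sigma]
      refine Finset.prod_congr rfl fun ρ _ => ?_
      letI : Algebra E Rb := ρ.toRingHom.toAlgebra
      simp_rw [Finset.prod_const]
      rw [← h3]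
      congr
      exact (AlgHom.card E K Rb).symm)
  have h6 : ∀ (V : ValuationSubring Rb) (t : Rb), (∀ (ρ : K →ₐ[RatFunc ℂ] Rb) j, t * ρ (w j) ∈ V) →
      ∀ μ, t ^ (e * m) * algebraMap _ Rb (N'.coeff μ) ∈ V := fun V t h μ => by
    obtain ⟨G, hG⟩ := prod_mem (S := (map V.subtype).range) (t := Finset.univ)
      (f := fun ρ : K →ₐ[RatFunc ℂ] Rb => C t * map (ρ : K →+* Rb) (∑ j, C (w j) * X j))
      fun ρ _ => RingHom.mem_range.2 ⟨∑ j, C ⟨_, h ρ j⟩ * X j, by simp [Finset.mul_sum, mul_assoc]⟩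
    rw [Finset.prod_mul_distrib, ← hN', Finset.prod_const, Finset.card_univ, AlgHom.card, hK,
      ← map_pow] at hG
    rw [← coeff_map, ← coeff_C_mul, ← hG, coeff_map]
    exact Subtype.prop _
  have h7 : ∀ μ, N'.coeff μ ∈ Pk (m * d : ℕ) := fun μ => mem_Pk_of fun V hV => by
    have h7 : ∀ (ρ : K →ₐ[RatFunc ℂ] Rb) j, (uu Rb ∈ V → ρ (w j) ∈ V) ∧
        (uu Rb ∉ V → ρ (w j) ^ e / uu Rb ^ d ∈ V) := fun ρ j => by
      rw [show uu Rb = ρ (uu K) from (ρ.commutes _).symm, ← map_pow, ← map_pow, ← map_div₀]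
      by_cases h : V.comap (ρ : K →+* Rb) = ⊤
      · exact ⟨fun _ => h.ge (ValuationSubring.mem_top _), fun _ =>
          h.ge (ValuationSubring.mem_top _)⟩
      · exact h2 j ⟨_, h, fun c => show ρ _ ∈ V from
          ((ρ.restrictScalars ℂ).commutes c).symm ▸ hV c⟩
    refine ⟨fun h => by simpa using h6 V 1 (fun ρ j => by simpa using (h7 ρ j).1 h) μ, fun h => ?_⟩
    obtain ⟨t, ht⟩ := IsAlgClosed.exists_pow_nat_eq (uu Rb ^ d)⁻¹ he
    convert h6 V t (fun ρ j => ?_) μ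
    · rw [pow_mul, ht, zpow_neg, zpow_natCast, map_mul, map_inv₀, map_pow, inv_pow, ← pow_mul,
        mul_comm d]
      rfl
    · rw [← V.valuation_le_one_iff, ← pow_le_one_iff he.ne', ← map_pow, V.valuation_le_one_iff,
        mul_pow, ht, ← div_eq_inv_mul]
      exact (h7 ρ j).2 h
  obtain ⟨N'', rfl⟩ : N' ∈ Set.range (map (algebraMap ℂ[X] _)) :=
    mem_range_map_iff_coeffs_subset.2 fun c hc => by
      obtain ⟨μ, -, rfl⟩ := mem_coeffs_iff.1 hc
      exact (h7 μ).1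
  obtain ⟨G, r, hr, h8, h9⟩ := exists_prim (d := d) hm h5 (by
    rintro rfl
    obtain ⟨ρ, -, h⟩ := Finset.prod_eq_zero_iff.1 (hN'.symm.trans (by simp))
    simpa [coeff_sum, coeff_X, Finsupp.single_left_inj, h0] using
      congrArg (coeff (Finsupp.single j₀ 1)) h) fun μ => by
    obtain ⟨p, hp, h⟩ := poly_Pk.1 (h7 μ)
    rwa [← RatFunc.algebraMap_injective ℂ (h.trans (coeff_map _ _ _))]
  obtain ⟨F, hF, rfl⟩ := exists_lift (t := e) (IsHomogeneous.of_map (RatFunc.algebraMap_injective ℂ)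
    (h8 ▸ (IsHomogeneous.of_map (algebraMap (RatFunc ℂ) Rb).injective (by
      rw [hN]
      convert IsHomogeneous.prod Finset.univ
        (fun ρ : E →ₐ[RatFunc ℂ] Rb => map (ρ : E →+* Rb) (∑ j, C (w' j) * X j)) (fun _ => 1)
        fun ρ _ => IsHomogeneous.map
          (IsHomogeneous.sum _ _ _ fun j _ => isHomogeneous_C_mul_X _ _) _
      simp [AlgHom.card, h4])).C_mul r)) h9
  refine ⟨F, hF, fun Ω _ _ _ x y hx h => ?_⟩
  obtain ⟨θ, hθ⟩ := exists_theta hx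
  letI := θ.toRingHom.toAlgebra
  let ι : Rb →ₐ[RatFunc ℂ] Ω := IsAlgClosed.lift
  have h10 : ∀ G, eval₂Hom (ι : Rb →+* Ω) y (map (algebraMap _ Rb) G) =
      eval₂Hom (θ : RatFunc ℂ →+* Ω) y G :=
    fun G => by rw [eval₂Hom_map_hom, ι.comp_algebraMap]; rfl
  have h11 : eval₂Hom (θ : RatFunc ℂ →+* Ω) y N = 0 := by
    have := congrArg (eval₂Hom (θ : RatFunc ℂ →+* Ω) y) h8
    rw [eval₂Hom_map_hom, show (θ : RatFunc ℂ →+* Ω).comp _ =
      (Polynomial.aeval x : ℂ[X] →ₐ[ℂ] Ω) from RingHom.ext hθ, map_mul, eval₂Hom_C] at this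
    exact (mul_eq_zero.1 (this.symm.trans ((evp_deh x y F).symm.trans h))).resolve_left (by simpa)
  have h12 := h10 (map (algebraMap ℂ[X] _) N'')
  rw [hN', h5, map_mul, map_pow, h11, zero_pow hm.ne', mul_zero, map_prod] at h12
  obtain ⟨ρ, -, h13⟩ := Finset.prod_eq_zero_iff.1 h12
  refine ⟨(ι.comp ρ : K →+* Ω), fun c => ?_, ((ι.comp ρ).commutes _).trans
    ((hθ .X).trans (Polynomial.aeval_X x)),
    by simpa using h13⟩
  rw [IsScalarTower.algebraMap_apply ℂ (RatFunc ℂ) K]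
  exact ((ι.comp ρ).commutes _).trans (θ.commutes c)

end Pool.Agent.Lib.MP_08f962_ag
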