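import Pool.Agent.Lib.MP_08f962_ag.Syz

open Filter Module Set
open scoped Polynomial

set_option linter.unusedSectionVars false
set_option linter.style.haveILetI false
set_option linter.unusedVariables false

noncomputable section

namespace Pool.Agent.Lib.MP_08f962_ag

open MP_eeb174_ag

variable {m d e k : ℕ} {I : Ideal (S 1 m)} {ρ ρ' : ℝ} {F : S 1 m}

lemma E.le (h : E k I ρ) (h' : ρ ≤ ρ') : E k I ρ' := by
  obtain ⟨j, P, α, β, h1, h2, h3, h4⟩ := h
  exact ⟨j, P, α, β, h1, h2, h3, h4.trans (mul_le_mul_of_nonneg_right h' h3.pos.le)⟩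

lemma E.cut_fin {r : ℕ} {f : Fin r → S 1 m} {c : Fin r → ℕ} (hf : ∀ l, f l ∈ Forms 1 m (c l, 1))
    (h : E (k + r) I ρ) : ∃ J, (∀ l, f l ∈ J) ∧ I ≤ J ∧ E k J (ρ + (∑ l, c l : ℕ)) := by
  induction r generalizing I ρ with
  | zero => exact ⟨I, fun l => l.elim0, le_rfl, by simpa using h⟩
  | succ r ih =>
    obtain ⟨J, h1, h2, h3⟩ := ih (fun l => hf l.succ) (E.cut (k := k + r) h (hf 0) one_pos)
    exact ⟨J, Fin.cases (h2 (Ideal.mem_sup_right (Ideal.mem_span_singleton_self _))) h1,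
      le_sup_left.trans h2, h3.le (by simp [Fin.sum_univ_succ, add_assoc])⟩

lemma exists_theta {L : Type} [Field L] [Algebra ℂ L] {x : L} (hx : Transcendental ℂ x) :
    ∃ θ : RatFunc ℂ →ₐ[ℂ] L, ∀ p, θ (algebraMap ℂ[X] _ p) = Polynomial.aeval x p :=
  ⟨IsFractionRing.liftAlgHom (transcendental_iff_injective.1 hx), fun p => by simp⟩

lemma poly_Pk {c : ℕ} {f : RatFunc ℂ} :
    f ∈ Pk c ↔ ∃ p : ℂ[X], p.natDegree ≤ c ∧ algebraMap _ _ p = f := by
  refine ⟨fun ⟨⟨p, hp⟩, h⟩ => ⟨p, ?_, hp⟩, ?_⟩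
  · by_cases h0 : p = 0
    · simp [h0]
    · exact_mod_cast WithZero.exp_le_exp.1 ((vI_poly h0).ge.trans (hp ▸ h :))
  · rintro ⟨p, hp, rfl⟩
    refine ⟨⟨p, rfl⟩, ?_⟩
    by_cases h0 : p = 0
    · simp [h0]
    · rwa [vI_poly h0, WithZero.exp_le_exp, Nat.cast_le]

lemma ex_one (hF : F ∈ Forms 1 m (d, 1)) (hk : k + 1 ≤ m) :
    E k (Ideal.span {F}) ((k + 1) * (d / m) + (k + 1 + d % m - m) : ℕ) := by
  obtain ⟨u, hu, h1⟩ := exists_vec hF
  have h2 : ∀ {L : Type} [Field L] [Algebra ℂ L] (x : L) (y : Fin (m + 1) → L) {F}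
      {u : Fin (m + 1) → ℂ[X]},      deh F = ∑ j, .C (u j) * .X j → evp x y F = ∑ j, Polynomial.aeval x (u j) * y j :=
    fun x y F u h => by simp [evp_deh, h]
  by_cases h0 : u = 0
  · obtain ⟨L, _, _, x, y, -, -, h3, -⟩ := (h_bot (m := m)).field
    exact (e_bot.mono (by omega) ((Ideal.span_singleton_le_iff_mem _).2
      ((h3 _ _ hF).2 (by simp [h2 x y h1, h0])))).le (Nat.cast_nonneg _)
  obtain ⟨r, w, c, hr, hw, h3, h4, h5⟩ := exists_dual
    (fun (_ : Unit) j => algebraMap ℂ[X] (RatFunc ℂ) (u j)) (linearIndependent_unique_iff.2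
      fun h => h0 (funext fun j => by simpa using congrFun h j)) (fun _ => d)
    fun _ j => poly_Pk.2 ⟨_, hu j, rfl⟩
  obtain rfl : r = m := by simpa using hr
  obtain ⟨T, h6, h7⟩ := exists_small (q := d / r) (r := d % r) c
    (h4.trans_eq (by simp [Nat.div_add_mod])) hk
  obtain ⟨s, w', c', hs, -, h8, h9, h10⟩ := exists_dual (fun i : T => w i)
    (hw.comp _ Subtype.val_injective) (fun i => c i) fun i => h3 i
  choose p hp hp' using fun l j => poly_Pk.1 (h8 l j)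
  choose f hf hf' using fun l => exists_lin (p l) (hp l)
  rw [Fintype.card_coe] at hs
  obtain ⟨J, h11, -, j, P, α, β, h12, h13, h14, h15⟩ := E.cut_fin (k := k) hf
    (e_bot.mono (by omega) le_rfl)
  obtain ⟨L, _, _, x, y, hx, -, h16, -⟩ := h14.field
  obtain ⟨θ, hθ⟩ := exists_theta hx
  obtain ⟨a, ha⟩ := (Submodule.mem_span_range_iff_exists_fun _).1 ((h10 _).2 fun i =>
    (dotProduct_comm _ _).trans ((h5 _).1 (Submodule.subset_span ⟨i.1, rfl⟩) ()))
  refine E.le ⟨j, P, α, β, h12, (Ideal.span_singleton_le_iff_mem _).2 ((h16 _ _ hF).2 ?_), h14,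
    h15⟩ (by
      rw [zero_add, Nat.cast_le]
      exact h9.trans ((Finset.sum_coe_sort T c).trans_le h7))
  have h17 : ∀ l, ∑ j, θ (w' l j) * y j = 0 := fun l => by
    simpa only [h2 x y (hf' l), ← hθ, hp'] using (h16 _ _ (hf l)).1 (h13 (h11 l))
  simp only [h2 x y h1, ← hθ, ← congrFun ha, Finset.sum_apply, Pi.smul_apply, smul_eq_mul, map_sum,
    map_mul, Finset.sum_mul, mul_assoc]
  rw [Finset.sum_comm]
  simp [← Finset.mul_sum, h17]

lemma ex_small (hF : F ∈ Forms 1 m (d, e)) (he : 0 < e) (hk : k + 1 ≤ m) :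
    E k (Ideal.span {F}) ((k + 1 + d - m : ℕ) / e) := by
  have := E.cut_many (k := m - 1 - min d (m - (k + 1))) (r := min d (m - (k + 1)))
    (j := k + 1 + d - m) (e_bot.mono (by omega) le_rfl) (F := F) (by convert hF; omega) he
  exact (this.mono (by omega) le_sup_right).le (by simp)

theorem ex_slope (hF : F ∈ Forms 1 m (d, e)) (he : 0 < e) (hk : k + 1 ≤ m) {ε : ℝ} (hε : 0 < ε) :
    ∃ P α β, F ∈ P ∧ H k P α β ∧ (k + 1) * β ≤ (slope m d e (k + 1) + ε) * α := by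
  have key : ∀ {ρ}, E k (Ideal.span {F}) ρ → ∃ P α β, F ∈ P ∧ H k P α β ∧
      (k + 1) * β ≤ (ρ + ε) * α := fun h => by
    obtain ⟨P, α, β, h1, h2⟩ := (h.le (le_add_of_nonneg_right hε.le)).exact
    exact ⟨P, α, β, h1 (Ideal.mem_span_singleton_self F), h2⟩
  unfold slope
  split_ifs with h1 h2
  · subst h1
    exact key (ex_one hF hk)
  · exact key (ex_small hF he hk)
  obtain ⟨m, rfl⟩ := Nat.exists_eq_add_of_le' (show 1 ≤ m by omega)
  obtain ⟨P, α, β, h3, h4, h5⟩ := (e_bot.cut hF he).exact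
  have hk' : (0 : ℝ) < k + 1 := by positivity
  obtain ⟨P', α', β', h6, h7, h8⟩ := h4.down' (σ := d / ((m + 1) * e)) (j := k) (by
    rw [div_mul_eq_mul_div, le_div_iff₀ (by positivity)]
    rw [zero_add, div_mul_eq_mul_div, le_div_iff₀ (by positivity)] at h5
    linarith) (div_pos hε hk') (by omega)
  refine ⟨P', α', β', h6 (h3 (Ideal.mem_sup_right (Ideal.mem_span_singleton_self F))), h7,
    (mul_le_mul_of_nonneg_left h8 hk'.le).trans_eq ?_⟩
  push_cast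
  field_simp

theorem ex_vert (hF : F ∈ Forms 1 m (d, e)) (he : 0 < e) (hk : k + 1 < m) :
    ∃ (P : Ideal (S 1 m)) (β : ℝ), F ∈ P ∧ P.IsPrime ∧ IsBihom P ∧ D k P 0 β ∧ 0 < β := by
  obtain ⟨P, α, β, h1, h2, -⟩ := ex_slope (k := k + 1) hF he hk one_pos
  obtain ⟨P', β', h3, h4⟩ := h2.vertical
  exact ⟨P', β', h3 h1, h4⟩

end Pool.Agent.Lib.MP_08f962_ag
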