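import Pool.Agent.Lib.MP_08f962_ag.Tors
import Pool.Agent.Lib.MP_08f962_ag.Ex
import Pool.Agent.Lib.MP_eeb174_ag.GV
import Pool.Agent.Lib.MP_eeb174_ag.Hyper

open WeierstrassCurve WeierstrassCurve.Affine WithZero
open scoped Polynomial

set_option linter.unusedSectionVars false
set_option linter.style.haveILetI false
set_option linter.unusedVariables false

noncomputable section

namespace Pool.Agent.Lib.MP_08f962_ag

open MP_eeb174_ag Classical

lemma exists_field {A B : ℂ} (h : ∀ r : ℂ, r ^ 3 + A * r + B = 0 → 3 * r ^ 2 + A ≠ 0) :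
    ∃ (K : Type) (_ : Field K) (_ : Algebra ℂ K) (_ : Algebra (RatFunc ℂ) K)
      (_ : IsScalarTower ℂ (RatFunc ℂ) K) (_ : FiniteDimensional (RatFunc ℂ) K) (x y : K),
      gen K = 1 ∧ Transcendental ℂ x ∧ y ^ 2 = x ^ 3 + algebraMap ℂ K A * x + algebraMap ℂ K B ∧
      (∀ σ τ : K →ₐ[ℂ] K, σ x = τ x → σ y = τ y → σ = τ) ∧
      ∀ u v : K, Transcendental ℂ u → v ^ 2 = u ^ 3 + algebraMap ℂ K A * u + algebraMap ℂ K B →
        ∃ τ : K →ₐ[ℂ] K, τ x = u ∧ τ y = v := by
  let p : ℂ[X] := .X ^ 3 + .C A * .X + .C B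
  have hd : p.natDegree = 2 * 1 + 1 := by simp only [p]; compute_degree!
  have hp : Squarefree p := Polynomial.Separable.squarefree
    ((Polynomial.isCoprime_iff_aeval_ne_zero_of_isAlgClosed (k := ℂ) ℂ _ _).2 fun r => by
      simpa [p, show (2 + 1 : ℂ) = 3 by norm_num] using imp_iff_not_or.1 (h r))
  let r := algebraMap ℂ[X] (RatFunc ℂ) p
  haveI : Fact (∀ b : RatFunc ℂ, b ^ 2 ≠ r + 0 * b) := ⟨fun b h => by
    have h1 := congrArg vI h
    rw [zero_mul, add_zero, map_pow, vI_poly hp.ne_zero, hd] at h1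
    have hb : vI b ≠ 0 := fun h0 => by simpa [h0] using h1.symm
    rw [← exp_log hb, sq, ← exp_add, exp_inj] at h1
    omega⟩
  let K := QuadraticAlgebra (RatFunc ℂ) r 0
  have h1 : (QuadraticAlgebra.omega : K) ^ 2 = algebraMap _ K r := by ext <;> simp [sq, K]
  have h2 : ∀ z : K, algebraMap _ K z.re + algebraMap _ K z.im * QuadraticAlgebra.omega = z :=
    fun z => by ext <;> simp [K]
  refine ⟨K, inferInstance, inferInstance, inferInstance, inferInstance, inferInstance, uu K,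
    QuadraticAlgebra.omega, ?_, uu_transc, ?_, fun σ τ hx hy => AlgHom.ext fun z => ?_,
    fun u v hu hv => ?_⟩
  · rw [gen, (hasGenus_hyper hp hd h1 (fun z => ⟨_, _, h2 z⟩)
      (AlgEquiv.ofRingEquiv (f := starRingAut) fun a => by ext <;> simp [K])
      (by ext <;> simp [K])).chiO_eq]
    simp
  · rw [h1]
    simp [r, p, uu, IsScalarTower.algebraMap_apply ℂ (RatFunc ℂ) K]
  · have := AlgHom.congr_fun (φ₁ := σ.comp (IsScalarTower.toAlgHom ℂ (RatFunc ℂ) K))
      (φ₂ := τ.comp (IsScalarTower.toAlgHom ℂ (RatFunc ℂ) K))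
      (IsLocalization.algHom_ext (nonZeroDivisors ℂ[X]) (Polynomial.algHom_ext hx))
    rw [← h2 z, map_add, map_add, map_mul, map_mul, hy]
    exact congrArg₂ (· + · * _) (this _) (this _)
  · obtain ⟨θ, hθ⟩ := exists_theta hu
    have h3 : θ r = v ^ 2 := by rw [hθ]; simp [p, hv]
    exact ⟨{ toFun z := θ z.re + θ z.im * v
             map_one' := by
               change θ 1 + θ 0 * v = 1
               simp
             map_mul' z w := by
               simp only [K, QuadraticAlgebra.re_mul, QuadraticAlgebra.im_mul, map_add, map_mul, h3,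
                 map_zero]
               ring
             map_zero' := by simp [K]
             map_add' z w := by simp [K]; ring
             commutes' c := by
               change θ (algebraMap _ _ c) + θ 0 * v = _
               rw [θ.commutes, map_zero, zero_mul, add_zero] },
      by simpa [uu, K] using hθ .X, by simp [K]⟩

variable {K : Type} [Field K] [Algebra ℂ K] [IsFF K]

lemma free_aux {A B a b : ℂ} (h : ∀ r : ℂ, r ^ 3 + A * r + B = 0 → 3 * r ^ 2 + A ≠ 0) {x y l : K}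
    (h1 : y ^ 2 = x ^ 3 + algebraMap ℂ K A * x + algebraMap ℂ K B) (h2 : b ^ 2 = a ^ 3 + A * a + B)
    (h0 : x - algebraMap ℂ K a ≠ 0) (h3 : l * (x - algebraMap ℂ K a) = y - algebraMap ℂ K b)
    (σ : K ≃ₐ[ℂ] K) (h4 : σ x = l ^ 2 - x - algebraMap ℂ K a) (h5 : σ y = -(l * (σ x - x) + y))
    (P : Place K) (hP : ∀ z, σ z ∈ P.O ↔ z ∈ P.O) : False := by
  replace h2 := congrArg (algebraMap ℂ K) h2
  simp only [map_add, map_mul, map_pow] at h2
  have c := P.const
  by_cases hx : x ∈ P.O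
  · have h6 : ∀ z ∈ P.O, P.val (σ z - z) < 1 := fun z hz => by
      obtain ⟨c, hc⟩ := P.exists_res hz
      have h6 := P.mem_nonunits_iff.2 hc
      rw [ValuationSubring.mem_nonunits_iff_or, ← hP, map_inv₀, ← map_eq_zero_iff σ σ.injective,
        ← ValuationSubring.mem_nonunits_iff_or, map_sub, σ.commutes] at h6
      simpa using P.val.map_sub_lt (P.mem_nonunits_iff.1 h6) hc
    have hy : y ∈ P.O := P.sq_mem_iff.1 (h1 ▸ add_mem (add_mem (pow_mem hx _) (mul_mem (c _) hx))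
      (c _))
    have hl : P.val l ≤ 1 := P.mem_iff.1 (P.sq_mem_iff.1 (by
      rw [show l ^ 2 = σ x + x + algebraMap ℂ K a by rw [h4]; ring]
      exact add_mem (add_mem ((hP x).2 hx) hx) (c a)))
    have h7 : P.val ((2 : ℂ) • y) < 1 := by
      rw [show (2 : ℂ) • y = -(σ y - y) - l * (σ x - x) by rw [h5, two_smul]; ring]
      exact P.val.map_sub_lt (by rw [Valuation.map_neg]; exact h6 y hy)
        (by rw [map_mul]; exact mul_lt_one_of_nonneg_of_lt_one_right hl zero_le (h6 x hx))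
    have h8 : P.val ((3 : ℂ) • x ^ 2 + algebraMap ℂ K A) < 1 := by
      rw [show (3 : ℂ) • x ^ 2 + algebraMap ℂ K A = l * (2 : ℂ) • y -
        (x - algebraMap ℂ K a) * (σ x - x) from mul_left_cancel₀ h0 (by
          rw [h4, two_smul, Algebra.smul_def, map_ofNat]
          linear_combination (l * (x - algebraMap ℂ K a) - y - algebraMap ℂ K b) * h3 - h1 + h2)]
      refine P.val.map_sub_lt ?_ ?_ <;> rw [map_mul]
      · exact mul_lt_one_of_nonneg_of_lt_one_right hl zero_le h7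
      · exact mul_lt_one_of_nonneg_of_lt_one_right (P.mem_iff.1 (sub_mem hx (c a))) zero_le
          (h6 x hx)
    rw [P.mem_iff] at hx hy
    have h9 : P.val (x ^ 2) ≤ 1 := by rw [map_pow]; exact pow_le_one' hx _
    have h10 := congrArg P.res h1
    have h11 := P.val_const_le
    rw [← Place.res_eq_zero_iff ((P.val_smul_le _ _).trans hy), Place.res_smul _ hy] at h7
    rw [Place.res_pow hy, Place.res_add (P.val.map_add_le (by rw [map_pow]; exact pow_le_one' hx _)
      (by rw [map_mul]; exact mul_le_one' (h11 _) hx)) (h11 _), Place.res_add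
      (by rw [map_pow]; exact pow_le_one' hx _) (by rw [map_mul]; exact mul_le_one' (h11 _) hx),
      Place.res_pow hx, Place.res_mul (h11 _) hx, Place.res_const, Place.res_const] at h10
    rw [← Place.res_eq_zero_iff (P.val.map_add_le ((P.val_smul_le _ _).trans h9) (h11 _)),
      Place.res_add ((P.val_smul_le _ _).trans h9) (h11 _), Place.res_smul _ h9, Place.res_pow hx,
      Place.res_const] at h8
    exact h _ (by linear_combination (P.res y / 2) * h7 - h10) h8
  · have hu := (P.O.mem_or_inv_mem x).resolve_left hx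
    have hx0 : x ≠ 0 := fun h => hx (h ▸ zero_mem _)
    have hw : y * x⁻¹ ^ 2 ∈ P.O := P.sq_mem_iff.1 (by
      rw [show (y * x⁻¹ ^ 2) ^ 2 = x⁻¹ + algebraMap ℂ K A * x⁻¹ ^ 3 + algebraMap ℂ K B * x⁻¹ ^ 4 by
        rw [mul_pow, h1]; field_simp]
      exact add_mem (add_mem hu (mul_mem (c _) (pow_mem hu _))) (mul_mem (c _) (pow_mem hu _)))
    have h6 : (x - algebraMap ℂ K a)⁻¹ ∈ P.O := (P.inv_mem_iff h0).2 (P.one_lt_val_sub hx a).le
    have h7 : x * (x - algebraMap ℂ K a)⁻¹ ∈ P.O := by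
      rw [show x * (x - algebraMap ℂ K a)⁻¹ = 1 + algebraMap ℂ K a * (x - algebraMap ℂ K a)⁻¹ by
        field_simp; ring]
      exact add_mem (one_mem _) (mul_mem (c a) h6)
    refine hx ((hP x).1 ?_)
    rw [show σ x = (x * (x - algebraMap ℂ K a)⁻¹) ^ 2 * (algebraMap ℂ K a +
      algebraMap ℂ K (A + a ^ 2) * x⁻¹ + algebraMap ℂ K (-2 * b) * (y * x⁻¹ ^ 2) +
        algebraMap ℂ K (B + b ^ 2 - a ^ 3) * x⁻¹ ^ 2) by
      rw [h4, (eq_div_iff h0).2 h3]
      simp only [map_add, map_mul, map_pow, map_sub, map_neg, map_ofNat]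
      field_simp
      linear_combination h1]
    exact mul_mem (pow_mem h7 _) (add_mem (add_mem (add_mem (c _) (mul_mem (c _) hu))
      (mul_mem (c _) hw)) (mul_mem (c _) (pow_mem hu _)))

theorem exists_free {m : ℕ} (hm : m ≠ 0) : ∃ (K : Type) (_ : Field K) (_ : Algebra ℂ K)
    (_ : Algebra (RatFunc ℂ) K) (_ : IsScalarTower ℂ (RatFunc ℂ) K)
    (_ : FiniteDimensional (RatFunc ℂ) K) (τ : K ≃ₐ[ℂ] K), gen K = 1 ∧ τ ^ m = 1 ∧
      ∀ (i : ℕ) (P : Place K), (∀ z, (τ ^ i) z ∈ P.O ↔ z ∈ P.O) → m ∣ i := by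
  obtain ⟨A, B, h, T, hT⟩ := exists_torsion hm
  obtain ⟨K, _, _, _, _, _, x, y, hg, hx, h1, h2, h3⟩ := exists_field h
  have h4 : ((Wc A B)⁄K).Nonsingular x y := ns_iff.2 ⟨h1, .inl fun h => hx
    ⟨3 * .X ^ 2 + .C A, fun h => by simpa using congrArg (·.coeff 2) h,
      by simpa [map_ofNat] using h⟩⟩
  let ξ : ((Wc A B)⁄K).Point := .some x y h4
  let β : ((Wc A B)⁄ℂ).Point →+ ((Wc A B)⁄K).Point := Point.baseChange ℂ K
  have h5 : ∀ σ τ : K →ₐ[ℂ] K, Point.map σ ξ = Point.map τ ξ → σ = τ := fun σ τ h =>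
    h2 σ τ (Point.some.inj h).1 (Point.some.inj h).2
  have h6 : ∀ Q, ∃ τ : K →ₐ[ℂ] K, Point.map τ ξ = ξ + β Q := fun Q => by
    have h6 : ∀ R, ξ + β Q ≠ β R := fun R hR => by
      rw [← eq_sub_iff_add_eq, ← map_sub] at hR
      generalize R - Q = R at hR
      rcases R with _ | ⟨a, b, hR'⟩
      · exact Point.some_ne_zero _ hR
      · exact transc_ne_const hx a (Point.some.inj hR).1
    generalize ξ + β Q = η at h6
    rcases η with _ | ⟨u, v, hv⟩
    · exact (h6 0 rfl).elim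
    obtain ⟨τ, rfl, rfl⟩ := h3 u v (transc_of_not_const fun a ha => by
      obtain ⟨b, hb⟩ := IsAlgClosed.exists_pow_nat_eq (a ^ 3 + A * a + B) two_pos
      have h7 := (ns_iff.1 hv).1
      rw [ha, ← map_pow, ← map_mul, ← map_add, ← map_add, ← hb, map_pow, sq_eq_sq_iff_eq_or_eq_neg,
        ← map_neg] at h7
      obtain ⟨b, rfl⟩ : ∃ b, v = algebraMap ℂ K b := h7.elim (⟨_, ·⟩) (⟨_, ·⟩)
      subst ha
      exact h6 (.some a b (((Wc A B).baseChange_nonsingular (Algebra.ofId ℂ K).injective a b).1 hv))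
        rfl) (ns_iff.1 hv).1
    exact ⟨τ, rfl⟩
  obtain ⟨σ, hσ⟩ := h6 T
  obtain ⟨σ', hσ'⟩ := h6 (-T)
  have h7 : ∀ (τ : K →ₐ[ℂ] K) Q, Point.map τ (β Q) = β Q := fun τ Q => Point.map_baseChange τ Q
  have h8 : Point.map (AlgHom.id ℂ K) ξ = ξ := rfl
  let τ := AlgEquiv.ofAlgHom σ σ'
    (h5 _ _ (by rw [← Point.map_map, hσ', map_add, hσ, h7, h8]; simp))
    (h5 _ _ (by rw [← Point.map_map, hσ, map_add, hσ', h7, h8]; simp))
  have h9 : ∀ i : ℕ, Point.map (τ ^ i : K ≃ₐ[ℂ] K).toAlgHom ξ = ξ + β (i • T) := fun i => by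
    induction i with
    | zero => rw [zero_nsmul, map_zero, add_zero]; rfl
    | succ i ih =>
      rw [show (τ ^ (i + 1)).toAlgHom = (τ ^ i).toAlgHom.comp σ from rfl, ← Point.map_map, hσ,
        map_add, ih, h7, succ_nsmul, map_add, add_assoc]
  refine ⟨K, _, _, _, ‹_›, ‹_›, τ, hg, AlgEquiv.coe_toAlgHom_injective (h5 _ _ ((h9 m).trans (by
    rw [(hT m).2 dvd_rfl, map_zero, add_zero]; rfl))), fun i P hP => (hT i).1 ?_⟩
  have h10 := h9 i
  generalize i • T = Q at h10
  rcases Q with _ | ⟨a, b, hb⟩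
  · rfl
  have h11 := transc_ne_const hx a
  obtain ⟨h12, h13⟩ := Point.some.inj (h10.trans (Point.add_of_X_ne h11))
  rw [slope_of_X_ne h11] at h12 h13
  refine (free_aux h h1 (ns_iff.1 hb).1 (sub_ne_zero.2 h11) (div_mul_cancel₀ _ (sub_ne_zero.2 h11))
    (τ ^ i) ?_ ?_ P hP).elim
  · simpa [addX, Wc, Affine.baseChange, WeierstrassCurve.baseChange] using h12
  · rw [addY, negAddY, ← h12] at h13
    simpa [negY, Wc, Affine.baseChange, WeierstrassCurve.baseChange, -neg_add_rev] using h13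

end Pool.Agent.Lib.MP_08f962_ag
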