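import Pool.Agent.Lib.MP_08f962_ag.Gen
import Pool.Agent.Lib.MP_08f962_ag.Norm
import Pool.Agent.Lib.MP_08f962_ag.Trans
import Pool.Agent.Lib.MP_08f962_ag.Cert

open WithZero Module Finsupp Filter
open scoped Polynomial IntermediateField

set_option linter.unusedSectionVars false
set_option linter.style.haveILetI false
set_option linter.unusedVariables false

noncomputable section

namespace Pool.Agent.Lib.MP_08f962_ag

open MP_eeb174_ag Classical

lemma finrank_eq_pol {K : Type} [Field K] [Algebra ℂ K] [Algebra (RatFunc ℂ) K]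
    [IsScalarTower ℂ (RatFunc ℂ) K] [FiniteDimensional (RatFunc ℂ) K] :
    (finrank (RatFunc ℂ) K : ℤ) = degree (pol (uu K)) := by
  have h1 : ∀ n : ℤ, hO K n = el (n • pol (uu K)) := fun n => by
    rw [hO, el, show {z : K | ∀ x : Place K, tw x n * z ∈ x.O} = LL (n • pol (uu K)) from
      Set.ext fun z => forall_congr' fun x => ?_, Submodule.span_eq]
    rw [Finsupp.smul_apply, pol_apply]
    rcases U0_or_Ui x with h | h
    · rw [tw_U0 h, one_mul, x.mem_iff, max_eq_right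
        (neg_nonpos.2 ((x.mem_iff_ord uu_ne_zero).1 h)), smul_zero, exp_zero]
    · rw [tw_Ui h, x.mem_iff, max_eq_left (neg_nonneg.2 (not_le.1
        (mt (x.mem_iff_ord uu_ne_zero).2 h)).le), map_mul, map_zpow₀, x.val_eq uu_ne_zero,
        ← exp_zsmul, neg_smul, exp_neg, inv_mul_le_iff₀ exp_pos, mul_one]
  have h2 := two_le_el_pol (uu_transc (K := K))
  have h3 := el_le_degree_succ (D := pol (uu K)) (by omega)
  refine (affine_unique (A := chiO K) (A' := chiO K) ?_).2
  filter_upwards [eventually_hO (K := K), eventually_gt_atTop (|2 * gen K - 2|)] with n hn h4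
  rw [← dlt, ← hn, h1, el_eq (by
    rw [map_zsmul, smul_eq_mul]
    nlinarith [le_abs_self (2 * gen K - 2), abs_nonneg (2 * gen K - 2)]), gen, map_zsmul,
    smul_eq_mul]
  ring

theorem exists_norm' {K : Type} [Field K] [Algebra ℂ K] [IsFF K] {m d e n : ℕ} (hm : 0 < m)
    (he : 0 < e) (τ : K ≃ₐ[ℂ] K) (hτ : orderOf τ = m) {f : K} (hf : Transcendental ℂ f)
    (hτf : τ f = f) (hK : degree (pol f) = e * m) {w : Fin (n + 1) → K} {j₀} (h0 : w j₀ ≠ 0)
    (h1 : ∀ j, τ (w j / w j₀) = w j / w j₀)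
    (h2 : ∀ j (P : Place K), (f ∈ P.O → w j ∈ P.O) ∧ (f ∉ P.O → w j ^ e / f ^ d ∈ P.O)) :
    ∃ F ∈ Forms 1 n (d, e), ∀ (Ω : Type) [Field Ω] [Algebra ℂ Ω] [IsAlgClosed Ω] (x : Ω)
      (y : Fin (n + 1) → Ω), Transcendental ℂ x → evp x y F = 0 → ∃ ρ : K →+* Ω,
        (∀ c, ρ (algebraMap ℂ K c) = algebraMap ℂ Ω c) ∧ ρ f = x ∧ ∑ j, ρ (w j) * y j = 0 := by
  let θ := ℂ⟮f⟯.val.comp (RatFunc.algEquivOfTranscendental f hf : RatFunc ℂ →ₐ[ℂ] _)
  letI := θ.toRingHom.toAlgebra
  haveI : IsScalarTower ℂ (RatFunc ℂ) K := .of_algebraMap_eq fun c => (θ.commutes c).symm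
  haveI := IsFF.fin f hf
  haveI : FiniteDimensional (RatFunc ℂ) K := Module.Finite.of_equiv_equiv
    (RatFunc.algEquivOfTranscendental f hf).symm.toRingEquiv (RingEquiv.refl K)
    (RingHom.ext fun z => congrArg Subtype.val
      ((RatFunc.algEquivOfTranscendental f hf).apply_symm_apply z))
  have h3 : uu K = f := RatFunc.algEquivOfTranscendental_X f hf
  have := exists_norm hm he { τ with
    commutes' := AlgHom.congr_fun (φ₁ := (τ : K →ₐ[ℂ] K).comp θ) (φ₂ := θ)
      (IsLocalization.algHom_ext (nonZeroDivisors ℂ[X]) (Polynomial.algHom_ext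
        (show τ (uu K) = uu K by rw [h3, hτf]))) }
    ((orderOf_eq_orderOf_iff.2 fun n => by
      simp only [AlgEquiv.ext_iff, AlgEquiv.coe_pow]; rfl).trans hτ)
    (by exact_mod_cast (finrank_eq_pol (K := K)).trans (h3.symm ▸ hK)) h0 h1 (by rw [h3]; exact h2)
  rwa [h3] at this

lemma zpow_sum' {K ι : Type} [Field K] {x : K} (hx : x ≠ 0) (s : Finset ι) (a : ι → ℤ) :
    x ^ ∑ i ∈ s, a i = ∏ i ∈ s, x ^ a i := by
  induction s using Finset.induction_on with
  | empty => simp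
  | insert i s hi ih => rw [Finset.sum_insert hi, Finset.prod_insert hi, zpow_add₀ hx, ih]

/-- Signed maximal minors. -/
def mn {R : Type} [CommRing R] {m : ℕ} (M : Fin m → Fin (m + 1) → R) (j : Fin (m + 1)) : R :=
  (-1) ^ (j : ℕ) * (Matrix.of fun i l => M i (j.succAbove l)).det

lemma map_mn {R R' : Type} [CommRing R] [CommRing R'] (ρ : R →+* R') {m : ℕ}
    (M : Fin m → Fin (m + 1) → R) (j) : ρ (mn M j) = mn (fun i l => ρ (M i l)) j := by
  rw [mn, map_mul, map_pow, map_neg, map_one, RingHom.map_det]; rfl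

lemma mn_eq_zero {R : Type} [Field R] {m : ℕ} {M : Fin m → Fin (m + 1) → R}
    (h : LinearIndependent R M) {y : Fin (m + 1) → R} :
    ∑ j, mn M j * y j ≠ 0 ↔ LinearIndependent R (Fin.cons y M : Fin (m + 1) → _) := by
  refine Iff.trans ?_ (Matrix.linearIndependent_rows_iff_isUnit (A := .of (Fin.cons y M))).symm
  rw [Matrix.isUnit_iff_isUnit_det, isUnit_iff_ne_zero, Matrix.det_succ_row_zero]
  simp only [mn, mul_right_comm _ _ (y _)]
  rfl

theorem exists_cert {m d e : ℕ} (hm : m ≠ 0) (hd : m < d) (he : 2 ≤ e) :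
    ∃ F ∈ Forms 1 m (d, e), ∀ r, Cert F (e * m * r + 1) (d * r) := by
  obtain ⟨K, _, _, _, _, _, τ, hg, hτ, h0⟩ := exists_free hm
  obtain ⟨O⟩ : Nonempty (Place K) := inferInstance
  let σ : Fin m → K ≃ₐ[ℂ] K := fun i => τ ^ (i : ℕ)
  have hσ : ∀ P, Function.Injective fun i => pl (σ i) P := fun P =>
    .of_lt_imp_ne fun i j hij h => by
      have := Nat.le_of_dvd (by omega) (h0 (j - i) P fun z => by
        obtain ⟨z, rfl⟩ := (σ i).surjective z
        rw [← mem_pl (σ := σ i), h, mem_pl, ← AlgEquiv.mul_apply, ← pow_add,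
          Nat.sub_add_cancel hij.le])
      omega
  obtain ⟨π, hπ⟩ : ∃ π : Equiv.Perm (Fin m), ∀ i z, σ (π i) z = τ (σ i z) := by
    obtain ⟨m, rfl⟩ := Nat.exists_eq_succ_of_ne_zero hm
    refine ⟨Equiv.addRight 1, fun i z => ?_⟩
    rw [← AlgEquiv.mul_apply, ← pow_succ', pow_eq_pow_mod _ hτ]
    simp [σ, Fin.val_add]
  obtain ⟨g, h1, h2⟩ := exists_exact_of_degree (D := single O e) (by
    rw [hg, degree_single']; omega) O
  let f := ∑ i, σ i g
  have h3 : τ f = f := by simp only [f, map_sum, ← hπ]; exact Equiv.sum_comp π fun i => σ i g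
  have h4 : ∀ P : Place K, ((∀ a : ℤ, ∑ i, single O a (pl (σ i) P) = 0) ∧ f ∈ P.O) ∨
      (∀ a : ℤ, ∑ i, single O a (pl (σ i) P) = a) ∧ P.val f = exp (e : ℤ) := fun P => by
    have h4 : ∀ i, pl (σ i) P ≠ O → P.val (σ i g) ≤ 1 := fun i h => by
      simpa [← val_pl, single_eq_of_ne h] using h1 (pl (σ i) P)
    by_cases h : ∃ i, pl (σ i) P = O
    · obtain ⟨i, rfl⟩ := h
      have h5 : P.val (σ i g) = exp (e : ℤ) := by simpa [← val_pl] using h2
      refine .inr ⟨fun a => by simp [single_apply, (hσ P).eq_iff], ?_⟩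
      rw [← h5, show f = _ from (Finset.add_sum_erase _ _ (Finset.mem_univ i)).symm]
      refine P.val.map_add_eq_of_lt_left ((P.val.map_sum_le fun j hj => h4 j
        ((hσ P).ne (Finset.ne_of_mem_erase hj))).trans_lt ?_)
      rw [h5, ← exp_zero, exp_lt_exp]
      omega
    · push Not at h
      exact .inl ⟨fun a => by simp [single_eq_of_ne (h _)],
        P.mem_iff.2 (P.val.map_sum_le fun i _ => h4 i (h i))⟩
  have h5 : degree (pol f) = e * m := by
    rw [show pol f = ∑ i, single (pl (σ i).symm O) (e : ℤ) from Finsupp.ext fun P => ?_]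
    · simp [map_sum, mul_comm]
    have : (∑ i, single (pl (σ i).symm O) (e : ℤ)) P = ∑ i, single O (e : ℤ) (pl (σ i) P) := by
      rw [Finsupp.finsetSum_apply]
      refine Finset.sum_congr rfl fun i _ => ?_
      rw [single_apply, single_apply]
      exact if_congr ⟨fun h => h ▸ Place.ext' (SetLike.ext fun z => by simp [mem_pl]),
        fun h => h ▸ Place.ext' (SetLike.ext fun z => by simp [mem_pl])⟩ rfl rfl
    rw [this, pol_apply]
    rcases h4 P with ⟨h, h'⟩ | ⟨h, h'⟩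
    · rw [h, max_eq_right]
      by_cases h0 : f = 0
      · simp [h0]
      · exact neg_nonpos.2 ((P.mem_iff_ord h0).1 h')
    · simp [h, (P.val_eq_exp_iff.1 h').2]
  have hf : Transcendental ℂ f := transc_of_not_const fun c hc => by
    rw [le_antisymm (pol_le le_rfl (hc ▸ const_mem_LL le_rfl c)) (pol_nonneg f), map_zero] at h5
    exact absurd h5 (by positivity)
  obtain ⟨s, hs⟩ := exists_gd (D := single O d) hg hσ (by rw [degree_single']; omega)
  let u : Place K → Fin m → K := fun P i => P.unif ^ single O (d : ℤ) (pl (σ i) P)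
  have hu : ∀ P i, u P i ≠ 0 := fun P i => zpow_ne_zero _ P.unif_ne_zero
  have h6 : ∀ P : Place K, ∃ N : Fin (m + 1) → Fin m → P.O, ∀ (Ω : Type) [Field Ω] (ρ : K →+* Ω)
      (c : Fin m → Ω) i, (∑ j, (∑ i, c i • fun j => ρ (σ i (s j))) j * ρ (N j i)) * ρ (u P i) =
        c i := fun P => by
    obtain ⟨N, hN⟩ := hs.inv P
    refine ⟨N, fun Ω _ ρ c i => ?_⟩
    have h6 : ∀ l, ∑ j, σ l (s j) * N j i = if l = i then (u P l)⁻¹ else 0 := fun l => by
      have := congrArg Subtype.val (congrFun (congrFun hN l) i)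
      rw [← inv_mul_cancel_left₀ (hu P l) (∑ j, _), Finset.mul_sum]
      simp only [← mul_assoc]
      rw [show ∑ j, _ = _ by simpa [Matrix.mul_apply, nrm] using this, Matrix.one_apply]
      split_ifs <;> simp
    simp only [Finset.sum_apply, Pi.smul_apply, smul_eq_mul, Finset.sum_mul, mul_assoc (c _),
      ← map_mul]
    rw [Finset.sum_comm]
    simp only [← Finset.mul_sum, ← map_sum, ← Finset.sum_mul, h6]
    simp [apply_ite ρ, hu]
  have h7 : ∀ (Ω : Type) [Field Ω] (ρ : K →+* Ω), LinearIndependent Ω fun i j => ρ (σ i (s j)) :=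
    fun Ω _ ρ => Fintype.linearIndependent_iff.2 fun c hc i => by
      obtain ⟨N, hN⟩ := h6 O
      rw [← hN Ω ρ c i, hc]
      simp
  let w := mn fun i j => σ i (s j)
  obtain ⟨j₀, h8⟩ : ∃ j, w j ≠ 0 := by
    obtain ⟨y, hy⟩ := exists_linearIndependent_cons_of_lt_finrank (h7 K (.id K)) (by simp)
    obtain ⟨j, -, hj⟩ := Finset.exists_ne_zero_of_sum_ne_zero ((mn_eq_zero (h7 K (.id K))).2 hy)
    exact ⟨j, left_ne_zero_of_mul hj⟩
  have h9 : ∀ j, τ (w j) = (Equiv.Perm.sign π : ℤ) * w j := fun j => by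
    refine (map_mn (τ : K →+* K) _ j).trans ?_
    simp only [RingHom.coe_coe, ← hπ, w, mn]
    rw [mul_left_comm, ← Matrix.det_permute]
    rfl
  obtain ⟨F, hF, h10⟩ := exists_norm' (d := d) hm.bot_lt (by omega) τ
    (Nat.dvd_antisymm (orderOf_dvd_of_pow_eq_one hτ) (h0 _ O (by simp [pow_orderOf_eq_one])))
    hf h3 h5 h8 (fun j => by
      rw [map_div₀, h9, h9]
      exact mul_div_mul_left _ _ ((Units.isUnit _).map (Int.castRingHom K)).ne_zero) fun j P => by
      have h10 : P.val (w j) ≤ exp (∑ i, single O (d : ℤ) (pl (σ i) P)) := by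
        rw [← P.zpow_mul_mem_iff]
        convert (mn (fun i j => nrm P (σ i) (s j)) j).2 using 1
        refine .trans ?_ (map_mn P.O.subtype (fun i j => nrm P (σ i) (s j)) j).symm
        simp only [w, mn]
        rw [mul_left_comm, zpow_sum' P.unif_ne_zero, ← Matrix.det_mul_column]
        rfl
      rcases h4 P with ⟨h, h'⟩ | ⟨h, h'⟩ <;> rw [h] at h10
      · exact ⟨fun _ => P.mem_iff.2 h10, fun h => (h h').elim⟩
      · refine ⟨fun h => absurd (h'.symm.trans_le (P.mem_iff.1 h)) ?_, fun _ => ?_⟩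
        · rw [← exp_zero, exp_le_exp]
          omega
        · rw [P.mem_iff, map_div₀, map_pow, map_pow, h', div_le_one₀ (pow_pos exp_pos _)]
          refine (pow_le_pow_left' h10 e).trans_eq ?_
          simp [← exp_nsmul, mul_comm]
  refine ⟨F, hF, fun r Ω _ _ _ x y hx h hy => ?_⟩
  obtain ⟨ρ, hρ, rfl, h11⟩ := h10 Ω x y hx h
  simp only [w, map_mn] at h11
  obtain ⟨c, rfl⟩ := (Submodule.mem_span_range_iff_exists_fun _).1 (by_contra fun h =>
    (mn_eq_zero (h7 Ω ρ)).2 (linearIndependent_finCons.2 ⟨h7 Ω ρ, h⟩) h11)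
  obtain ⟨i, hi⟩ : ∃ i, c i ≠ 0 := not_forall.1 fun h => hy (by simp [h])
  obtain ⟨φ, h12, h13⟩ := el_pos_iff.1 ((le_el ((e * m * r + 1) • single O (d : ℤ) -
    (d * r) • pol f)).trans_lt' (by
      rw [map_sub, map_nsmul, map_nsmul, h5, degree_single', hg]
      simp only [nsmul_eq_mul]
      push_cast
      nlinarith))
  refine ⟨c i ^ (e * m * r + 1) * ρ (σ i φ), by simp [hi, h12], fun L _ ι V t hc ht => ?_⟩
  obtain ⟨P, hP⟩ : ∃ P : Place K, ∀ a ∈ P.O, ι (ρ a) ∈ V := by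
    by_cases h : V.comap (ι.comp ρ) = ⊤
    · exact ⟨O, fun a _ => h.ge (ValuationSubring.mem_top a)⟩
    · exact ⟨⟨_, h, fun c => show ι (ρ _) ∈ V from hρ c ▸ hc c⟩, fun _ h => h⟩
  obtain ⟨N, hN⟩ := h6 P
  have h14 : ∀ ψ ∈ LL ((e * m * r + 1) • single O (d : ℤ)),
      ι (c i ^ (e * m * r + 1) * ρ (σ i ψ)) * t ^ (e * m * r + 1) ∈ V := fun ψ hψ => by
    convert mul_mem (pow_mem (sum_mem (t := Finset.univ) fun j _ => mul_mem (ht j)
      (hP _ (N j i).2)) (e * m * r + 1)) 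
      (hP _ (P.zpow_mul_mem_iff.2 (val_pl _ P ψ ▸ hψ (pl (σ i) P)))) using 1
    rw [← hN Ω ρ c i, Finsupp.smul_apply, nsmul_eq_mul, mul_comm (_ : ℤ), zpow_mul, zpow_natCast]
    simp only [mul_right_comm _ t, ← Finset.sum_mul, ← map_mul, ← map_sum]
    simp only [map_mul, map_pow, mul_pow, u]
    ring
  refine ⟨h14 φ (LL_mono (sub_le_self _ (nsmul_nonneg (pol_nonneg f) _)) h13), ?_⟩
  have h15 : f ^ (d * r) ∈ LL ((d * r) • pol f) := fun x => by
    rw [map_pow, Finsupp.smul_apply, exp_nsmul]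
    exact pow_le_pow_left' (mem_pol f x) _
  have h16 : σ i f = f := (congrFun (AlgEquiv.coe_pow τ i) f).trans (Function.iterate_fixed h3 _)
  have h17 := h14 _ (sub_add_cancel _ ((d * r) • pol f) ▸ mul_mem_LL h13 h15)
  rwa [map_mul (σ i), map_pow (σ i), h16, map_mul ρ, map_pow ρ, ← mul_assoc] at h17

theorem ell_bound {m d e : ℕ} (hm : m ≠ 0) (hd : m < d) (he : 2 ≤ e) :
    ∃ F ∈ Forms 1 m (d, e), ∀ k P α β, P.IsPrime → IsBihom P → F ∈ P → D k P α β →
      d / (m * e) * α ≤ β := by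
  obtain ⟨F, hF, h⟩ := exists_cert hm hd he
  refine ⟨F, hF, fun k P α β => le_of_curves fun P α β h1 h2 => ?_⟩
  have := lin_nonneg (N := 0) (a := e * m * β - d * α) (b := β) fun r _ => by
    have := (h r).le hF h2 h1
    push_cast at this
    linarith
  rw [div_mul_eq_mul_div, div_le_iff₀ (by positivity)]
  linarith

end Pool.Agent.Lib.MP_08f962_ag
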