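import Pool.Agent.Lib.MP_eeb174_ag.GV

open WithZero Module Finsupp Cardinal
open scoped Polynomial

set_option linter.unusedSectionVars false
set_option linter.style.haveILetI false
set_option linter.unusedVariables false

noncomputable section

namespace Pool.Agent.Lib.MP_08f962_ag

open MP_eeb174_ag Classical

variable {K : Type} [Field K] [Algebra ℂ K] [Algebra (RatFunc ℂ) K]
  [IsScalarTower ℂ (RatFunc ℂ) K] [FiniteDimensional (RatFunc ℂ) K]

/-- Pull-back of a place. -/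
def pl (σ : K ≃ₐ[ℂ] K) (P : Place K) : Place K :=
  ⟨P.O.comap σ.toRingEquiv.toRingHom, fun h => P.ne_top (eq_top_iff.2 fun z _ => by
    simpa using (h.ge (ValuationSubring.mem_top (σ.symm z)) : σ _ ∈ P.O)),
    fun c => show σ _ ∈ P.O from (σ.commutes c).symm ▸ P.const c⟩

lemma mem_pl {σ : K ≃ₐ[ℂ] K} {P : Place K} {z : K} : z ∈ (pl σ P).O ↔ σ z ∈ P.O := Iff.rfl

lemma val_pl (σ : K ≃ₐ[ℂ] K) (P : Place K) (z : K) : (pl σ P).val z = P.val (σ z) := by
  let Q := pl σ P
  have h0 := Q.unif_ne_zero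
  have h1 : ∀ z, z ≠ 0 → P.ord (σ z) = Q.ord z * P.ord (σ Q.unif) := fun z hz => by
    have h1 : z * Q.unif ^ (-Q.ord z) ≠ 0 := mul_ne_zero hz (zpow_ne_zero _ h0)
    have h2 : Q.ord (z * Q.unif ^ (-Q.ord z)) = 0 := by
      rw [Q.ord_mul hz (zpow_ne_zero _ h0), Q.ord_zpow]; simp
    have h3 := (P.mem_iff_ord ((map_ne_zero σ).2 h1)).1 (mem_pl.1 ((Q.mem_iff_ord h1).2 h2.ge))
    have h4 := (P.mem_iff_ord ((map_ne_zero σ).2 (inv_ne_zero h1))).1 (mem_pl.1
      ((Q.mem_iff_ord (inv_ne_zero h1)).2 (by rw [Q.ord_inv, h2]; rfl)))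
    rw [map_inv₀, P.ord_inv] at h4
    rw [map_mul, P.ord_mul (by simpa) ((map_ne_zero σ).2 (zpow_ne_zero _ h0)), map_zpow₀, P.ord_zpow] at h3 h4
    linarith
  have h2 := h1 (σ.symm P.unif) (by simpa using P.unif_ne_zero)
  rw [σ.apply_symm_apply, P.ord_unif] at h2
  have h3 := Int.eq_one_of_mul_eq_one_left ((P.mem_iff_ord (by simpa)).1 (mem_pl.1 Q.unif_mem))
    h2.symm
  by_cases hz : z = 0
  · simp [hz]
  · rw [Place.val_eq _ hz, P.val_eq (by simpa), h1 z hz, h3, mul_one]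

/-- The residue map. -/
def resH (P : Place K) : P.O →+* ℂ where
  toFun z := P.res z
  map_one' := Place.res_one
  map_mul' a b := Place.res_mul (P.mem_iff.1 a.2) (P.mem_iff.1 b.2)
  map_zero' := Place.res_zero
  map_add' a b := Place.res_add (P.mem_iff.1 a.2) (P.mem_iff.1 b.2)

/-- Constants. -/
def cst (P : Place K) : ℂ →+* P.O := (algebraMap ℂ K).codRestrict P.O P.const

lemma resH_cst (P : Place K) : (resH P).comp (cst P) = RingHom.id ℂ :=
  RingHom.ext fun c => Place.res_const c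

variable {D : Dv K}

/-- Normalised sections. -/
def nrm (P : Place K) (σ : K ≃ₐ[ℂ] K) (g : LL D) : P.O :=
  ⟨P.unif ^ D (pl σ P) * σ g, P.zpow_mul_mem_iff.2 (val_pl σ P g ▸ g.2 _)⟩

/-- Values of sections. -/
def rs (P : Place K) (σ : K ≃ₐ[ℂ] K) : LL D →ₗ[ℂ] ℂ where
  toFun g := resH P (nrm P σ g)
  map_add' a b := (congrArg _ (Subtype.ext (by simp [nrm, mul_add]))).trans (map_add _ _ _)
  map_smul' c a := (congrArg P.res (by simp [nrm])).trans
    (Place.res_smul c (P.mem_iff.1 (nrm P σ a).2))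

lemma rs_ne_zero {P : Place K} {σ : K ≃ₐ[ℂ] K} {g : LL D} :
    rs P σ g ≠ 0 ↔ (pl σ P).val g = exp (D (pl σ P)) := by
  refine (Place.res_eq_zero_iff (P.mem_iff.1 (nrm P σ g).2)).not.trans
    (Place.val_zpow_mul_lt_one.not.trans ?_)
  rw [← val_pl]
  exact ⟨Place.val_eq_of_not_le _ (g.2 _), Place.not_le_of_val_eq _⟩

variable {m n : ℕ} (σ : Fin m → K ≃ₐ[ℂ] K)

/-- The sections generate at every place. -/
def Gd (s : Fin n → LL D) : Prop :=
  ∀ P, LinearIndependent ℂ fun i j => rs P (σ i) (s j)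

variable {σ}

lemma gd_basis (hg : gen K = 1) (hσ : ∀ P, Function.Injective fun i => pl (σ i) P)
    (hD : (m : ℤ) < degree D) : Gd σ (finBasis ℂ (LL D)) := fun P =>
  Fintype.linearIndependent_iff.2 fun c hc i => by
    let E : Dv K := ∑ j ∈ Finset.univ.erase i, single (pl (σ j) P) 1
    have h1 : ∀ j, E (pl (σ j) P) = if j = i then 0 else 1 := fun j => by
      simp [E, single_apply, (hσ P).eq_iff, eq_comm (a := j)]
      split_ifs <;> rfl
    obtain ⟨g, hg, h2⟩ := exists_exact_of_degree (D := D - E) (by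
      have := i.pos
      simp only [E, map_sub, map_sum, degree_single', Finset.sum_const, hg,
        Finset.card_erase_of_mem (Finset.mem_univ i), Finset.card_univ, Fintype.card_fin]
      simp only [nsmul_eq_mul]
      omega) (pl (σ i) P)
    let g' : LL D := ⟨g, LL_mono (sub_le_self _ (Finset.sum_nonneg fun _ _ => by simp)) hg⟩
    have h3 : ∑ j, c j * rs P (σ j) g' = 0 := by
      rw [← (finBasis ℂ (LL D)).sum_repr g']
      simp only [map_sum, map_smul, Finset.mul_sum, smul_eq_mul, mul_left_comm (c _)]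
      rw [Finset.sum_comm]
      refine Finset.sum_eq_zero fun l _ => ?_
      rw [← Finset.mul_sum, show ∑ j, _ = _ by simpa using congrFun hc l, mul_zero]
    rw [Finset.sum_eq_single i (fun j _ hj => mul_eq_zero_of_right _ (by_contra fun h =>
      Place.not_le_of_val_eq _ (rs_ne_zero.1 h) (by simpa [h1, hj] using hg (pl (σ j) P))))
      (by simp)] at h3
    exact (mul_eq_zero.1 h3).resolve_right (rs_ne_zero.2 (by simpa [h1] using h2))

lemma trdeg_eq : Algebra.trdeg ℂ (MvPolynomial (Fin m) K) = (m + 1 : ℕ) := by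
  rw [← trdeg_add_eq ℂ K, ← trdeg_add_eq ℂ (RatFunc ℂ) (A := K), ← trdeg_add_eq ℂ ℂ[X],
    Polynomial.trdeg_of_isDomain, MvPolynomial.trdeg_of_isDomain, @trdeg_eq_zero _ _ _ _ _
      (IsLocalization.isAlgebraic (RatFunc ℂ) (nonZeroDivisors ℂ[X])), trdeg_eq_zero]
  simp [add_comm]

lemma exists_rel (s : Fin (n + 1) → LL D) (hn : m < n) : ∃ Q : MvPolynomial (Fin (n + 1)) ℂ,
    Q ≠ 0 ∧ ∀ P (c : Fin m → ℂ),
      MvPolynomial.eval (∑ i, c i • fun j => rs P (σ i) (s j)) Q = 0 := by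
  obtain ⟨Q, h1, h2⟩ : ∃ Q : MvPolynomial (Fin (n + 1)) ℂ, MvPolynomial.aeval (fun j => ∑ i,
      .X i * .C (σ i (s j)) : _ → MvPolynomial (Fin m) K) Q = 0 ∧ Q ≠ 0 := by
    by_contra! hc
    have := (algebraicIndependent_iff.2 hc).cardinalMk_le_trdeg
    rw [trdeg_eq, mk_fin, Nat.cast_le] at this
    omega
  refine ⟨Q, h2, fun P c => ?_⟩
  have h3 := congrArg ((MvPolynomial.aeval (R := K) fun i =>
    algebraMap ℂ K (c i) * P.unif ^ D (pl (σ i) P)).restrictScalars ℂ) h1
  rw [map_zero, MvPolynomial.comp_aeval_apply, MvPolynomial.aeval_def] at h3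
  have h4 : MvPolynomial.eval₂ (cst P) (fun j => ∑ i, cst P (c i) * nrm P (σ i) (s j)) Q = 0 := by
    apply P.O.subtype_injective
    rw [MvPolynomial.eval₂_comp_left, map_zero, ← h3]
    refine congrArg (MvPolynomial.eval₂ _ · Q) (funext fun j => ?_)
    simp [cst, nrm, mul_assoc]
  have h5 := congrArg (resH P) h4
  rw [MvPolynomial.eval₂_comp_left, resH_cst, map_zero] at h5
  refine (congrArg (MvPolynomial.eval₂ _ · Q) (funext fun j => ?_)).trans h5
  simp [← RingHom.comp_apply, resH_cst, rs]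

lemma lin_step {u : Fin m → Fin (n + 1) → ℂ} (hu : LinearIndependent ℂ u) {z : Fin (n + 1) → ℂ}
    (h0 : z 0 ≠ 0) (hz : ∀ c : Fin m → ℂ, ∑ i, c i • u i ≠ z) :
    LinearIndependent ℂ fun i (j : Fin n) => u i j.succ - z j.succ / z 0 * u i 0 :=
  Fintype.linearIndependent_iff.2 fun c hc => by
    let v := ∑ i, c i • u i
    have h4 : z 0 • v = v 0 • z := funext (Fin.cases (mul_comm _ _) fun j => by
      have := congrFun hc j
      simp only [Finset.sum_apply, Pi.smul_apply, smul_eq_mul, mul_sub,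
        Finset.sum_sub_distrib, mul_left_comm (c _), ← Finset.mul_sum, Pi.zero_apply, v] at this ⊢
      rw [sub_eq_zero.1 this]
      field_simp)
    by_cases h5 : v 0 = 0
    · exact Fintype.linearIndependent_iff.1 hu c (by simpa [h5, h0] using h4)
    · refine (hz ((z 0 / v 0) • c) ?_).elim
      simp only [Pi.smul_apply, smul_assoc, ← Finset.smul_sum]
      rw [div_eq_inv_mul, mul_smul, h4, inv_smul_smul₀ h5]

lemma Gd.step {s : Fin (n + 1) → LL D} (h : Gd σ s) (hn : m < n) :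
    ∃ s' : Fin n → LL D, Gd σ s' := by
  obtain ⟨Q, h2, h3⟩ := exists_rel (σ := σ) s hn
  obtain ⟨z, hz⟩ : ∃ z, MvPolynomial.eval z (Q * .X 0) ≠ 0 := not_forall.1 fun h =>
    mul_ne_zero h2 (MvPolynomial.X_ne_zero 0) (MvPolynomial.funext fun z => by rw [h, map_zero])
  rw [map_mul, MvPolynomial.eval_X, mul_ne_zero_iff] at hz
  refine ⟨fun j => s j.succ - (z j.succ / z 0) • s 0, fun P => ?_⟩
  simp only [map_sub, map_smul, smul_eq_mul]
  exact lin_step (h P) hz.2 fun c hc => hz.1 (by rw [← hc]; exact h3 P c)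

lemma Gd.inv {s : Fin n → LL D} (h : Gd σ s) (P : Place K) :
    ∃ N : Matrix (Fin n) (Fin m) P.O, (Matrix.of fun i j => nrm P (σ i) (s j)) * N = 1 := by
  let u : Matrix (Fin m) (Fin n) P.O := Matrix.of fun i j => nrm P (σ i) (s j)
  obtain ⟨B, hB⟩ := (Matrix.mulVec_surjective_iff_exists_right_inverse (A := u.map (resH P))).1
    (LinearMap.range_eq_top.1 (Submodule.eq_top_of_finrank_eq (S := LinearMap.range
      (u.map (resH P)).mulVecLin) ((LinearIndependent.rank_matrix (h P)).trans (by simp))))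
  have h1 : resH P (u * B.map (cst P)).det = 1 := by
    rw [RingHom.map_det, RingHom.mapMatrix_apply, Matrix.map_mul, Matrix.map_map, ← RingHom.coe_comp,
      resH_cst, RingHom.coe_id, Matrix.map_id, hB, Matrix.det_one]
  have h2 := (Place.res_ne_zero_iff (P.mem_iff.1 (u * B.map (cst P)).det.2)).1
    (h1.trans_ne one_ne_zero)
  have h3 : ((u * B.map (cst P)).det : K) ≠ 0 := fun h => by simp [h] at h2
  exact ⟨_, (Matrix.mul_assoc _ _ _).symm.trans (Matrix.mul_nonsing_inv _ (IsUnit.of_mul_eq_one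
    ⟨_, (P.inv_mem_iff h3).2 h2.ge⟩ (Subtype.ext (mul_inv_cancel₀ h3))))⟩

theorem exists_gd (hg : gen K = 1) (hσ : ∀ P, Function.Injective fun i => pl (σ i) P)
    (hD : (m : ℤ) < degree D) : ∃ s : Fin (m + 1) → LL D, Gd σ s := by
  have h1 : m + 1 ≤ finrank ℂ (LL D) := by
    have := le_el D
    rw [el] at this
    omega
  have h2 : ∃ s : Fin (finrank ℂ (LL D)) → LL D, Gd σ s := ⟨_, gd_basis hg hσ hD⟩
  generalize finrank ℂ (LL D) = n at h1 h2
  induction n, h1 using Nat.le_induction with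
  | base => exact h2
  | succ n hn ih => exact h2.elim fun s hs => ih (hs.step hn)

end Pool.Agent.Lib.MP_08f962_ag
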