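import Pool.Agent.Lib.MP_08f962_ag.Defs

open MvPolynomial Filter Module

set_option linter.unusedSectionVars false
set_option linter.style.haveILetI false
set_option linter.unusedVariables false

noncomputable section

namespace Pool.Agent.Lib.MP_08f962_ag

variable {n m : ℕ}

attribute [local instance] MvPolynomial.weightedGradedAlgebra

/-- The component of bidegree `p`. -/
abbrev cp (p : ℕ × ℕ) : S n m →ₗ[ℂ] S n m := weightedHomogeneousComponent (wt n m) p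

lemma finrank_map_add {V W : Type*} [AddCommGroup V] [Module ℂ V] [AddCommGroup W] [Module ℂ W]
    (U : Submodule ℂ V) [FiniteDimensional ℂ U] (φ : V →ₗ[ℂ] W) :
    finrank ℂ (U.map φ) + finrank ℂ (U ⊓ LinearMap.ker φ : Submodule ℂ V) = finrank ℂ U := by
  rw [← (φ.domRestrict U).finrank_range_add_finrank_ker, LinearMap.range_domRestrict,
    LinearMap.ker_domRestrict, ← Submodule.finrank_map_subtype_eq, Submodule.map_comap_subtype]

lemma finrank_map_inj {V W : Type*} [AddCommGroup V] [Module ℂ V] [AddCommGroup W] [Module ℂ W]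
    (U : Submodule ℂ V) {φ : V →ₗ[ℂ] W} (h : Function.Injective φ) :
    finrank ℂ (U.map φ) = finrank ℂ U := (U.equivMapOfInjective φ h).finrank_eq.symm

lemma weight_wt (α : Fin (n + 1) ⊕ Fin (m + 1) →₀ ℕ) :
    Finsupp.weight (wt n m) α = (∑ i, α (.inl i), ∑ j, α (.inr j)) := by
  rw [Finsupp.weight_apply, Finsupp.sum_fintype _ _ (by simp), Fintype.sum_sum_type]
  ext <;> simp [wt, Prod.fst_sum, Prod.snd_sum]

lemma finite_wt (p : ℕ × ℕ) : {α : _ →₀ ℕ | Finsupp.weight (wt n m) α = p}.Finite := by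
  refine (Finsupp.finite_of_degree_le (p.1 + p.2)).subset fun α h => ?_
  rw [Set.mem_ofPred_eq, weight_wt] at h
  rw [Set.mem_ofPred_eq, Finsupp.degree_eq_sum, Fintype.sum_sum_type, ← h]

instance (p : ℕ × ℕ) : FiniteDimensional ℂ (Forms n m p) :=
  haveI := (finite_wt (n := n) (m := m) p).to_subtype
  Module.Finite.of_basis (basisRestrictSupport ℂ {α | Finsupp.weight (wt n m) α = p}) |>.of_surjective
    (Submodule.inclusion fun f hf α hα => hf (Finsupp.mem_support_iff.2 hα)) fun f =>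
      ⟨⟨f, fun α hα => f.2 (Finsupp.mem_support_iff.1 hα)⟩, rfl⟩

lemma dec_eq (p : ℕ × ℕ) (f : S n m) : (DirectSum.decompose (Forms n m) f p : S n m) = cp p f :=
  decompose'_apply ℂ _ f p

lemma cp_mem (p : ℕ × ℕ) (f : S n m) : cp p f ∈ Forms n m p :=
  weightedHomogeneousComponent_mem _ _ _

lemma cp_same {p : ℕ × ℕ} {f : S n m} (h : f ∈ Forms n m p) : cp p f = f :=
  IsWeightedHomogeneous.weightedHomogeneousComponent_same h

lemma cp_mul {p : ℕ × ℕ} {f : S n m} (h : f ∈ Forms n m p) (q : ℕ × ℕ) (g : S n m) :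
    cp (q + p) (g * f) = cp q g * f := by
  rw [← dec_eq, ← dec_eq, DirectSum.coe_decompose_mul_add_of_right_mem (Forms n m) h]

lemma mul_mem_forms {p q : ℕ × ℕ} {f g : S n m} (hf : f ∈ Forms n m p) (hg : g ∈ Forms n m q) :
    f * g ∈ Forms n m (p + q) := IsWeightedHomogeneous.mul hf hg

lemma pow_mem_forms {p : ℕ × ℕ} {f : S n m} (hf : f ∈ Forms n m p) (k : ℕ) :
    f ^ k ∈ Forms n m (k • p) := IsWeightedHomogeneous.pow hf k

lemma x_mem (i : Fin (n + 1)) : (X (.inl i) : S n m) ∈ Forms n m (1, 0) :=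
  isWeightedHomogeneous_X ℂ (wt n m) (.inl i)

lemma y_mem (j : Fin (m + 1)) : (X (.inr j) : S n m) ∈ Forms n m (0, 1) :=
  isWeightedHomogeneous_X ℂ (wt n m) (.inr j)

lemma xpow_mem (i : Fin (n + 1)) (k : ℕ) : (X (.inl i) ^ k : S n m) ∈ Forms n m (k, 0) := by
  simpa using pow_mem_forms (x_mem i) k

lemma ypow_mem (j : Fin (m + 1)) (k : ℕ) : (X (.inr j) ^ k : S n m) ∈ Forms n m (0, k) := by
  simpa using pow_mem_forms (y_mem j) k

variable {I J P : Ideal (S n m)} {p q : ℕ × ℕ} {f g : S n m}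

lemma isBihom_iff : IsBihom I ↔ I.IsHomogeneous (Forms n m) :=
  ⟨fun h p f hf => dec_eq p f ▸ h f hf p, fun h f hf p => (dec_eq p f ▸ h p hf : cp p f ∈ I)⟩

lemma IsBihom.sup_span (hI : IsBihom I) (hf : f ∈ Forms n m p) : IsBihom (I ⊔ Ideal.span {f}) :=
  isBihom_iff.2 ((isBihom_iff.1 hI).sup (Ideal.homogeneous_span _ _ (by rintro _ rfl; exact ⟨p, hf⟩)))

lemma IsBihom.colon (hI : IsBihom I) (hf : f ∈ Forms n m p) :
    IsBihom (I.colon {f}) := fun g hg q => by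
  rw [Submodule.mem_colon_singleton, smul_eq_mul] at hg ⊢
  exact cp_mul hf q g ▸ hI _ hg _

lemma IsBihom.isPrime (hI : IsBihom I) (h : I ≠ ⊤)
    (h' : ∀ p q f g, f ∈ Forms n m p → g ∈ Forms n m q → f * g ∈ I → f ∈ I ∨ g ∈ I) :
    I.IsPrime :=
  Ideal.IsHomogeneous.isPrime_of_homogeneous_mem_or_mem (ι := ℕ ×ₗ ℕ)
    (𝒜 := weightedHomogeneousSubmodule ℂ (M := ℕ ×ₗ ℕ) (wt n m)) 
    (fun p f hf => (decompose'_apply ℂ (M := ℕ ×ₗ ℕ) (wt n m) f p).symm ▸ hI f hf p) h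
    fun ⟨p, hp⟩ ⟨q, hq⟩ => h' p q _ _ hp hq

/-- The dimension of a graded piece of an ideal. -/
def gd (I : Ideal (S n m)) (p : ℕ × ℕ) : ℕ :=
  finrank ℂ (Forms n m p ⊓ I.restrictScalars ℂ : Submodule ℂ (S n m))

/-- The quotient map. -/
abbrev mk (I : Ideal (S n m)) : S n m →ₗ[ℂ] S n m ⧸ I := (Ideal.Quotient.mkₐ ℂ I).toLinearMap

lemma ker_mk : LinearMap.ker (mk I) = I.restrictScalars ℂ := by
  ext f
  exact Ideal.Quotient.eq_zero_iff_mem

lemma hf_add_gd (I : Ideal (S n m)) (p : ℕ × ℕ) : hf I p + gd I p = finrank ℂ (Forms n m p) := by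
  rw [← finrank_map_add (Forms n m p) (mk I), ker_mk]; rfl

lemma mem_sup_span : g ∈ I ⊔ Ideal.span {f} ↔ ∃ a, ∃ b ∈ I, a * f + b = g := by
  rw [sup_comm, Ideal.mem_span_singleton_sup]

lemma hf_colon (hI : IsBihom I) (hf' : f ∈ Forms n m p) (h0 : f ≠ 0) (q : ℕ × ℕ) :
    hf (I ⊔ Ideal.span {f}) (q + p) + hf (I.colon {f}) q = hf I (q + p) := by
  let μ := LinearMap.mulRight ℂ f
  have hμ : Function.Injective μ := mul_left_injective₀ h0
  have h1 : Forms n m (q + p) ⊓ (I ⊔ Ideal.span {f}).restrictScalars ℂ =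
      (Forms n m (q + p) ⊓ I.restrictScalars ℂ) ⊔ (Forms n m q).map μ := by
    refine le_antisymm ?_ (sup_le (inf_le_inf_left _ fun w hw => Ideal.mem_sup_left hw) ?_)
    · rintro w ⟨h1, h2⟩
      obtain ⟨a, u, ha, rfl⟩ := mem_sup_span.1 h2
      rw [← cp_same h1, map_add, cp_mul hf', add_comm (_ * f)]
      exact Submodule.add_mem_sup ⟨cp_mem _ _, hI _ ha _⟩ ⟨_, cp_mem _ _, rfl⟩
    · rintro _ ⟨u, hu, rfl⟩
      exact ⟨mul_mem_forms hu hf', Ideal.mem_sup_right (Ideal.mem_span_singleton'.2 ⟨u, rfl⟩)⟩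
  have h2 : (Forms n m (q + p) ⊓ I.restrictScalars ℂ) ⊓ (Forms n m q).map μ =
      (Forms n m q ⊓ (I.colon {f}).restrictScalars ℂ).map μ := by
    ext w
    constructor
    · rintro ⟨⟨-, h⟩, u, hu, rfl⟩
      exact ⟨u, ⟨hu, Submodule.mem_colon_singleton.2 h⟩, rfl⟩
    · rintro ⟨u, ⟨hu, h⟩, rfl⟩
      exact ⟨⟨mul_mem_forms hu hf', Submodule.mem_colon_singleton.1 h⟩, u, hu, rfl⟩
  have h3 := Submodule.finrank_sup_add_finrank_inf_eq (Forms n m (q + p) ⊓ I.restrictScalars ℂ)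
    ((Forms n m q).map μ)
  rw [← h1, h2, finrank_map_inj _ hμ, finrank_map_inj _ hμ] at h3
  have h4 := hf_add_gd (I ⊔ Ideal.span {f}) (q + p)
  have h5 := hf_add_gd (I.colon {f}) q
  have h6 := hf_add_gd I (q + p)
  unfold gd at h4 h5 h6
  omega

lemma colon_prime [P.IsPrime] (h : f ∉ P) : P.colon {f} = P := by
  ext g
  rw [Submodule.mem_colon_singleton, smul_eq_mul]
  exact ⟨fun h' => (Ideal.IsPrime.mem_or_mem ‹_› h').resolve_right h, P.mul_mem_right _⟩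

lemma hf_cut [P.IsPrime] (hP : IsBihom P) (hf' : f ∈ Forms n m p) (h : f ∉ P) (q : ℕ × ℕ) :
    hf (P ⊔ Ideal.span {f}) (q + p) + hf P q = hf P (q + p) := by
  rw [← hf_colon hP hf' (fun h0 => h (h0 ▸ P.zero_mem)), colon_prime h]

lemma forms_ind {Q : S n m → Prop} (h0 : Q 0) (ha : ∀ f g, Q f → Q g → Q (f + g))
    (hm : ∀ α c, Finsupp.weight (wt n m) α = p → Q (monomial α c)) (hf : f ∈ Forms n m p) :
    Q f := by
  rw [f.as_sum]
  exact Finset.sum_induction _ Q ha h0 fun α hα => hm α _ (hf (mem_support_iff.1 hα))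

lemma monomial_split {α : Fin (n + 1) ⊕ Fin (m + 1) →₀ ℕ} (c : ℂ) {v} {k : ℕ} (h : k ≤ α v)
    (hα : Finsupp.weight (wt n m) α = q + k • wt n m v) :
    ∃ u ∈ Forms n m q, monomial α c = u * X v ^ k := by
  obtain ⟨β, rfl⟩ := exists_add_of_le (Finsupp.single_le_iff.2 h)
  refine ⟨monomial β c, isWeightedHomogeneous_monomial _ _ _ ?_, by
    rw [X_pow_eq_monomial, monomial_mul, mul_one, add_comm β]⟩
  rw [map_add, Finsupp.weight_single, add_comm] at hα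
  exact add_right_cancel hα

lemma hf_eq_zero (h : ∀ f ∈ Forms n m p, f ∈ I) : hf I p = 0 := by
  rw [hf, Submodule.finrank_eq_zero, ← LinearMap.le_ker_iff_map, ker_mk]
  exact h

lemma mem_of_y (h : ∀ j, X (.inr j) ∈ I) {s t : ℕ} (hf : f ∈ Forms n m (s, t + 1)) : f ∈ I := by
  refine forms_ind I.zero_mem (fun _ _ => I.add_mem) (fun α c hα => ?_) hf
  have h1 : ∑ j, α (.inr j) = t + 1 := congrArg Prod.snd ((weight_wt α).symm.trans hα)
  obtain ⟨j, -, hj⟩ := Finset.exists_ne_zero_of_sum_ne_zero (h1.trans_ne (Nat.succ_ne_zero t))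
  obtain ⟨u, -, hu⟩ := monomial_split (q := (s, t)) c (Nat.one_le_iff_ne_zero.2 hj)
    (by simpa [wt] using hα)
  rw [hu, pow_one]
  exact I.mul_mem_left _ (h j)

section one

variable {I J P : Ideal (S 1 m)} {f g : S 1 m}

lemma gen_x {s t k : ℕ} (hk : k ≤ s + 1) (hf : f ∈ Forms 1 m (s + k, t)) :
    ∃ u ∈ Forms 1 m (s, t), ∃ v ∈ Forms 1 m (s, t), f = u * X (.inl 0) ^ k + v * X (.inl 1) ^ k := by
  have := @forms_ind 1 m (s + k, t) f fun f => ∃ u ∈ Forms 1 m (s, t), ∃ v ∈ Forms 1 m (s, t),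
    f = u * X (.inl 0) ^ k + v * X (.inl 1) ^ k
  refine this ⟨0, zero_mem _, 0, zero_mem _, by rw [zero_mul, zero_mul, add_zero]⟩ ?_
    (fun α c hα => ?_) hf
  · rintro _ _ ⟨u, hu, v, hv, rfl⟩ ⟨u', hu', v', hv', rfl⟩
    exact ⟨u + u', add_mem hu hu', v + v', add_mem hv hv', by ring⟩
  have h1 : α (.inl 0) + α (.inl 1) = s + k :=
    (Fin.sum_univ_two fun i => α (.inl i)).symm.trans
      (congrArg Prod.fst ((weight_wt α).symm.trans hα))
  by_cases h : k ≤ α (.inl 0)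
  · obtain ⟨u, hu, h⟩ := monomial_split (q := (s, t)) (v := .inl 0) c h (by rw [hα]; simp [wt])
    exact ⟨u, hu, 0, zero_mem _, by rw [h, zero_mul, add_zero]⟩
  · obtain ⟨u, hu, h⟩ := monomial_split (q := (s, t)) (v := .inl 1) (k := k) (α := α) c (by omega)
      (by rw [hα]; simp [wt])
    exact ⟨0, zero_mem _, u, hu, by rw [h, zero_mul, zero_add]⟩

lemma mk_mul_inj [P.IsPrime] (h : f ∉ P) :
    Function.Injective (LinearMap.mulRight ℂ (mk P f)) := fun a b hab =>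
  mul_right_cancel₀ (mt Ideal.Quotient.eq_zero_iff_mem.1 h) hab

lemma map_mk_mul (U : Submodule ℂ (S 1 m)) (f : S 1 m) :
    U.map (mk I ∘ₗ LinearMap.mulRight ℂ f) = (U.map (mk I)).map (LinearMap.mulRight ℂ (mk I f)) := by
  rw [← Submodule.map_comp]
  congr 1

lemma hf_frac [P.IsPrime] (hP : IsBihom P) (hx : X (.inl 0) ∉ P) (hf' : f ∈ Forms 1 m p)
    (hg : g ∈ Forms 1 m p) (h : f ∉ P) {k : ℕ} (hk : f * X (.inl 1) ^ k - g * X (.inl 0) ^ k ∈ P)
    {s : ℕ} (hs : k ≤ s + 1) (t : ℕ) :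
    hf (P ⊔ Ideal.span {f} ⊔ Ideal.span {g}) ((s, t) + p) + hf P (s + k, t) =
      hf P ((s, t) + p) := by
  let W := Forms 1 m ((s, t) + p) ⊓ (P ⊔ Ideal.span {f} ⊔ Ideal.span {g}).restrictScalars ℂ
  have h1 := finrank_map_add W (mk P ∘ₗ LinearMap.mulRight ℂ (X (.inl 0) ^ k))
  have h2 : W ⊓ LinearMap.ker (mk P ∘ₗ LinearMap.mulRight ℂ (X (.inl 0) ^ k)) =
      Forms 1 m ((s, t) + p) ⊓ P.restrictScalars ℂ := by
    ext w
    refine ⟨fun h => ⟨h.1.1, (Ideal.IsPrime.mem_or_mem ‹_›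
      (Ideal.Quotient.eq_zero_iff_mem.1 h.2)).resolve_right fun h => hx
        (Ideal.IsPrime.mem_of_pow_mem ‹_› k h)⟩, fun h => ⟨⟨h.1, Ideal.mem_sup_left
          (Ideal.mem_sup_left h.2)⟩, Ideal.Quotient.eq_zero_iff_mem.2 (P.mul_mem_right _ h.2)⟩⟩
  have h3 : ∀ u v : S 1 m, mk P ((u * f + v * g) * X (.inl 0) ^ k) =
      mk P ((u * X (.inl 0) ^ k + v * X (.inl 1) ^ k) * f) := fun u v =>
    (Ideal.Quotient.eq.2 (by convert P.mul_mem_left v hk using 1; ring)).symm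
  have h4 : W.map (mk P ∘ₗ LinearMap.mulRight ℂ (X (.inl 0) ^ k)) =
      (Forms 1 m (s + k, t)).map (mk P ∘ₗ LinearMap.mulRight ℂ f) := by
    ext z
    constructor
    · rintro ⟨w, ⟨h1, h2⟩, rfl⟩
      obtain ⟨v, w', h7, rfl⟩ := mem_sup_span.1 h2
      obtain ⟨u, a, ha, rfl⟩ := mem_sup_span.1 h7
      refine ⟨_, add_mem (mul_mem_forms (cp_mem (s, t) u) (xpow_mem 0 k))
        (mul_mem_forms (cp_mem (s, t) v) (xpow_mem 1 k)), (h3 _ _).symm.trans ?_⟩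
      rw [← cp_same h1, map_add (cp _), map_add (cp _), cp_mul hf', cp_mul hg]
      refine Ideal.Quotient.eq.2 ?_
      convert P.mul_mem_left (-X (.inl 0) ^ k) (hP _ ha ((s, t) + p)) using 1
      simp only [LinearMap.mulRight_apply]
      ring
    · rintro ⟨w, hw, rfl⟩
      obtain ⟨u, hu, v, hv, rfl⟩ := gen_x hs hw
      exact ⟨u * f + v * g, ⟨add_mem (mul_mem_forms hu hf') (mul_mem_forms hv hg), add_mem
        (Ideal.mem_sup_left (Ideal.mem_sup_right (Ideal.mem_span_singleton'.2 ⟨u, rfl⟩)))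
        (Ideal.mem_sup_right (Ideal.mem_span_singleton'.2 ⟨v, rfl⟩))⟩, h3 u v⟩
  rw [h2, h4, map_mk_mul, finrank_map_inj _ (mk_mul_inj h)] at h1
  have h5 := hf_add_gd (P ⊔ Ideal.span {f} ⊔ Ideal.span {g}) ((s, t) + p)
  have h6 := hf_add_gd P ((s, t) + p)
  change hf P _ + gd P _ = gd _ _ at h1
  omega

lemma exists_frac [P.IsPrime] (hx : X (.inl 0) ∉ P) (hx' : X (.inl 1) ∉ P) {s t k : ℕ}
    (h : hf P (s + k, t) < 2 * hf P (s, t)) : ∃ f ∈ Forms 1 m (s, t), ∃ g ∈ Forms 1 m (s, t),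
      f ∉ P ∧ f * X (.inl 1) ^ k - g * X (.inl 0) ^ k ∈ P := by
  let U := fun i => (Forms 1 m (s, t)).map (mk P ∘ₗ LinearMap.mulRight ℂ (X (.inl i) ^ k))
  have h1 : ∀ i, X (.inl i) ∉ P → finrank ℂ (U i) = hf P (s, t) := fun i hi => by
    rw [show U i = _ from map_mk_mul _ _, finrank_map_inj _ (mk_mul_inj fun h => hi
      (Ideal.IsPrime.mem_of_pow_mem ‹_› k h))]
    rfl
  have h2 : ∀ i, U i ≤ (Forms 1 m (s + k, t)).map (mk P) := by
    rintro i _ ⟨u, hu, rfl⟩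
    exact ⟨_, mul_mem_forms hu (xpow_mem i k), rfl⟩
  have h3 := Submodule.finrank_sup_add_finrank_inf_eq (U 1) (U 0)
  have h4 : finrank ℂ (U 1 ⊔ U 0 : Submodule ℂ _) ≤ hf P (s + k, t) :=
    Submodule.finrank_mono (sup_le (h2 1) (h2 0))
  rw [h1 0 hx, h1 1 hx'] at h3
  obtain ⟨_, ⟨⟨f, hf, rfl⟩, g, hg, h5⟩, h6⟩ := Submodule.exists_mem_ne_zero_of_ne_bot
    (p := U 1 ⊓ U 0) fun h0 => by rw [h0, finrank_bot] at h3; omega
  exact ⟨f, hf, g, hg, fun h => h6 (Ideal.Quotient.eq_zero_iff_mem.2 (P.mul_mem_right _ h)),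
    Ideal.Quotient.eq.1 h5.symm⟩

lemma hf_succ_le {a b : ℂ} (h0 : a ≠ 0 ∨ b ≠ 0)
    (h : C a * X (.inl 0) + C b * X (.inl 1) ∈ I) (s t : ℕ) : hf I (s + 1, t) ≤ hf I (s, t) := by
  have key : ∀ i : Fin 2, (∀ j, ∃ c : ℂ, mk I (X (.inl j)) = c • mk I (X (.inl i))) →
      hf I (s + 1, t) ≤ hf I (s, t) := fun i hi => by
    refine le_trans (Submodule.finrank_mono ?_) (Submodule.finrank_map_le
      (LinearMap.mulRight ℂ (mk I (X (.inl i)))) _)
    rintro _ ⟨w, hw, rfl⟩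
    obtain ⟨u, hu, v, hv, rfl⟩ := gen_x (by omega) hw
    obtain ⟨c, hc⟩ := hi 0
    obtain ⟨c', hc'⟩ := hi 1
    refine ⟨_, ⟨c • u + c' • v, add_mem (Submodule.smul_mem _ _ hu) (Submodule.smul_mem _ _ hv),
      rfl⟩, ?_⟩
    simp only [AlgHom.toLinearMap_apply, map_add, map_mul, map_smul, pow_one,
      LinearMap.mulRight_apply] at hc hc' ⊢
    rw [hc, hc']
    simp only [mul_smul_comm]
  have h1 : a • mk I (X (.inl 0)) + b • mk I (X (.inl 1)) = 0 := by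
    rw [← map_smul, ← map_smul, ← map_add, smul_eq_C_mul, smul_eq_C_mul]
    exact Ideal.Quotient.eq_zero_iff_mem.2 h
  rcases h0 with h0 | h0
  · refine key 1 (Fin.forall_fin_two.2 ⟨⟨-b / a, smul_right_injective _ h0 ?_⟩, 1, by simp⟩)
    simp only [smul_smul]
    rw [mul_div_cancel₀ _ h0, neg_smul, eq_neg_iff_add_eq_zero, h1]
  · refine key 0 (Fin.forall_fin_two.2 ⟨⟨1, by simp⟩, -a / b, smul_right_injective _ h0 ?_⟩)
    simp only [smul_smul]
    rw [mul_div_cancel₀ _ h0, neg_smul, eq_neg_iff_add_eq_zero, add_comm (b • _), h1]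

end one

end Pool.Agent.Lib.MP_08f962_ag
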