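import Pool.Agent.Lib.MP_08f962_ag.HF2

open Polynomial Filter Module

set_option linter.unusedSectionVars false
set_option linter.style.haveILetI false
set_option linter.unusedVariables false

noncomputable section

namespace Pool.Agent.Lib.MP_08f962_ag

variable {m : ℕ} {I J P : Ideal (S 1 m)} {k : ℕ} {α β ρ : ℝ} {F : S 1 m}

/-- Horizontal subvarieties of dimension `k + 1`. -/
structure H (k : ℕ) (P : Ideal (S 1 m)) (α β : ℝ) : Prop where
  prime : P.IsPrime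
  bihom : IsBihom P
  d : D k P α β
  pos : 0 < α

lemma H.not_x (h : H k P α β) (i) : .X (.inl i) ∉ P := fun h' => by
  obtain ⟨A, B, h1, -, -, rfl, -⟩ := h.d
  simpa [h1.eq_zero' h'] using h.pos

lemma H.not_lin (h : H k P α β) (c : ℂ) : .X (.inl 0) - .C c * .X (.inl 1) ∉ P := fun h' => by
  obtain ⟨A, B, h1, -, -, rfl, -⟩ := h.d
  simpa [h1.eq_zero (a := 1) (b := -c) (by simp) (by simpa [sub_eq_add_neg] using h')] using h.pos

lemma H.exists_y (h : H k P α β) : ∃ j, .X (.inr j) ∉ P := not_forall.1 fun h' => by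
  obtain ⟨A, B, h1, -, -, rfl, -⟩ := h.d
  simpa [(h1.unique (hp_of_y h')).1] using h.pos

lemma H.step {a q b : ℕ} (h : H (k + 1) P α β) (hJ : IsBihom J) (hr : Rel J P P a q b) (hq : 0 < q)
    {r : ℝ} (h' : (k + 2) * q * β + (a - b) * α ≤ r * ((k + 1) * q * α)) :
    ∃ P' α' β', J ≤ P' ∧ H k P' α' β' ∧ β' ≤ r * α' := by
  by_contra! hc
  let T : AddSubmonoid (ℝ × ℝ) :=
    { carrier := {p | 0 ≤ p.1 ∧ r * p.1 ≤ p.2 ∧ (0 < p.1 → r * p.1 < p.2)}
      zero_mem' := by simp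
      add_mem' := by
        rintro ⟨a, b⟩ ⟨a', b'⟩ ⟨h1, h2, h3⟩ ⟨h4, h5, h6⟩
        refine ⟨add_nonneg h1 h4, by simp only [Prod.mk_add_mk]; linarith, fun h => ?_⟩
        simp only [Prod.mk_add_mk] at h h3 h6 ⊢
        rcases h1.eq_or_lt with h1 | h1
        · linarith [h6 (by linarith)]
        · linarith [h3 h1] }
  have h1 := (h.d.cut hJ hr).decomp T hJ fun P' α' β' h1 h2 h3 h4 => by
    rcases h4.nonneg.1.eq_or_lt with rfl | h5
    · exact ⟨le_rfl, by simpa using h4.nonneg.2, fun h => absurd h (lt_irrefl _)⟩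
    · have := hc P' α' β' h3 ⟨h1, h2, h4, h5⟩
      exact ⟨h5.le, this.le, fun _ => this⟩
  have := h.pos
  exact absurd (h1.2.2 (by positivity)) (not_lt.2 h')

/-- There is a horizontal subvariety of dimension at least `k + 1` and slope at most `ρ`. -/
def E (k : ℕ) (I : Ideal (S 1 m)) (ρ : ℝ) : Prop :=
  ∃ j P α β, k ≤ j ∧ I ≤ P ∧ H j P α β ∧ (j + 1) * β ≤ ρ * α

lemma E.mono {k' : ℕ} (h : E k I ρ) (h1 : k' ≤ k) (h2 : J ≤ I) : E k' J ρ := by
  obtain ⟨j, P, α, β, h3, h4, h5⟩ := h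
  exact ⟨j, P, α, β, h1.trans h3, h2.trans h4, h5⟩

lemma H.cut {a q : ℕ} (h : H (k + 1) P α β) (h' : (k + 1 + 1 : ℕ) * β ≤ ρ * α) {f}
    (hf : f ∈ Forms 1 m (a, q)) (hq : 0 < q) (h0 : f ∉ P) :
    ∃ P' α' β', P ⊔ Ideal.span {f} ≤ P' ∧ H k P' α' β' ∧ (k + 1) * β' ≤ (ρ + a / q) * α' := by
  haveI := h.prime
  have hq' : (0 : ℝ) < q := by exact_mod_cast hq
  obtain ⟨P', α', β', h1, h2, h3⟩ := h.step (h.bihom.sup_span hf) (rel_cut h.bihom hf h0) hq
    (r := (ρ + a / q) / (k + 1)) (by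
      have : (ρ + a / q) / (k + 1) * ((k + 1) * q * α) = q * (ρ * α) + a * α := by field_simp
      push_cast at h' ⊢
      nlinarith)
  refine ⟨P', α', β', h1, h2, ?_⟩
  rwa [div_mul_eq_mul_div, le_div_iff₀' (by positivity)] at h3

lemma E.cut {a q : ℕ} (h : E (k + 1) I ρ) {f} (hf : f ∈ Forms 1 m (a, q)) (hq : 0 < q) :
    E k (I ⊔ Ideal.span {f}) (ρ + a / q) := by
  obtain ⟨j, P, α, β, h1, h2, h3, h4⟩ := h
  by_cases h0 : f ∈ P
  · refine ⟨j, P, α, β, by omega, sup_le h2 ((Ideal.span_singleton_le_iff_mem _).2 h0), h3,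
      h4.trans ?_⟩
    have := h3.pos
    rw [add_mul]
    exact le_add_of_nonneg_right (by positivity)
  obtain ⟨j, rfl⟩ := Nat.exists_eq_add_of_le' (show 1 ≤ j by omega)
  obtain ⟨P', α', β', h5, h6⟩ := h3.cut (by exact_mod_cast h4) hf hq h0
  exact ⟨j, P', α', β', by omega, (sup_le_sup_right h2 _).trans h5, h6⟩

lemma E.exact (h : E k I ρ) : ∃ P α β, I ≤ P ∧ H k P α β ∧ (k + 1) * β ≤ ρ * α := by
  obtain ⟨j, P, α, β, h1, h2, h3, h4⟩ := h
  induction j, h1 using Nat.le_induction generalizing P α β with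
  | base => exact ⟨P, α, β, h2, h3, h4⟩
  | succ j hj ih =>
    obtain ⟨i, hi⟩ := h3.exists_y
    obtain ⟨P', α', β', h5, h6, h7⟩ := h3.cut (by exact_mod_cast h4) (y_mem i) one_pos hi
    exact ih P' α' β' (h2.trans (le_sup_left.trans h5)) h6 (by simpa using h7)

lemma peel {s t : ℕ} (hF : F ∈ Forms 1 m (s + 1, t)) : ∃ u ∈ Forms 1 m (s, t),
    ∃ v ∈ Forms 1 m (0, t), F = u * .X (.inl 1) ^ 1 + v * .X (.inl 0) ^ (s + 1) := by
  have := @forms_ind 1 m (s + 1, t) F fun f => ∃ u ∈ Forms 1 m (s, t), ∃ v ∈ Forms 1 m (0, t),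
    f = u * .X (.inl 1) ^ 1 + v * .X (.inl 0) ^ (s + 1)
  refine this ⟨0, zero_mem _, 0, zero_mem _, by rw [zero_mul, zero_mul, add_zero]⟩ ?_
    (fun α c hα => ?_) hF
  · rintro _ _ ⟨u, hu, v, hv, rfl⟩ ⟨u', hu', v', hv', rfl⟩
    exact ⟨u + u', add_mem hu hu', v + v', add_mem hv hv', by ring⟩
  have h1 : α (.inl 0) + α (.inl 1) = s + 1 :=
    (Fin.sum_univ_two fun i => α (.inl i)).symm.trans
      (congrArg Prod.fst ((weight_wt α).symm.trans hα))
  by_cases h : 1 ≤ α (.inl 1)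
  · obtain ⟨u, hu, h⟩ := monomial_split (q := (s, t)) (v := .inl 1) c h (by rw [hα]; simp [wt])
    exact ⟨u, hu, 0, zero_mem _, by rw [h, zero_mul, add_zero]⟩
  · obtain ⟨u, hu, h⟩ := monomial_split (q := (0, t)) (v := .inl 0) (k := s + 1) (α := α) c
      (by omega) (by rw [hα]; simp [wt])
    exact ⟨0, zero_mem _, u, hu, by rw [h, zero_mul, zero_add]⟩

lemma E.cut_many {j r e : ℕ} (h : E (k + r + 1) I ρ) (hF : F ∈ Forms 1 m (j + r, e)) (he : 0 < e) :
    E k (I ⊔ Ideal.span {F}) (ρ + j / e) := by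
  induction r generalizing I F with
  | zero => exact h.cut hF he
  | succ r ih =>
    obtain ⟨u, hu, v, hv, rfl⟩ := peel (s := j + r) hF
    refine (ih (by simpa using E.cut (k := k + r + 1) h hv he) hu).mono le_rfl (sup_le
      (le_sup_left.trans le_sup_left) ((Ideal.span_singleton_le_iff_mem _).2 (add_mem
        (Ideal.mul_mem_right _ _ (Ideal.mem_sup_right (Ideal.mem_span_singleton_self _)))
        (Ideal.mul_mem_right _ _ (Ideal.mem_sup_left (Ideal.mem_sup_right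
          (Ideal.mem_span_singleton_self _)))))))

lemma rel_frac [P.IsPrime] (hP : IsBihom P) (hx : .X (.inl 0) ∉ P) {a q b : ℕ} {f g}
    (hf' : f ∈ Forms 1 m (a, q)) (hg : g ∈ Forms 1 m (a, q)) (h : f ∉ P)
    (hk : f * .X (.inl 1) ^ b - g * .X (.inl 0) ^ b ∈ P) :
    Rel (P ⊔ Ideal.span {f} ⊔ Ideal.span {g}) P P a q b :=
  ⟨b, fun s t hs => hf_frac hP hx hf' hg h hk (by omega) t⟩

lemma H.down {σ ε : ℝ} (h : H (k + 1) P α β) (h' : β ≤ σ * α) (hε : 0 < ε) :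
    ∃ P' α' β', P ≤ P' ∧ H k P' α' β' ∧ β' ≤ (σ + ε) * α' := by
  haveI := h.prime
  have hα := h.pos
  have hk : (0 : ℝ) ≤ k := k.cast_nonneg
  by_cases h0 : β ≤ ε * α
  · obtain ⟨i, hi⟩ := h.exists_y
    obtain ⟨P', α', β', h1, h2⟩ := h.step (h.bihom.sup_span (y_mem i))
      (rel_cut h.bihom (y_mem i) hi) one_pos (r := σ + ε) (by
        have := mul_nonneg hk (mul_pos hε hα).le
        have := mul_le_mul_of_nonneg_left h' hk
        push_cast
        nlinarith)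
    exact ⟨P', α', β', le_sup_left.trans h1, h2⟩
  obtain ⟨A, B, h1, hA, hB, rfl, rfl⟩ := h.d
  obtain ⟨r, hr⟩ : ∃ r, r * A.coeff (k + 1) = B.coeff (k + 1 + 1) - ε * A.coeff (k + 1) :=
    ⟨_, div_mul_cancel₀ _ hα.ne'⟩
  have hr0 : 0 ≤ r := by nlinarith
  have h2 := ev_pos (p := B - (C r * (A * X) + A)) (k := k + 1 + 1) ((natDegree_sub_le _ _).trans
    (max_le hB (natDegree_comb (natDegree_mul_le.trans (add_le_add hA natDegree_X_le))
      (hA.trans (Nat.le_succ _)) _))) (by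
      rw [coeff_sub, coeff_add, coeff_C_mul, coeff_mul_X,
        coeff_eq_zero_of_natDegree_lt (hA.trans_lt (Nat.lt_succ_self _))]
      nlinarith)
  have h3 := h1.nonneg
  obtain ⟨N, h1⟩ := h1
  obtain ⟨t, h4, h5, h6⟩ := (h2.and (h3.and (eventually_ge_atTop (N + 1)))).exists
  obtain ⟨f, hf, g, hg, h7, h8⟩ := exists_frac (h.not_x 0) (h.not_x 1) (s := N) (t := t)
    (k := N + ⌈r * t⌉₊) (by
      rw [← Nat.cast_lt (α := ℝ), Nat.cast_mul, h1 _ _ (by omega) (by omega),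
        h1 _ _ le_rfl (by omega)]
      have := mul_le_mul_of_nonneg_right (Nat.ceil_lt_add_one (a := r * t) (by positivity)).le h5
      simp only [eval_sub, eval_add, eval_mul, eval_C, eval_X] at h4
      push_cast
      nlinarith)
  obtain ⟨P', α', β', h9, h10⟩ := h.step ((h.bihom.sup_span hf).sup_span hg)
    (rel_frac h.bihom (h.not_x 0) hf hg h7 h8) (by omega) (r := σ + ε) (by
      have h9 := mul_le_mul_of_nonneg_right (Nat.le_ceil (r * t)) hα.le
      have ht : (0 : ℝ) ≤ t := t.cast_nonneg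
      have h10 := mul_nonneg ht (mul_nonneg hk (mul_pos hε hα).le)
      have h11 := mul_le_mul_of_nonneg_left h' (mul_nonneg ht (add_nonneg hk zero_le_one))
      have h12 := congrArg ((t : ℝ) * ·) hr
      push_cast
      nlinarith)
  exact ⟨P', α', β', le_sup_left.trans (le_sup_left.trans h9), h10⟩

lemma H.down' {j : ℕ} {σ ε : ℝ} (h : H k P α β) (h' : β ≤ σ * α) (hε : 0 < ε) (hj : j ≤ k) :
    ∃ P' α' β', P ≤ P' ∧ H j P' α' β' ∧ β' ≤ (σ + ε) * α' := by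
  induction k, hj using Nat.le_induction generalizing P α β σ ε with
  | base => exact ⟨P, α, β, le_rfl, h, by nlinarith [h.pos]⟩
  | succ k hk ih =>
    obtain ⟨P', α', β', h1, h2, h3⟩ := h.down h' (half_pos hε)
    obtain ⟨P'', α'', β'', h4, h5, h6⟩ := ih h2 h3 (half_pos hε)
    exact ⟨P'', α'', β'', h1.trans h4, h5, by simpa [add_assoc] using h6⟩

lemma le_of_curves {σ : ℝ} (hc : ∀ P α β, F ∈ P → H 0 P α β → σ * α ≤ β) (hP : P.IsPrime)
    (hb : IsBihom P) (hF : F ∈ P) (h : D k P α β) : σ * α ≤ β := by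
  rcases h.nonneg.1.eq_or_lt with rfl | h0
  · simpa using h.nonneg.2
  by_contra! h1
  rw [← div_lt_iff₀ h0] at h1
  obtain ⟨P', α', β', h2, h3, h4⟩ := H.down' ⟨hP, hb, h, h0⟩ (div_mul_cancel₀ β h0.ne').ge
    (half_pos (sub_pos.2 h1)) k.zero_le
  nlinarith [hc P' α' β' (h2 hF) h3, h3.pos]

lemma H.vertical (h : H (k + 1) P α β) :
    ∃ P' β', P ≤ P' ∧ P'.IsPrime ∧ IsBihom P' ∧ D k P' 0 β' ∧ 0 < β' := by
  haveI := h.prime
  by_contra! hc
  let T : AddSubmonoid (ℝ × ℝ) :=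
    { carrier := {p | 0 ≤ p.1 ∧ (0 < p.1 ∨ p.2 ≤ 0)}
      zero_mem' := by simp
      add_mem' := by
        rintro ⟨a, b⟩ ⟨a', b'⟩ ⟨h1, h2⟩ ⟨h3, h4⟩
        refine ⟨add_nonneg h1 h3, ?_⟩
        rcases h2 with h2 | h2
        · exact .inl (add_pos_of_pos_of_nonneg h2 h3)
        · exact h4.imp (add_pos_of_nonneg_of_pos h1) (add_nonpos h2) }
  have hJ := h.bihom.sup_span (x_mem 0)
  have h1 := (h.d.cut hJ (rel_cut h.bihom (x_mem 0) (h.not_x 0))).decomp T hJ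
    fun P' α' β' h1 h2 h3 h4 => ⟨h4.nonneg.1, h4.nonneg.1.eq_or_lt.symm.imp_right
      fun h : 0 = α' => hc P' β' (le_sup_left.trans h3) h1 h2 (h ▸ h4)⟩
  simpa [h.pos.not_ge] using h1.2

end Pool.Agent.Lib.MP_08f962_ag
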