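import Pool.Agent.Lib.MP_08f962_ag.Ev
import Pool.Agent.Lib.MP_eeb174_ag.BG

open Filter Module WithZero Set
open scoped Polynomial

set_option linter.unusedSectionVars false
set_option linter.style.haveILetI false
set_option linter.unusedVariables false

noncomputable section

namespace Pool.Agent.Lib.MP_08f962_ag

open MP_eeb174_ag

variable {ι : Type} [Fintype ι] {n : ℕ}

/-- Polynomial vectors of bounded degrees. -/
def PP (d : ι → ℤ) : Submodule ℂ (ι → RatFunc ℂ) := Submodule.pi univ fun i => Pk (d i)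

/-- Coordinates. -/
def ppEquiv (d : ι → ℤ) : PP d ≃ₗ[ℂ] (∀ i, Pk (d i)) where
  toFun v i := ⟨v.1 i, v.2 i trivial⟩
  invFun v := ⟨fun i => v i, fun i _ => (v i).2⟩
  map_add' _ _ := rfl
  map_smul' _ _ := rfl

instance (d : ι → ℤ) : Module.Finite ℂ (PP d) := Module.Finite.equiv (ppEquiv d).symm

lemma finrank_PP (d : ι → ℤ) : finrank ℂ (PP d) = ∑ i, (d i + 1).toNat := by
  simp [(ppEquiv d).finrank_eq, finrank_pi_fintype, finrank_Pk]

lemma mul_Pk {a b : ℤ} {f g : RatFunc ℂ} (hf : f ∈ Pk a) (hg : g ∈ Pk b) : f * g ∈ Pk (a + b) :=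
  ⟨mul_mem hf.1 hg.1, by rw [map_mul, exp_add]; exact mul_le_mul' hf.2 hg.2⟩

lemma exists_lat (B : Type) [CommRing B] [IsDomain B] [IsNoetherianRing B] [Algebra B (RatFunc ℂ)]
    [IsFractionRing B (RatFunc ℂ)] (U : Submodule (RatFunc ℂ) (Fin n → RatFunc ℂ)) :
    ∃ Λ : Submodule B (Fin n → RatFunc ℂ), Λ.FG ∧ Submodule.span (RatFunc ℂ) (Λ : Set _) = U ∧
      ∀ v, v ∈ Λ ↔ v ∈ U ∧ ∀ j, ∃ b, algebraMap B _ b = v j := by
  refine ⟨U.restrictScalars B ⊓ Submodule.pi univ fun _ => 1, (Submodule.fg_pi fun _ =>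
    Submodule.fg_unit 1).of_le inf_le_right, le_antisymm (Submodule.span_le.2 fun _ h => h.1)
      fun v hv => ?_, by simp [Submodule.mem_pi]⟩
  obtain ⟨⟨b, h0⟩, hb⟩ := IsLocalization.exist_integer_multiples_of_finite (nonZeroDivisors B) v
  have h1 : algebraMap B (RatFunc ℂ) b ≠ 0 := by simpa using nonZeroDivisors.ne_zero h0
  rw [← inv_smul_smul₀ h1 v]
  exact Submodule.smul_mem _ _ (Submodule.subset_span ⟨U.smul_mem _ hv, fun j _ =>
    Submodule.mem_one.2 (by simpa [Algebra.smul_def, IsLocalization.IsInteger] using hb j)⟩)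

theorem exists_dual (u : ι → Fin n → RatFunc ℂ) (hu : LinearIndependent (RatFunc ℂ) u)
    (g : ι → ℕ) (hg : ∀ i j, u i j ∈ Pk (g i)) :
    ∃ (r : ℕ) (w : Fin r → Fin n → RatFunc ℂ) (c : Fin r → ℕ), r + Fintype.card ι = n ∧
      LinearIndependent (RatFunc ℂ) w ∧ (∀ l j, w l j ∈ Pk (c l)) ∧ ∑ l, c l ≤ ∑ i, g i ∧
      ∀ v, v ∈ Submodule.span (RatFunc ℂ) (range w) ↔ ∀ i, u i ⬝ᵥ v = 0 := by
  let ψ := (Matrix.of u).mulVecLin
  have h0 : ∀ v, v ∈ LinearMap.ker ψ ↔ ∀ i, u i ⬝ᵥ v = 0 := fun v => funext_iff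
  obtain ⟨Λ, h1, h2, h3⟩ := exists_lat A0 (LinearMap.ker ψ)
  obtain ⟨Λ', h4, h5, h6⟩ := exists_lat Ri (LinearMap.ker ψ)
  obtain ⟨r, w, a, hw, h7, h8, h9⟩ := bg Λ Λ' h1 h4 (h2.trans h5.symm)
  rw [h2] at h7
  have hr : r + Fintype.card ι = n := by
    have := ψ.finrank_range_add_finrank_ker
    rw [← h7, finrank_span_eq_card hw, show finrank _ (LinearMap.range ψ) = _ from
      LinearIndependent.rank_matrix (M := Matrix.of u) hu] at this
    simpa [add_comm] using this
  have h10 : ∀ (s : ℤ) (f : Fin r → RatFunc ℂ), (∀ l, f l ∈ Pk (s + a l)) ↔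
      ∀ j, (∑ l, f l • w l) j ∈ Pk s := fun s f => by
    have h10 : ∑ l, f l • w l ∈ LinearMap.ker ψ :=
      h7 ▸ sum_mem fun l _ => Submodule.smul_mem _ _ (Submodule.subset_span ⟨l, rfl⟩)
    have h11 := h9 fun l => RatFunc.X ^ (-s) * f l
    simp only [mul_smul, ← Finset.smul_sum, vI_mul_zpow_le, h6, Submodule.smul_mem _ _ h10,
      true_and, Subtype.exists, ValuationSubring.algebraMap_apply, exists_prop, exists_eq_right,
      mem_Ri, Pi.smul_apply, smul_eq_mul, ← exp_zero] at h11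
    simp only [mem_Pk, forall_and, ← h8, h3, h10, true_and]
    refine and_congr (by simp) ?_
    simpa [add_comm] using h11.symm
  have h11 : ∀ l j, w l j ∈ Pk (-a l) := fun l j => by
    classical
    have := (h10 (-a l) (Pi.single l 1)).1 (fun l' => by
      by_cases h : l' = l
      · subst h; simp [mem_Pk]
      · simp [h]) j
    rwa [Finset.sum_eq_single l (fun i _ hi => by simp [hi]) (by simp), Pi.single_eq_same,
      one_smul] at this
  have h12 : ∀ l, 0 ≤ -a l := fun l => by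
    obtain ⟨j, hj⟩ := Function.ne_iff.1 (hw.ne_zero l)
    exact exp_le_exp.1 ((one_le_vI (h11 l j).1 hj).trans (h11 l j).2)
  lift (fun l => -a l) to Fin r → ℕ using h12 with c hc
  replace hc := funext_iff.1 hc
  refine ⟨r, w, c, hr, hw, fun l j => hc l ▸ h11 l j, ?_, fun v => h7 ▸ h0 v⟩
  let s : ℕ := ∑ l, c l
  have h13 := finrank_map_add (PP fun _ : Fin n => s) (ψ.restrictScalars ℂ)
  have h14 : finrank ℂ ((PP fun _ : Fin n => s).map (ψ.restrictScalars ℂ)) ≤
      finrank ℂ (PP fun i => g i + s) := Submodule.finrank_mono (by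
    rintro _ ⟨v, hv, rfl⟩ i -
    exact (Pk _).sum_mem (t := Finset.univ) fun j _ => mul_Pk (hg i j) (hv j trivial))
  have h15 : finrank ℂ (PP (fun _ : Fin n => s) ⊓ LinearMap.ker (ψ.restrictScalars ℂ) :
      Submodule ℂ _) ≤ finrank ℂ (PP fun l => s + a l) := by
    refine le_trans (Submodule.finrank_mono ?_) (Submodule.finrank_map_le
      ((Fintype.linearCombination (RatFunc ℂ) w).restrictScalars ℂ) _)
    rintro v ⟨hv, hv'⟩
    obtain ⟨f, rfl⟩ := (Submodule.mem_span_range_iff_exists_fun _).1 (h7.ge hv')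
    exact ⟨f, fun l _ => (h10 s f).2 (fun j => hv j trivial) l, rfl⟩
  simp only [finrank_PP] at h13 h14 h15
  have h16 : ∑ l, ((s : ℤ) + a l + 1).toNat + s = r * (s + 1) := by
    rw [← Finset.sum_add_distrib, Finset.sum_congr rfl (g := fun _ => s + 1) fun l _ => by
      have : c l ≤ s := Finset.single_le_sum (fun _ _ => Nat.zero_le _) (Finset.mem_univ l)
      have := hc l
      omega]
    simp
  have h17 : ∑ i, ((g i : ℤ) + s + 1).toNat = ∑ i, g i + Fintype.card ι * (s + 1) := by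
    rw [Finset.sum_congr rfl (g := fun i => g i + (s + 1)) fun i _ => by omega]
    simp [Finset.sum_add_distrib]
  have h18 : ∑ _i : Fin n, ((s : ℤ) + 1).toNat = r * (s + 1) + Fintype.card ι * (s + 1) := by
    rw [← add_mul, hr]; simp
  omega

lemma exists_small {m q r : ℕ} (g : Fin m → ℕ) (hg : ∑ i, g i ≤ m * q + r) {k : ℕ} (hk : k ≤ m) :
    ∃ T : Finset (Fin m), T.card = k ∧ ∑ i ∈ T, g i ≤ k * q + (k + r - m) := by
  induction hk using Nat.decreasingInduction with
  | self => exact ⟨Finset.univ, by simp, by omega⟩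
  | of_succ k hk ih =>
    obtain ⟨T, h1, h2⟩ := ih
    obtain ⟨i, hi, h3⟩ := T.exists_max_image g (Finset.card_pos.1 (by omega))
    have h4 : (T.erase i).card = k := by rw [Finset.card_erase_of_mem hi, h1]; rfl
    have h5 := Finset.sum_le_card_nsmul (T.erase i) g (g i) fun j hj =>
      h3 j (Finset.mem_of_mem_erase hj)
    refine ⟨_, h4, ?_⟩
    rw [← Finset.add_sum_erase _ _ hi, add_mul] at h2
    rw [h4, smul_eq_mul] at h5
    by_cases h : g i ≤ q
    · exact (h5.trans (Nat.mul_le_mul_left _ h)).trans (Nat.le_add_right _ _)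
    · omega

end Pool.Agent.Lib.MP_08f962_ag
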