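import Pool.Agent.Lib.ZP3.WdLem
import Pool.Agent.Lib.ZP3.WdExA

open Filter WeierstrassCurve WeierstrassCurve.Affine

set_option linter.unusedSectionVars false
set_option linter.style.haveILetI false
set_option linter.unusedVariables false

noncomputable section

namespace Pool.Agent.Lib.MP_08f962_ag

open ZP3 Classical

/-- A short Weierstrass equation. -/
def Wc (A B : ℂ) : Affine ℂ := ⟨0, 0, 0, A, B⟩

lemma ns_iff {F : Type} [Field F] [Algebra ℂ F] {A B : ℂ} {x y : F} :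
    ((Wc A B)⁄F).Nonsingular x y ↔ y ^ 2 = x ^ 3 + algebraMap ℂ F A * x + algebraMap ℂ F B ∧
      (3 * x ^ 2 + algebraMap ℂ F A ≠ 0 ∨ 2 * y ≠ 0) := by
  simp [nonsingular_iff', equation_iff, Wc, Affine.baseChange, WeierstrassCurve.baseChange, 
    -neg_add_rev]

variable (W : WD)

lemma ns_wd {z : ℂ} (h : z ∉ W.Λ) :
    ((Wc (-W.g2 / 4) (-W.g3 / 4))⁄ℂ).Nonsingular (W.X z) (W.Y z / 2) :=
  ns_iff.2 ⟨by simp only [Algebra.algebraMap_self, RingHom.id_apply]
               linear_combination W.eqn z h / 4,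
    (W.nonsing h).symm.imp (fun h1 h2 => h1 (by
      simp only [Algebra.algebraMap_self, RingHom.id_apply] at h2
      linear_combination 2 * h2)) fun h1 h2 => h1 (by linear_combination h2)⟩

/-- The uniformisation. -/
def upt (z : ℂ) : ((Wc (-W.g2 / 4) (-W.g3 / 4))⁄ℂ).Point :=
  if h : z ∈ W.Λ then 0 else .some _ _ (ns_wd W h)

variable {W} {a b : ℂ}

lemma upt_eq_zero : upt W a = 0 ↔ a ∈ W.Λ := by
  unfold upt
  split_ifs with h
  · simp [h]
  · simp [h]

lemma upt_neg : upt W (-a) = -upt W a := by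
  unfold upt
  by_cases h : a ∈ W.Λ
  · simp [h]
  · rw [dif_neg h, dif_neg (W.neg_notMem h), Point.neg_some]
    simp [W.even, W.odd, negY, Wc, Affine.baseChange, WeierstrassCurve.baseChange, neg_div]

lemma upt_inj (ha : a ∉ W.Λ) (hb : b ∉ W.Λ) (h : upt W a = upt W b) : a - b ∈ W.Λ := by
  rw [upt, upt, dif_neg ha, dif_neg hb, Point.some.injEq] at h
  exact W.inj ha hb h.1 (by linear_combination 2 * h.2)

lemma upt_weak (ha : a ∉ W.Λ) (hb : b ∉ W.Λ) (h : a + b ∉ W.Λ) (h' : a - b ∉ W.Λ) :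
    upt W (a + b) = upt W a + upt W b ∨ upt W (a + b) = -(upt W a + upt W b) := by
  have h1 : W.X a ≠ W.X b := fun h1 => by
    rcases (Point.X_eq_iff (h₁ := ns_wd W ha) (h₂ := ns_wd W hb)).1 h1 with h2 | h2
    · exact h' (upt_inj ha hb (by rwa [upt, upt, dif_neg ha, dif_neg hb]))
    · exact h (by simpa using upt_inj ha (W.neg_notMem hb) (by
        rwa [upt_neg, upt, upt, dif_neg ha, dif_neg hb]))
  rw [upt, upt, upt, dif_neg ha, dif_neg hb, dif_neg h, Point.add_of_X_ne h1, ← Point.X_eq_iff,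
    slope_of_X_ne h1]
  have := sub_ne_zero.2 h1
  simp only [addX, Wc, Affine.baseChange, WeierstrassCurve.baseChange, map_a₁, map_a₂, map_zero]
  field_simp
  linear_combination 4 * W.add ha hb h

lemma upt_gen (a b : ℂ) : ∀ᶠ c in cocountable, upt W (a + (b + c)) = upt W a + upt W (b + c) := by
  have h0 : ∀ u n : ℂ, n ≠ 0 → ∀ᶠ c in cocountable, u + n * (b + c) ∉ W.Λ := fun u n hn =>
    mem_cocountable.2 ((W.countable.preimage_of_injOn (f := fun c => u + n * (b + c))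
      fun c _ c' _ h => by simpa [hn] using h).mono fun c hc => not_not.1 hc)
  filter_upwards [h0 0 1 one_ne_zero, h0 0 2 two_ne_zero, h0 a 1 one_ne_zero, h0 a 2 two_ne_zero,
    h0 a (-1) (by simp)] with c h1 h2 h3 h4 h5
  generalize b + c = c at *
  rw [one_mul] at h1 h3
  rw [zero_add] at h1 h2
  by_cases ha : a ∈ W.Λ
  · rw [upt_eq_zero.2 ha, zero_add, upt, upt, dif_neg h1, dif_neg h3]
    simp [add_comm a, W.perX a ha, W.perY a ha]
  refine (upt_weak ha h1 h3 (by simpa [sub_eq_add_neg] using h5)).elim id fun h6 => ?_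
  have h7 := upt_weak h3 (W.neg_notMem h1) (by simpa) (by simpa [two_mul, add_assoc] using h4)
  rw [add_neg_cancel_right, upt_neg, h6] at h7
  rcases h7 with h7 | h7
  · rw [h6, neg_eq_iff_add_eq_zero, ← sub_eq_zero.2 h7]
    abel
  · refine (h2 ?_).elim
    simpa [two_mul] using upt_inj h1 (W.neg_notMem h1) (by
      rw [upt_neg, eq_neg_iff_add_eq_zero, ← sub_eq_zero.2 h7.symm]
      abel)

lemma upt_add (a b : ℂ) : upt W (a + b) = upt W a + upt W b := by
  haveI : Uncountable ℂ := Complex.ofReal_injective.uncountable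
  haveI : (cocountable : Filter ℂ).NeBot := neBot_iff.2 fun h => Set.not_countable_univ (by
    simpa using mem_cocountable.1 (h ▸ mem_bot : ∅ ∈ (cocountable : Filter ℂ)))
  obtain ⟨c, h1, h2, h3⟩ := ((upt_gen (W := W) a b).and ((upt_gen (W := W) (a + b) 0).and
    (upt_gen (W := W) b 0))).exists
  rw [zero_add] at h2 h3
  rw [← add_assoc, h2, h3, ← add_assoc] at h1
  exact add_right_cancel h1

lemma sum_roots {A B u v w : ℂ} (hu : u ^ 3 + A * u + B = 0) (hv : v ^ 3 + A * v + B = 0)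
    (hw : w ^ 3 + A * w + B = 0) (h1 : u ≠ v) (h2 : u ≠ w) (h3 : v ≠ w) : u + v + w = 0 :=
  mul_left_cancel₀ (mul_ne_zero (mul_ne_zero (sub_ne_zero.2 h1) (sub_ne_zero.2 h2))
    (sub_ne_zero.2 h3)) (by linear_combination (v - w) * hu - (u - w) * hv + (u - v) * hw)

theorem exists_torsion {m : ℕ} (hm : m ≠ 0) : ∃ A B : ℂ,
    (∀ r : ℂ, r ^ 3 + A * r + B = 0 → 3 * r ^ 2 + A ≠ 0) ∧
      ∃ T : ((Wc A B)⁄ℂ).Point, ∀ i : ℕ, i • T = 0 ↔ m ∣ i := by
  let L := WDE.pp UpperHalfPlane.I one_ne_zero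
  let W := WDE.wdOf L
  have h0 : ∀ α β : ℚ, α * L.ω₁ + β * L.ω₂ ∈ W.Λ ↔ α.den = 1 ∧ β.den = 1 := fun _ _ =>
    PeriodPair.mul_ω₁_add_mul_ω₂_mem_lattice
  refine ⟨-W.g2 / 4, -W.g3 / 4, fun r hr => ?_, upt W (L.ω₁ / m), fun i => ?_⟩
  · let z : ℚ → ℚ → ℂ := fun α β => α * L.ω₁ + β * L.ω₂
    have h1 : ∀ α β : ℚ, z (2 * α) (2 * β) ∈ W.Λ → W.Y (z α β) = 0 := fun α β h => by
      have h1 := W.perY _ h (-z α β)
      rw [W.odd, show -z α β + z (2 * α) (2 * β) = z α β by simp only [z]; push_cast; ring] at h1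
      linear_combination h1 / 2
    have h2 : ∀ α β : ℚ, z (2 * α) (2 * β) ∈ W.Λ → z α β ∉ W.Λ →
        (W.X (z α β) ^ 3 + -W.g2 / 4 * W.X (z α β) + -W.g3 / 4 = 0) ∧
          3 * W.X (z α β) ^ 2 + -W.g2 / 4 ≠ 0 := fun α β h h' => by
      simpa [h1 α β h, eq_comm] using ns_iff.1 (ns_wd W h')
    have h3 : ∀ α β γ δ : ℚ, z (2 * α) (2 * β) ∈ W.Λ → z α β ∉ W.Λ → z (2 * γ) (2 * δ) ∈ W.Λ →
        z γ δ ∉ W.Λ → z (α - γ) (β - δ) ∉ W.Λ → W.X (z α β) ≠ W.X (z γ δ) :=
      fun α β γ δ h h' g g' h3 h4 => h3 (by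
        convert W.inj h' g' h4 ((h1 _ _ h).trans (h1 _ _ g).symm) using 1
        simp only [z]; push_cast; ring)
    simp only [z, h0] at h2 h3
    have e1 := h2 (1 / 2) 0 (by norm_num) (by norm_num)
    have e2 := h2 0 (1 / 2) (by norm_num) (by norm_num)
    have e3 := h2 (1 / 2) (1 / 2) (by norm_num) (by norm_num)
    have n1 := h3 (1 / 2) 0 0 (1 / 2) (by norm_num) (by norm_num) (by norm_num) (by norm_num)
      (by norm_num)
    have n2 := h3 (1 / 2) 0 (1 / 2) (1 / 2) (by norm_num) (by norm_num) (by norm_num) (by norm_num)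
      (by norm_num)
    have n3 := h3 0 (1 / 2) (1 / 2) (1 / 2) (by norm_num) (by norm_num) (by norm_num) (by norm_num)
      (by norm_num)
    intro h
    have := sum_roots e1.1 e2.1 hr n1 (fun h' => e1.2 (h' ▸ h)) fun h' => e2.2 (h' ▸ h)
    exact e3.2 (add_left_cancel (this.trans (sum_roots e1.1 e2.1 e3.1 n1 n2 n3).symm) ▸ h)
  · rw [show i • upt W _ = upt W _ from (map_nsmul (AddMonoidHom.mk' (upt W) upt_add) i _).symm,
      upt_eq_zero, ← Rat.den_div_natCast_eq_one_iff i m hm]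
    convert (h0 (i / m) 0).trans (and_iff_left rfl)
    simp [mul_div_assoc, div_mul_eq_mul_div]

end Pool.Agent.Lib.MP_08f962_ag
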